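import Pool.Agent.Helper72K9.EIC.Gibbs

/-!
# Uniform expectation over a pair of tables
-/

set_option autoImplicit false
set_option linter.unusedSectionVars false

namespace Pool.Agent.Helper72K9.EIC

open Finset Real

variable {I : Type} [Fintype I] [DecidableEq I]

/-- pairs of tables -/
abbrev Tab (I : Type) := (I → Bool) × (I → Bool)

/-- mass of one table pair -/
noncomputable def P0 (I : Type) [Fintype I] : ℝ :=
  ((2 : ℝ) ^ Fintype.card I)⁻¹ * ((2 : ℝ) ^ Fintype.card I)⁻¹

theorem P0_pos : 0 < P0 I := by
  unfold P0; positivity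

/-- uniform expectation -/
noncomputable def U (g : Tab I → ℝ) : ℝ := (∑ z, g z) * P0 I

theorem U_mono {g g' : Tab I → ℝ} (h : ∀ z, g z ≤ g' z) : U g ≤ U g' := by
  unfold U
  exact mul_le_mul_of_nonneg_right (Finset.sum_le_sum fun z _ => h z) P0_pos.le

theorem U_prod (ψ χ : I → Bool → ℝ) :
    U (fun z : Tab I => (∏ i, ψ i (z.1 i)) * ∏ i, χ i (z.2 i)) =
      (∏ i, (ψ i true + ψ i false) / 2) * ∏ i, (χ i true + χ i false) / 2 := by
  unfold U P0
  rw [Fintype.sum_prod_type]
  simp only
  rw [← Finset.sum_mul_sum, sum_prod_bits, sum_prod_bits, Finset.prod_div_distrib,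
    Finset.prod_div_distrib, Finset.prod_const, Finset.card_univ]
  field_simp

theorem U_one : U (fun _ : Tab I => (1 : ℝ)) = 1 := by
  have h := U_prod (I := I) (fun _ _ => 1) (fun _ _ => 1)
  simpa using h

/-- `∏_{i ∈ H} g` as a product over all coordinates -/
theorem prod_sub (H : Finset I) (g : Bool → ℝ) :
    (∏ i, ((if i ∈ H then g true else 1) + (if i ∈ H then g false else 1)) / 2) =
      ((g true + g false) / 2) ^ H.card := by
  have h : ∀ i : I, ((if i ∈ H then g true else 1) + (if i ∈ H then g false else 1)) / 2 =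
      if i ∈ H then (g true + g false) / 2 else 1 := by
    intro i
    by_cases hi : i ∈ H <;> simp [hi]
  rw [Finset.prod_congr rfl fun i _ => h i]
  rw [Finset.prod_ite_mem, Finset.univ_inter, Finset.prod_const]

theorem U_prod_sub (H H' : Finset I) (g g' : Bool → ℝ) :
    U (fun z : Tab I => (∏ i ∈ H, g (z.1 i)) * ∏ i ∈ H', g' (z.2 i)) =
      ((g true + g false) / 2) ^ H.card * ((g' true + g' false) / 2) ^ H'.card := by
  have h := U_prod (I := I) (fun i b => if i ∈ H then g b else 1)
    (fun i b => if i ∈ H' then g' b else 1)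
  simp only [prod_sub] at h
  rw [← h]
  congr 1
  funext z
  simp only [Finset.prod_ite_mem, Finset.univ_inter]

/-- all table entries of the second table on `B` are `true` -/
theorem U_all_true (B : Finset I) :
    U (fun z : Tab I => if ∀ j ∈ B, z.2 j = true then (1 : ℝ) else 0) = (1 / 2) ^ B.card := by
  have h := U_prod_sub (I := I) ∅ B (fun _ => 1) (fun b => if b then 1 else 0)
  simp only [Finset.prod_empty, Finset.card_empty, pow_zero, one_mul, if_true,
    Bool.false_eq_true, if_false, add_zero] at h
  rw [← h]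
  congr 1
  funext z
  by_cases hz : ∀ j ∈ B, z.2 j = true
  · rw [if_pos hz]
    symm
    apply Finset.prod_eq_one
    intro j hj
    simp [hz j hj]
  · rw [if_neg hz]
    push Not at hz
    obtain ⟨j, hj, hjz⟩ := hz
    symm
    apply Finset.prod_eq_zero hj
    simp [hjz]

/-- exponential moment of the number of `true` entries -/
theorem U_exp_count (H H' : Finset I) (v : ℝ) :
    U (fun z : Tab I => exp (v * ((∑ i ∈ H, if z.1 i then (1 : ℝ) else 0) +
      ∑ j ∈ H', if z.2 j then (1 : ℝ) else 0))) = ((1 + exp v) / 2) ^ (H.card + H'.card) := by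
  have h := U_prod_sub (I := I) H H' (fun b => if b then exp v else 1) (fun b => if b then exp v else 1)
  simp only [if_true, Bool.false_eq_true, if_false] at h
  rw [pow_add, show (1 + exp v) / 2 = (exp v + 1) / 2 by ring, ← h]
  congr 1
  funext z
  rw [mul_add, Real.exp_add, Finset.mul_sum, Finset.mul_sum, Real.exp_sum, Real.exp_sum]
  congr 1 <;>
  · refine Finset.prod_congr rfl fun i _ => ?_
    split_ifs <;> simp

/-- exponential moment of a sum of signs of the second table -/
theorem U_exp_sign (J : Finset I) (θ : ℝ) :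
    U (fun z : Tab I => exp (θ * ∑ j ∈ J, if z.2 j then (-1 : ℝ) else 1)) ≤
      exp (θ ^ 2 / 2 * J.card) := by
  have h := U_prod_sub (I := I) ∅ J (fun _ => 1) (fun b => if b then exp (-θ) else exp θ)
  simp only [Finset.prod_empty, Finset.card_empty, pow_zero, one_mul, if_true,
    Bool.false_eq_true, if_false] at h
  have h2 : (exp (-θ) + exp θ) / 2 = cosh θ := by rw [Real.cosh_eq]; ring
  rw [h2] at h
  have h3 : (fun z : Tab I => exp (θ * ∑ j ∈ J, if z.2 j then (-1 : ℝ) else 1)) =
      fun z => ∏ i ∈ J, if z.2 i = true then exp (-θ) else exp θ := by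
    funext z
    rw [Finset.mul_sum, Real.exp_sum]
    refine Finset.prod_congr rfl fun i _ => ?_
    split_ifs <;> simp
  rw [h3, h, mul_comm, Real.exp_nat_mul]
  exact pow_le_pow_left₀ (by positivity) (Real.cosh_le_exp_half_sq θ) _

/-- a matching of constraints `z.1 i ∨ z.2 (c i)` -/
theorem U_matching (R : Finset I) (c : I → I) (hc : Set.InjOn c R) :
    U (fun z : Tab I => if ∀ i ∈ R, z.1 i = true ∨ z.2 (c i) = true then (1 : ℝ) else 0) ≤
      (3 / 4) ^ R.card := by
  unfold U P0
  rw [Fintype.sum_prod_type, Finset.sum_comm]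
  have h1 : ∀ z2 : I → Bool, ∑ z1 : I → Bool,
      (if ∀ i ∈ R, z1 i = true ∨ z2 (c i) = true then (1 : ℝ) else 0) =
      (2 : ℝ) ^ Fintype.card I * ∏ i ∈ R, (if z2 (c i) then 1 else 1 / 2) := by
    intro z2
    have h2 := sum_prod_bits (I := I) (fun i b => if i ∈ R then
      (if b = true ∨ z2 (c i) = true then (1 : ℝ) else 0) else 1)
    have h3 : ∀ z1 : I → Bool, (if ∀ i ∈ R, z1 i = true ∨ z2 (c i) = true then (1 : ℝ) else 0) =
        ∏ i, if i ∈ R then (if z1 i = true ∨ z2 (c i) = true then (1 : ℝ) else 0) else 1 := by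
      intro z1
      rw [Finset.prod_ite_mem, Finset.univ_inter]
      by_cases hz : ∀ i ∈ R, z1 i = true ∨ z2 (c i) = true
      · rw [if_pos hz]
        symm
        apply Finset.prod_eq_one
        intro j hj
        simp [hz j hj]
      · rw [if_neg hz]
        push Not at hz
        obtain ⟨j, hj, hjz⟩ := hz
        symm
        apply Finset.prod_eq_zero hj
        simp [hjz]
    rw [Finset.sum_congr rfl fun z1 _ => h3 z1, h2]
    have h4 : ∀ i : I, ((if i ∈ R then (if true = true ∨ z2 (c i) = true then (1 : ℝ) else 0)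
        else 1) + (if i ∈ R then (if false = true ∨ z2 (c i) = true then (1 : ℝ) else 0) else 1)) =
        2 * if i ∈ R then (if z2 (c i) then 1 else 1 / 2) else 1 := by
      intro i
      by_cases hi : i ∈ R
      · by_cases hz : z2 (c i) = true
        · simp [hi, hz]; norm_num
        · simp [hi, hz]
      · simp [hi]; norm_num
    rw [Finset.prod_congr rfl fun i _ => h4 i, Finset.prod_mul_distrib, Finset.prod_const,
      Finset.card_univ, Finset.prod_ite_mem, Finset.univ_inter]
  simp only at h1 ⊢
  rw [Finset.sum_congr rfl fun z2 _ => h1 z2, ← Finset.mul_sum]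
  have h5 : ∀ z2 : I → Bool, ∏ i ∈ R, (if z2 (c i) then (1 : ℝ) else 1 / 2) =
      ∏ i, if i ∈ R.image c then (if z2 i then (1 : ℝ) else 1 / 2) else 1 := by
    intro z2
    rw [Finset.prod_ite_mem, Finset.univ_inter, Finset.prod_image hc]
  rw [Finset.sum_congr rfl fun z2 _ => h5 z2]
  have h6 := sum_prod_bits (I := I) (fun i b => if i ∈ R.image c then
    (if b then (1 : ℝ) else 1 / 2) else 1)
  rw [h6]
  have h7 : ∀ i : I, ((if i ∈ R.image c then (if true = true then (1 : ℝ) else 1 / 2) else 1) +
      (if i ∈ R.image c then (if false = true then (1 : ℝ) else 1 / 2) else 1)) =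
      2 * if i ∈ R.image c then 3 / 4 else 1 := by
    intro i
    by_cases hi : i ∈ R.image c <;> simp only [hi, if_true, if_false] <;> norm_num
  rw [Finset.prod_congr rfl fun i _ => h7 i, Finset.prod_mul_distrib, Finset.prod_const,
      Finset.card_univ, Finset.prod_ite_mem, Finset.univ_inter, Finset.prod_const,
      Finset.card_image_of_injOn hc]
  apply le_of_eq
  field_simp

end Pool.Agent.Helper72K9.EIC
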