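import Pool.Agent.Helper72K9.EIC.Core1

/-!
# Divergences of the posterior of Bob's input given Alice's input
-/

set_option autoImplicit false
set_option linter.unusedSectionVars false

namespace Pool.Agent.Helper72K9.EIC

open Finset Real

variable {I : Type} [Fintype I] [DecidableEq I]

theorem U_nonneg {g : Tab I → ℝ} (h : ∀ z, 0 ≤ g z) : 0 ≤ U g :=
  mul_nonneg (Finset.sum_nonneg fun z _ => h z) P0_pos.le

theorem U_add (g g' : Tab I → ℝ) : U (fun z => g z + g' z) = U g + U g' := by
  unfold U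
  rw [Finset.sum_add_distrib, add_mul]

theorem U_sub (g g' : Tab I → ℝ) : U (fun z => g z - g' z) = U g - U g' := by
  unfold U
  rw [Finset.sum_sub_distrib, sub_mul]

theorem U_smul (c : ℝ) (g : Tab I → ℝ) : U (fun z => c * g z) = c * U g := by
  unfold U
  rw [← Finset.mul_sum, mul_assoc]

theorem U_sum {ι : Type} (t : Finset ι) (g : ι → Tab I → ℝ) :
    U (fun z => ∑ i ∈ t, g i z) = ∑ i ∈ t, U (g i) := by
  unfold U
  rw [Finset.sum_comm, Finset.sum_mul]

theorem U_equiv (e : Tab I ≃ Tab I) (g : Tab I → ℝ) : U (fun z => g (e z)) = U g := by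
  unfold U
  rw [Equiv.sum_comp e g]

/-- flip the entry `j` of the second table -/
def flip2 (j : I) : Tab I ≃ Tab I where
  toFun z := (z.1, Function.update z.2 j (!z.2 j))
  invFun z := (z.1, Function.update z.2 j (!z.2 j))
  left_inv z := by simp
  right_inv z := by simp

theorem flip2_apply (j : I) (z : Tab I) :
    flip2 j z = (z.1, Function.update z.2 j (!z.2 j)) := rfl

/-- For a function that does not depend on the entry `j` of the second table, the event
`z.1 i ≠ z.2 j` has conditional probability one half. -/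
theorem U_xor (i j : I) (g : Tab I → ℝ) (hg : ∀ z, g (flip2 j z) = g z) :
    U (fun z => if z.1 i ≠ z.2 j then g z else 0) = U g / 2 := by
  have h1 := U_equiv (flip2 j) (fun z => if z.1 i ≠ z.2 j then g z else 0)
  have h2 : (fun z => (fun z : Tab I => if z.1 i ≠ z.2 j then g z else 0) (flip2 j z)) =
      fun z : Tab I => if z.1 i = z.2 j then g z else 0 := by
    funext z
    have e1 : (flip2 j z).1 i = z.1 i := rfl
    have e2 : (flip2 j z).2 j = !z.2 j := by simp [flip2_apply]
    simp only [hg, e1, e2]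
    by_cases h : z.1 i = z.2 j
    · have h' : z.1 i ≠ !z.2 j := by rw [h]; cases z.2 j <;> decide
      rw [if_pos h', if_pos h]
    · have h' : ¬ z.1 i ≠ !z.2 j := by
        cases hz1 : z.1 i <;> cases hz2 : z.2 j <;> simp_all
      rw [if_neg h', if_neg h]
  rw [h2] at h1
  have h3 : U g = U (fun z => if z.1 i = z.2 j then g z else 0) +
      U (fun z => if z.1 i ≠ z.2 j then g z else 0) := by
    rw [← U_add]
    congr 1
    funext z
    by_cases h : z.1 i = z.2 j <;> simp [h]
  linarith

/-- the density of Bob's input on the two classes: `s' = s`, the first index valid and the second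
not, or `s' = s + 1`, the second index valid and the first not -/
noncomputable def hh (f : ZMod 5 → Tab I → ℝ) (x : I × I) (s : ZMod 5) (z : Tab I) : ℝ :=
  if z.1 x.1 = true ∧ z.2 x.2 = false then f s z
  else if z.1 x.1 = false ∧ z.2 x.2 = true then f (s + 1) z else 0

noncomputable def al (f : ZMod 5 → Tab I → ℝ) (x : I × I) (s : ZMod 5) : ℝ :=
  4 * U (fun z => if z.1 x.1 = true ∧ z.2 x.2 = false then f s z else 0)

noncomputable def ga (f : ZMod 5 → Tab I → ℝ) (x : I × I) (s : ZMod 5) : ℝ :=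
  4 * U (fun z => if z.1 x.1 = false ∧ z.2 x.2 = true then f s z else 0)

noncomputable def om (f : ZMod 5 → Tab I → ℝ) (x : I × I) (s : ZMod 5) : ℝ :=
  4 * U (fun z => if z.1 x.1 = true ∧ z.2 x.2 = true then f s z else 0)

noncomputable def Wf (f : ZMod 5 → Tab I → ℝ) (x : I × I) (s : ZMod 5) : ℝ := 2 * U (hh f x s)

noncomputable def Wo (f : ZMod 5 → Tab I → ℝ) (x : I × I) (s : ZMod 5) : ℝ :=
  (om f x s + om f x (s + 1)) / 2

noncomputable def Wm (f : ZMod 5 → Tab I → ℝ) (x : I × I) (s : ZMod 5) : ℝ :=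
  (al f x (s - 1) + ga f x (s + 2)) / 2

/-- expectation with respect to the posterior -/
noncomputable def Eq' (f : ZMod 5 → Tab I → ℝ) (x : I × I) (s : ZMod 5) (φ : Tab I → ℝ) : ℝ :=
  2 * U (fun z => hh f x s z * φ z) / Wf f x s

noncomputable def Df (f : ZMod 5 → Tab I → ℝ) (x : I × I) (s : ZMod 5) : ℝ :=
  2 * U (fun z => hh f x s z * log (hh f x s z)) / Wf f x s - log (Wf f x s)

variable {f : ZMod 5 → Tab I → ℝ} {x : I × I} {s : ZMod 5}

theorem Wf_eq : Wf f x s = (al f x s + ga f x (s + 1)) / 2 := by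
  unfold Wf al ga
  rw [show (4 * U (fun z => if z.1 x.1 = true ∧ z.2 x.2 = false then f s z else 0) +
    4 * U (fun z => if z.1 x.1 = false ∧ z.2 x.2 = true then f (s + 1) z else 0)) / 2 =
    2 * (U (fun z => if z.1 x.1 = true ∧ z.2 x.2 = false then f s z else 0) +
    U (fun z => if z.1 x.1 = false ∧ z.2 x.2 = true then f (s + 1) z else 0)) by ring, ← U_add]
  congr 2
  funext z
  unfold hh
  by_cases h1 : z.1 x.1 = true ∧ z.2 x.2 = false
  · have h2 : ¬ (z.1 x.1 = false ∧ z.2 x.2 = true) := by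
      rintro ⟨h3, -⟩
      rw [h1.1] at h3
      exact absurd h3 (by decide)
    rw [if_pos h1, if_pos h1, if_neg h2, add_zero]
  · rw [if_neg h1, if_neg h1, zero_add]

section

variable (hf : ∀ s z, 0 ≤ f s z)
include hf

theorem hh_nonneg (z : Tab I) : 0 ≤ hh f x s z := by
  unfold hh
  split_ifs
  · exact hf _ _
  · exact hf _ _
  · exact le_rfl

theorem al_nonneg : 0 ≤ al f x s := by
  unfold al
  refine mul_nonneg (by norm_num) (U_nonneg fun z => ?_)
  split_ifs
  · exact hf _ _
  · exact le_rfl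

theorem ga_nonneg : 0 ≤ ga f x s := by
  unfold ga
  refine mul_nonneg (by norm_num) (U_nonneg fun z => ?_)
  split_ifs
  · exact hf _ _
  · exact le_rfl

theorem om_nonneg : 0 ≤ om f x s := by
  unfold om
  refine mul_nonneg (by norm_num) (U_nonneg fun z => ?_)
  split_ifs
  · exact hf _ _
  · exact le_rfl

theorem Wf_nonneg : 0 ≤ Wf f x s := mul_nonneg (by norm_num) (U_nonneg (hh_nonneg hf))

theorem Wo_nonneg : 0 ≤ Wo f x s := by
  unfold Wo
  have := om_nonneg (x := x) (s := s) hf
  have := om_nonneg (x := x) (s := s + 1) hf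
  positivity

theorem Wm_nonneg : 0 ≤ Wm f x s := by
  unfold Wm
  have := al_nonneg (x := x) (s := s - 1) hf
  have := ga_nonneg (x := x) (s := s + 2) hf
  positivity

/-- the variational lower bound for the divergence -/
theorem DVx (hW : 0 < Wf f x s) (φ : Tab I → ℝ) (B : ℝ)
    (hB : 2 * U (fun z => if hh f x s z ≠ 0 then exp (φ z) else 0) ≤ B) :
    Eq' f x s φ - log B ≤ Df f x s := by
  have h := dv (Finset.univ : Finset (Tab I)) (fun _ => 2 * P0 I) (hh f x s) φ
    (fun _ _ => by have := P0_pos (I := I); positivity) (fun z _ => hh_nonneg hf z)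
    (Wf f x s) (by rw [← Finset.mul_sum]; unfold Wf U; ring) hW B ?_
  · unfold Eq' Df U
    have h1 : ∀ g : Tab I → ℝ, ∑ z, 2 * P0 I * g z = 2 * ((∑ z, g z) * P0 I) := by
      intro g; rw [← Finset.mul_sum]; ring
    have h2 : ∑ z : Tab I, 2 * P0 I * hh f x s z * φ z =
        2 * ((∑ z, hh f x s z * φ z) * P0 I) := by
      rw [← h1]
      exact Finset.sum_congr rfl fun z _ => by ring
    rw [h1, h2] at h
    exact h
  · refine le_trans (le_of_eq ?_) hB
    unfold U
    rw [Finset.sum_filter, mul_comm (∑ z : Tab I, _) (P0 I), ← mul_assoc, Finset.mul_sum]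
    refine Finset.sum_congr rfl fun z _ => ?_
    by_cases h0 : hh f x s z = 0 <;> simp [h0]

theorem Eq_one (hW : 0 < Wf f x s) : Eq' f x s (fun _ => 1) = 1 := by
  unfold Eq'
  simp only [mul_one]
  rw [show 2 * U (fun z => hh f x s z) = Wf f x s from rfl]
  exact div_self hW.ne'

theorem Eq_mono {φ φ' : Tab I → ℝ} (hW : 0 < Wf f x s)
    (h : ∀ z, hh f x s z ≠ 0 → φ z ≤ φ' z) : Eq' f x s φ ≤ Eq' f x s φ' := by
  unfold Eq'
  refine div_le_div_of_nonneg_right ?_ hW.le
  refine mul_le_mul_of_nonneg_left (U_mono fun z => ?_) (by norm_num)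
  by_cases h0 : hh f x s z = 0
  · simp [h0]
  · exact mul_le_mul_of_nonneg_left (h z h0) (hh_nonneg hf z)

end

theorem Eq_add (φ φ' : Tab I → ℝ) :
    Eq' f x s (fun z => φ z + φ' z) = Eq' f x s φ + Eq' f x s φ' := by
  unfold Eq'
  rw [← add_div, ← mul_add, ← U_add]
  congr 3
  funext z
  ring

theorem Eq_sub (φ φ' : Tab I → ℝ) :
    Eq' f x s (fun z => φ z - φ' z) = Eq' f x s φ - Eq' f x s φ' := by
  unfold Eq'
  rw [← sub_div, ← mul_sub, ← U_sub]
  congr 3
  funext z
  ring

theorem Eq_smul (c : ℝ) (φ : Tab I → ℝ) :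
    Eq' f x s (fun z => c * φ z) = c * Eq' f x s φ := by
  unfold Eq'
  have h : U (fun z => hh f x s z * (c * φ z)) = c * U (fun z => hh f x s z * φ z) := by
    rw [← U_smul]
    congr 1
    funext z
    ring
  rw [h]
  ring

theorem Eq_sum {ι : Type} (t : Finset ι) (g : ι → Tab I → ℝ) :
    Eq' f x s (fun z => ∑ i ∈ t, g i z) = ∑ i ∈ t, Eq' f x s (g i) := by
  unfold Eq'
  rw [← Finset.sum_div, ← Finset.mul_sum, ← U_sum]
  congr 3
  funext z
  rw [Finset.mul_sum]

theorem hh_ne {z : Tab I} (h : hh f x s z ≠ 0) : z.1 x.1 ≠ z.2 x.2 := by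
  unfold hh at h
  split_ifs at h with h1 h2
  · rw [h1.1, h1.2]; decide
  · rw [h2.1, h2.2]; decide
  · exact absurd rfl h

theorem hh_supp {z : Tab I} (h : hh f x s z ≠ 0) : ∃ s', f s' z ≠ 0 := by
  unfold hh at h
  split_ifs at h with h1 h2
  · exact ⟨_, h⟩
  · exact ⟨_, h⟩
  · exact absurd rfl h

/-- the reference measure has total mass one -/
theorem U_class (x : I × I) : 2 * U (fun z : Tab I => if z.1 x.1 ≠ z.2 x.2 then (1 : ℝ) else 0) = 1 := by
  rw [U_xor x.1 x.2 (fun _ => 1) (fun _ => rfl), U_one]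
  norm_num

section

variable (hf : ∀ s z, 0 ≤ f s z)
include hf

theorem Df_nonneg (hW : 0 < Wf f x s) : 0 ≤ Df f x s := by
  have h := DVx hf hW (fun _ => 0) 1 ?_
  · unfold Eq' at h
    simp only [mul_zero, Real.log_one, sub_zero] at h
    have h0 : U (fun _ : Tab I => (0 : ℝ)) = 0 := by simp [U]
    rw [h0] at h
    simpa using h
  · rw [← U_class x]
    refine mul_le_mul_of_nonneg_left (U_mono fun z => ?_) (by norm_num)
    by_cases h0 : hh f x s z = 0
    · simp only [h0, ne_eq, not_true_eq_false, if_false]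
      split_ifs <;> norm_num
    · rw [if_pos h0, if_pos (hh_ne h0), Real.exp_zero]

/-- an event of small reference mass has small posterior probability -/
theorem event_bound (hW : 0 < Wf f x s) (E : Tab I → Prop) [DecidablePred E]
    (G : Tab I → Prop) [DecidablePred G] (hEG : ∀ z, hh f x s z ≠ 0 → E z → G z) (L : ℝ)
    (hG : U (fun z => if G z then (1 : ℝ) else 0) ≤ exp (-L) / 2) :
    L * Eq' f x s (fun z => if E z then 1 else 0) - log 2 ≤ Df f x s := by
  have h := DVx hf hW (fun z => L * (if E z then 1 else 0)) 2 ?_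
  · rw [Eq_smul] at h
    exact h
  · have h1 : U (fun z => if hh f x s z ≠ 0 then exp (L * (if E z then 1 else 0)) else 0) ≤
        U (fun z => (if z.1 x.1 ≠ z.2 x.2 then (1 : ℝ) else 0) +
          exp L * (if G z then (1 : ℝ) else 0)) := by
      refine U_mono fun z => ?_
      have e0 : 0 < exp L := exp_pos _
      by_cases h0 : hh f x s z = 0
      · simp only [h0, ne_eq, not_true_eq_false, if_false]
        refine add_nonneg ?_ (mul_nonneg e0.le ?_) <;> split_ifs <;> norm_num
      · rw [if_pos h0, if_pos (hh_ne h0)]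
        by_cases hE : E z
        · rw [if_pos hE, if_pos (hEG z h0 hE)]
          simp
        · rw [if_neg hE]
          simp only [mul_zero, Real.exp_zero]
          have : 0 ≤ exp L * (if G z then (1 : ℝ) else 0) :=
            mul_nonneg e0.le (by split_ifs <;> norm_num)
          linarith
    rw [U_add, U_smul] at h1
    have h2 := U_class x
    have h3 : exp L * U (fun z => if G z then (1 : ℝ) else 0) ≤ exp L * (exp (-L) / 2) :=
      mul_le_mul_of_nonneg_left hG (exp_pos _).le
    have h4 : exp L * (exp (-L) / 2) = 1 / 2 := by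
      rw [← mul_div_assoc, ← Real.exp_add]
      simp
    rw [h4] at h3
    linarith

end

end Pool.Agent.Helper72K9.EIC
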