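import Pool.Agent.Helper72K9.EIC.Core2

/-!
# Heavy rows and columns
-/

set_option autoImplicit false
set_option linter.unusedSectionVars false

namespace Pool.Agent.Helper72K9.EIC

open Finset Real

variable {I : Type} [Fintype I] [DecidableEq I]

def row (A : Finset (I × I)) (i : I) : Finset I := Finset.univ.filter fun j => (i, j) ∈ A

def col (A : Finset (I × I)) (j : I) : Finset I := Finset.univ.filter fun i => (i, j) ∈ A

def H0 (A : Finset (I × I)) (T : ℕ) : Finset I := Finset.univ.filter fun i => T ≤ (row A i).card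

def H1 (A : Finset (I × I)) (T : ℕ) : Finset I := Finset.univ.filter fun j => T ≤ (col A j).card

/-- all elements of `A` are valid for all pairs of tables in the support of `f` -/
def Compat (f : ZMod 5 → Tab I → ℝ) (A : Finset (I × I)) : Prop :=
  ∀ x ∈ A, ∀ s z, f s z ≠ 0 → z.1 x.1 = true ∨ z.2 x.2 = true

theorem U_all_true' (B : Finset I) :
    U (fun z : Tab I => if ∀ j ∈ B, z.1 j = true then (1 : ℝ) else 0) = (1 / 2) ^ B.card := by
  rw [← U_all_true B, ← U_equiv (Equiv.prodComm (I → Bool) (I → Bool))]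
  rfl

theorem half_pow_le {T n : ℕ} (hT : 1 ≤ T) (h : T ≤ n) :
    ((1 : ℝ) / 2) ^ n ≤ exp (-(((T : ℝ) - 1) * log 2)) / 2 := by
  have h1 : ((1 : ℝ) / 2) ^ n ≤ (1 / 2) ^ T :=
    pow_le_pow_of_le_one (by norm_num) (by norm_num) h
  refine h1.trans (le_of_eq ?_)
  have h2 : ((1 : ℝ) / 2) ^ T = (1 / 2) ^ (T - 1) * (1 / 2) := by
    rw [← pow_succ, Nat.sub_add_cancel hT]
  have h3 : exp (-(((T : ℝ) - 1) * log 2)) = (1 / 2) ^ (T - 1) := by
    have h4 : ((T : ℝ) - 1) = ((T - 1 : ℕ) : ℝ) := by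
      rw [Nat.cast_sub hT]; simp
    rw [h4, ← mul_neg, Real.exp_nat_mul, Real.exp_neg, Real.exp_log (by norm_num)]
    norm_num
  rw [h2, h3]
  ring

variable {f : ZMod 5 → Tab I → ℝ} {A : Finset (I × I)} {x : I × I} {s : ZMod 5}

section

variable (hf : ∀ s z, 0 ≤ f s z) (hA : Compat f A)
include hf hA

theorem row_bound {T : ℕ} (hT : 1 ≤ T) (hW : 0 < Wf f x s) {i : I} (hi : i ∈ H0 A T) :
    ((T : ℝ) - 1) * log 2 * Eq' f x s (fun z => if z.1 i = false then 1 else 0) - log 2 ≤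
      Df f x s := by
  refine event_bound hf hW (fun z => z.1 i = false) (fun z => ∀ j ∈ row A i, z.2 j = true) ?_
    (((T : ℝ) - 1) * log 2) ?_
  · intro z hz h1 j hj
    obtain ⟨s', hs'⟩ := hh_supp hz
    have h2 := hA (i, j) (by simpa [row] using hj) s' z hs'
    rcases h2 with h2 | h2
    · simp only at h2 h1; rw [h1] at h2; exact absurd h2 (by decide)
    · exact h2
  · rw [U_all_true]
    exact half_pow_le hT (by simpa [H0] using hi)

theorem col_bound {T : ℕ} (hT : 1 ≤ T) (hW : 0 < Wf f x s) {j : I} (hj : j ∈ H1 A T) :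
    ((T : ℝ) - 1) * log 2 * Eq' f x s (fun z => if z.2 j = false then 1 else 0) - log 2 ≤
      Df f x s := by
  refine event_bound hf hW (fun z => z.2 j = false) (fun z => ∀ i ∈ col A j, z.1 i = true) ?_
    (((T : ℝ) - 1) * log 2) ?_
  · intro z hz h1 i hi
    obtain ⟨s', hs'⟩ := hh_supp hz
    have h2 := hA (i, j) (by simpa [col] using hi) s' z hs'
    rcases h2 with h2 | h2
    · exact h2
    · simp only at h2 h1; rw [h1] at h2; exact absurd h2 (by decide)
  · rw [U_all_true']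
    exact half_pow_le hT (by simpa [H1] using hj)

end

/-- the number of valid entries among the heavy rows and columns -/
noncomputable def Nf (A : Finset (I × I)) (T : ℕ) (z : Tab I) : ℝ :=
  (∑ i ∈ H0 A T, if z.1 i then (1 : ℝ) else 0) + ∑ j ∈ H1 A T, if z.2 j then (1 : ℝ) else 0

theorem Eq_compl (hf : ∀ s z, 0 ≤ f s z) (hW : 0 < Wf f x s) (b : Tab I → Bool) :
    Eq' f x s (fun z => if b z then (1 : ℝ) else 0) =
      1 - Eq' f x s (fun z => if b z = false then 1 else 0) := by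
  have h := Eq_one (x := x) (s := s) hf hW
  have e : (fun z => if b z then (1 : ℝ) else 0) =
      fun z => (fun _ => (1 : ℝ)) z - (fun z => if b z = false then (1 : ℝ) else 0) z := by
    funext z
    show (if b z then (1 : ℝ) else 0) = 1 - (if b z = false then (1 : ℝ) else 0)
    cases hb : b z <;> simp
  rw [e, Eq_sub, h]

theorem Eq_Nf (hf : ∀ s z, 0 ≤ f s z) (hW : 0 < Wf f x s) {T : ℕ} {ζ : ℝ}
    (h0 : ∀ i ∈ H0 A T, Eq' f x s (fun z => if z.1 i = false then 1 else 0) ≤ ζ)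
    (h1 : ∀ j ∈ H1 A T, Eq' f x s (fun z => if z.2 j = false then 1 else 0) ≤ ζ) :
    (((H0 A T).card + (H1 A T).card : ℕ) : ℝ) * (1 - ζ) ≤ Eq' f x s (Nf A T) := by
  unfold Nf
  rw [Eq_add, Eq_sum, Eq_sum]
  have e0 : ∑ i ∈ H0 A T, (1 - ζ) ≤ ∑ i ∈ H0 A T, Eq' f x s (fun z => if z.1 i then (1 : ℝ) else 0) := by
    refine Finset.sum_le_sum fun i hi => ?_
    rw [Eq_compl hf hW (fun z => z.1 i)]
    have := h0 i hi
    linarith
  have e1 : ∑ j ∈ H1 A T, (1 - ζ) ≤ ∑ j ∈ H1 A T, Eq' f x s (fun z => if z.2 j then (1 : ℝ) else 0) := by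
    refine Finset.sum_le_sum fun i hi => ?_
    rw [Eq_compl hf hW (fun z => z.2 i)]
    have := h1 i hi
    linarith
  rw [Finset.sum_const, nsmul_eq_mul] at e0 e1
  push_cast
  linarith

/-- lower bound of the divergence in terms of the number of heavy rows and columns -/
theorem Df_heavy (hf : ∀ s z, 0 ≤ f s z) (hW : 0 < Wf f x s) {T : ℕ} {ζ v : ℝ} (hv : 0 ≤ v)
    (h0 : ∀ i ∈ H0 A T, Eq' f x s (fun z => if z.1 i = false then 1 else 0) ≤ ζ)
    (h1 : ∀ j ∈ H1 A T, Eq' f x s (fun z => if z.2 j = false then 1 else 0) ≤ ζ)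
    (B : ℝ) (hB : 2 * U (fun z => if z.1 x.1 ≠ z.2 x.2 then exp (v * Nf A T z) else 0) ≤ B) :
    v * ((((H0 A T).card + (H1 A T).card : ℕ) : ℝ) * (1 - ζ)) - log B ≤ Df f x s := by
  have h2 := Eq_Nf hf hW h0 h1
  have h3 := DVx hf hW (fun z => v * Nf A T z) B ?_
  · rw [Eq_smul] at h3
    have := mul_le_mul_of_nonneg_left h2 hv
    have e : Eq' f x s (fun z => Nf A T z) = Eq' f x s (Nf A T) := rfl
    rw [e] at h3
    linarith
  · refine le_trans ?_ hB
    refine mul_le_mul_of_nonneg_left (U_mono fun z => ?_) (by norm_num)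
    by_cases hz : hh f x s z = 0
    · simp only [hz, ne_eq, not_true_eq_false, if_false]
      split_ifs
      · exact le_rfl
      · exact (exp_pos _).le
    · rw [if_pos hz, if_pos (hh_ne hz)]

theorem U_expN (T : ℕ) (v : ℝ) : U (fun z : Tab I => exp (v * Nf A T z)) =
    ((1 + exp v) / 2) ^ ((H0 A T).card + (H1 A T).card) := by
  have h := U_exp_count (H0 A T) (H1 A T) v
  exact h

theorem U_expN_gen (T : ℕ) (v : ℝ) (x : I × I) :
    2 * U (fun z => if z.1 x.1 ≠ z.2 x.2 then exp (v * Nf A T z) else 0) ≤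
      2 * ((1 + exp v) / 2) ^ ((H0 A T).card + (H1 A T).card) := by
  rw [← U_expN]
  refine mul_le_mul_of_nonneg_left (U_mono fun z => ?_) (by norm_num)
  split_ifs
  · exact le_rfl
  · exact (exp_pos _).le

theorem U_expN_row (T : ℕ) (v : ℝ) (x : I × I) (hx : x.2 ∉ H1 A T) :
    2 * U (fun z => if z.1 x.1 ≠ z.2 x.2 then exp (v * Nf A T z) else 0) ≤
      ((1 + exp v) / 2) ^ ((H0 A T).card + (H1 A T).card) := by
  rw [U_xor x.1 x.2 (fun z => exp (v * Nf A T z)), U_expN]
  · linarith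
  · intro z
    unfold Nf
    have e1 : (flip2 x.2 z).1 = z.1 := rfl
    rw [e1]
    congr 3
    refine Finset.sum_congr rfl fun j hj => ?_
    have hne : j ≠ x.2 := fun h => hx (h ▸ hj)
    have e2 : (flip2 x.2 z).2 j = z.2 j := by
      rw [flip2_apply]
      simp [Function.update_of_ne hne]
    rw [e2]

theorem log_half_le {v : ℝ} : log ((1 + exp v) / 2) ≤ v + exp (-v) - log 2 := by
  have h1 : (1 + exp v) / 2 = exp v * (1 + exp (-v)) / 2 := by
    rw [mul_add, ← Real.exp_add]; simp; ring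
  rw [h1, Real.log_div (by positivity) (by norm_num), Real.log_mul (by positivity) (by positivity),
    Real.log_exp]
  have h2 := Real.log_le_sub_one_of_pos (x := 1 + exp (-v)) (by positivity)
  linarith

end Pool.Agent.Helper72K9.EIC
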