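import Pool.Agent.Helper72K9.EIC.Core3

/-!
# Few biased coordinates, and pairs of adjacent values of `s`
-/

set_option autoImplicit false
set_option linter.unusedSectionVars false

namespace Pool.Agent.Helper72K9.EIC

open Finset Real

variable {I : Type} [Fintype I] [DecidableEq I]
variable {f : ZMod 5 → Tab I → ℝ} {A : Finset (I × I)} {x : I × I} {s : ZMod 5}

theorem U_cauchy (g N : Tab I → ℝ) (hg : ∀ z, 0 ≤ g z) :
    U (fun z => g z * N z) ^ 2 ≤ U g * U (fun z => g z * N z ^ 2) := by
  unfold U
  have h := Finset.sum_sq_le_sum_mul_sum_of_sq_le_mul (Finset.univ : Finset (Tab I))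
    (r := fun z => g z * N z) (f := g) (g := fun z => g z * N z ^ 2)
    (fun z _ => hg z) (fun z _ => mul_nonneg (hg z) (sq_nonneg _)) (fun z _ => le_of_eq (by ring))
  have h2 : 0 ≤ P0 I ^ 2 := sq_nonneg _
  nlinarith [mul_le_mul_of_nonneg_right h h2]

theorem bias (hf : ∀ s z, 0 ≤ f s z) (i : I) (J : Finset I) {Dm ξ : ℝ} (hD : 0 ≤ Dm)
    (hξ : 0 < ξ) (hξ1 : ξ ≤ 1)
    (hJ : ∀ j ∈ J, 0 < Wf f (i, j) s ∧ Df f (i, j) s ≤ Dm ∧
      Eq' f (i, j) s (fun z => if z.1 i = false then 1 else 0) ≤ 1 / 2 ∧
      om f (i, j) s < (1 - ξ) * al f (i, j) s) :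
    (J.card : ℝ) * ξ ^ 2 / 32 ≤ Dm + log 3 := by
  classical
  have hlog3 : 0 ≤ log 3 := Real.log_nonneg (by norm_num)
  rcases J.eq_empty_or_nonempty with h0 | hne
  · rw [h0]; simp; linarith
  set g : Tab I → ℝ := fun z => if z.1 i = true then f s z else 0 with hg
  have hg0 : ∀ z, 0 ≤ g z := by
    intro z; simp only [hg]; split_ifs
    · exact hf _ _
    · exact le_rfl
  set χ : I → Tab I → ℝ := fun j z => if z.2 j = false then 1 else 0 with hχ
  set N : Tab I → ℝ := fun z => ∑ j ∈ J, χ j z with hN
  set a : I → ℝ := fun j => U (fun z => g z * χ j z) with ha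
  set G := U g with hG
  have e_al : ∀ j, al f (i, j) s = 4 * a j := by
    intro j
    unfold al
    simp only [ha, hg, hχ]
    congr 2
    funext z
    by_cases h1 : z.1 i = true <;> by_cases h2 : z.2 j = false <;> simp [h1, h2]
  have e_om : ∀ j, om f (i, j) s = 4 * (G - a j) := by
    intro j
    unfold om
    simp only [ha, hG]
    rw [← U_sub]
    congr 2
    funext z
    simp only [hg, hχ]
    by_cases h1 : z.1 i = true <;> by_cases h2 : z.2 j = true <;> simp [h1, h2]
  have hbias : ∀ j ∈ J, G < (2 - ξ) * a j := by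
    intro j hj
    have h := (hJ j hj).2.2.2
    rw [e_al, e_om] at h
    linarith
  have ha0 : ∀ j, 0 ≤ a j := by
    intro j
    refine U_nonneg fun z => mul_nonneg (hg0 z) ?_
    simp only [hχ]; split_ifs <;> norm_num
  have hG0 : 0 ≤ G := U_nonneg hg0
  obtain ⟨j0, hj0⟩ := hne
  have hapos : ∀ j ∈ J, 0 < a j := by
    intro j hj
    have h := hbias j hj
    rcases (ha0 j).lt_or_eq with h1 | h1
    · exact h1
    · rw [← h1] at h; linarith
  have hGpos : 0 < G := by
    have h1 : a j0 ≤ G := by
      refine U_mono fun z => ?_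
      have := hg0 z
      simp only [hχ]; split_ifs <;> linarith
    exact (hapos j0 hj0).trans_le h1
  have e_gN : U (fun z => g z * N z) = ∑ j ∈ J, a j := by
    simp only [ha]
    rw [← U_sum]
    congr 1
    funext z
    simp only [hN, Finset.mul_sum]
  have e_gN2 : U (fun z => g z * N z ^ 2) = ∑ j ∈ J, U (fun z => g z * χ j z * N z) := by
    rw [← U_sum]
    congr 1
    funext z
    rw [← Finset.sum_mul, ← Finset.mul_sum]
    simp only [hN]
    ring
  have hca := U_cauchy g N hg0
  rw [← hG] at hca
  have hsum : ∑ j ∈ J, U (fun z => g z * N z) * a j ≤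
      ∑ j ∈ J, G * U (fun z => g z * χ j z * N z) := by
    rw [← Finset.mul_sum, ← Finset.mul_sum, ← e_gN2, ← e_gN]
    nlinarith
  obtain ⟨j, hj, hjle⟩ := Finset.exists_le_of_sum_le ⟨j0, hj0⟩ hsum
  have hN1 : (J.card : ℝ) * G ≤ (2 - ξ) * U (fun z => g z * N z) := by
    rw [e_gN, Finset.mul_sum]
    calc (J.card : ℝ) * G = ∑ j ∈ J, G := by rw [Finset.sum_const, nsmul_eq_mul]
      _ ≤ ∑ j ∈ J, (2 - ξ) * a j := Finset.sum_le_sum fun j hj => (hbias j hj).le
  -- the conditional expectation of `N` given the entry `j`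
  have hN2 : (J.card : ℝ) * a j ≤ (2 - ξ) * U (fun z => g z * χ j z * N z) := by
    have h1 : (J.card : ℝ) * G * a j ≤ (2 - ξ) * U (fun z => g z * N z) * a j :=
      mul_le_mul_of_nonneg_right hN1 (ha0 j)
    have h2 : (2 - ξ) * (U (fun z => g z * N z) * a j) ≤
        (2 - ξ) * (G * U (fun z => g z * χ j z * N z)) :=
      mul_le_mul_of_nonneg_left hjle (by linarith)
    have h3 : G * ((J.card : ℝ) * a j) ≤ G * ((2 - ξ) * U (fun z => g z * χ j z * N z)) := by
      nlinarith
    exact le_of_mul_le_mul_left h3 hGpos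
  obtain ⟨hW, hDj, hη, -⟩ := hJ j hj
  set W := Wf f (i, j) s with hWdef
  set θ := ξ / 4 with hθ
  have hθ0 : 0 < θ := by positivity
  have hhg : ∀ z : Tab I, hh f (i, j) s z * (if z.1 i = true then 1 else 0) = g z * χ j z := by
    intro z
    simp only [hh, hg, hχ]
    by_cases h1 : z.1 i = true <;> by_cases h2 : z.2 j = false <;> simp [h1, h2]
  have hη2 : 1 / 2 ≤ 2 * a j / W := by
    have h1 := Eq_compl (x := (i, j)) (s := s) hf hW (fun z => z.1 i)
    have h2 : Eq' f (i, j) s (fun z => if z.1 i = true then (1 : ℝ) else 0) = 2 * a j / W := by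
      unfold Eq'
      simp only [hhg, ha]
      rfl
    rw [← h2, h1]
    linarith
  have h := DVx (x := (i, j)) (s := s) hf hW
    (fun z => (if z.1 i = true then 1 else 0) * (θ * (2 * N z - J.card)))
    (3 * exp (θ ^ 2 / 2 * J.card)) ?_
  · have e1 : Eq' f (i, j) s (fun z => (if z.1 i = true then 1 else 0) *
        (θ * (2 * N z - J.card))) =
        θ * (2 * (2 * U (fun z => g z * χ j z * N z) - J.card * a j)) / W := by
      unfold Eq'
      have e2 : (fun z => hh f (i, j) s z * ((if z.1 i = true then 1 else 0) *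
          (θ * (2 * N z - J.card)))) =
          fun z => θ * (2 * (g z * χ j z * N z) - J.card * (g z * χ j z)) := by
        funext z
        rw [← mul_assoc, hhg]
        ring
      rw [e2, U_smul, U_sub, U_smul, U_smul]
      rw [← hWdef]
      simp only [ha]
      ring
    have e3 : θ * (J.card * ξ) / 4 ≤ θ * (2 * (2 * U (fun z => g z * χ j z * N z) -
        J.card * a j)) / W := by
      have h4 : J.card * a j * ξ / 2 ≤ 2 * U (fun z => g z * χ j z * N z) - J.card * a j := by
        have h5 : 0 ≤ (J.card : ℝ) * a j := mul_nonneg (Nat.cast_nonneg _) (ha0 j)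
        have h6 : 0 ≤ U (fun z => g z * χ j z * N z) := by
          refine U_nonneg fun z => mul_nonneg (mul_nonneg (hg0 z) ?_) ?_
          · simp only [hχ]; split_ifs <;> norm_num
          · simp only [hN]
            refine Finset.sum_nonneg fun j _ => ?_
            simp only [hχ]; split_ifs <;> norm_num
        have h61 : (J.card : ℝ) * a j ≤ 2 * U (fun z => g z * χ j z * N z) := by nlinarith
        have h62 := mul_le_mul_of_nonneg_left h61 hξ.le
        linarith
      have h7 : θ * (2 * (J.card * a j * ξ / 2)) / W ≤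
          θ * (2 * (2 * U (fun z => g z * χ j z * N z) - J.card * a j)) / W := by
        refine div_le_div_of_nonneg_right ?_ hW.le
        refine mul_le_mul_of_nonneg_left ?_ hθ0.le
        linarith
      have h8 : θ * (J.card * ξ) / 4 ≤ θ * (2 * (J.card * a j * ξ / 2)) / W := by
        have h9 : θ * (2 * (J.card * a j * ξ / 2)) / W =
            θ * (J.card * ξ) / 2 * (2 * a j / W) := by ring
        rw [h9]
        have h10 : 0 ≤ θ * (J.card * ξ) / 2 := by positivity
        nlinarith [mul_le_mul_of_nonneg_left hη2 h10]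
      exact h8.trans h7
    rw [e1, Real.log_mul (by norm_num) (exp_pos _).ne', Real.log_exp] at h
    have h11 : θ * (J.card * ξ) / 4 - θ ^ 2 / 2 * J.card = J.card * ξ ^ 2 / 32 := by
      rw [hθ]; ring
    linarith
  · have hb : ∀ z : Tab I, (if hh f (i, j) s z ≠ 0 then
        exp ((if z.1 i = true then 1 else 0) * (θ * (2 * N z - J.card))) else 0) ≤
        exp (θ * ∑ j ∈ J, if z.2 j then (-1 : ℝ) else 1) +
          (if z.1 (i, j).1 ≠ z.2 (i, j).2 then (1 : ℝ) else 0) := by
      intro z
      have e0 := exp_pos (θ * ∑ j ∈ J, if z.2 j then (-1 : ℝ) else 1)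
      by_cases hz : hh f (i, j) s z = 0
      · simp only [hz, ne_eq, not_true_eq_false, if_false]
        refine add_nonneg e0.le ?_
        split_ifs <;> norm_num
      · rw [if_pos hz, if_pos (hh_ne hz)]
        by_cases h1 : z.1 i = true
        · have e2 : 2 * N z - J.card = ∑ j ∈ J, if z.2 j then (-1 : ℝ) else 1 := by
            simp only [hN, hχ]
            rw [Finset.mul_sum, Finset.card_eq_sum_ones]
            push_cast
            rw [← Finset.sum_sub_distrib]
            refine Finset.sum_congr rfl fun k _ => ?_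
            cases z.2 k <;> norm_num
          rw [if_pos h1, one_mul, e2]
          linarith
        · rw [if_neg h1, zero_mul, Real.exp_zero]
          linarith
    have h1 := U_mono hb
    rw [U_add] at h1
    have h2 := U_class (i, j)
    have h3 := U_exp_sign J θ
    have h4 : 1 ≤ exp (θ ^ 2 / 2 * J.card) := Real.one_le_exp (by positivity)
    linarith

end Pool.Agent.Helper72K9.EIC
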