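import Pool.Agent.Helper72K9.EIC.Core4

/-!
# The sum over the heavy rows
-/

set_option autoImplicit false
set_option linter.unusedSectionVars false

namespace Pool.Agent.Helper72K9.EIC

open Finset Real

variable {I : Type} [Fintype I] [DecidableEq I]
variable {f : ZMod 5 → Tab I → ℝ} {A : Finset (I × I)} {x : I × I} {s : ZMod 5}

noncomputable def Ef (v v2 : ℝ) (f : ZMod 5 → Tab I → ℝ) (x : I × I) (s : ZMod 5) : ℝ :=
  v * (Wo f x s / Wf f x s - 1) + v2 * (Wm f x s / Wf f x s)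

/-- the term of the pair `(x, s)` -/
noncomputable def Sf (v v2 : ℝ) (f : ZMod 5 → Tab I → ℝ) (x : I × I) (s : ZMod 5) : ℝ :=
  if Wf f x s = 0 then 0 else exp (- Df f x s - Ef v v2 f x s)

open Classical in
/-- the term of the pair `(x, s)` if the divergence is at most `Dm` -/
noncomputable def Sg (v v2 Dm : ℝ) (f : ZMod 5 → Tab I → ℝ) (x : I × I) (s : ZMod 5) : ℝ :=
  if 0 < Wf f x s ∧ Df f x s ≤ Dm then Sf v v2 f x s else 0

theorem Ef_ge (hf : ∀ s z, 0 ≤ f s z) {v v2 : ℝ} (hv : 0 ≤ v) (hv2 : 0 ≤ v2)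
    (hW : 0 < Wf f x s) : -v ≤ Ef v v2 f x s := by
  unfold Ef
  have h1 : 0 ≤ Wo f x s / Wf f x s := div_nonneg (Wo_nonneg hf) hW.le
  have h2 : 0 ≤ v2 * (Wm f x s / Wf f x s) := mul_nonneg hv2 (div_nonneg (Wm_nonneg hf) hW.le)
  nlinarith [mul_nonneg hv h1]

theorem al_lower (hf : ∀ s z, 0 ≤ f s z) {ζ : ℝ} (hW : 0 < Wf f x s)
    (h : Eq' f x s (fun z => if z.1 x.1 = false then 1 else 0) ≤ ζ) :
    2 * Wf f x s * (1 - ζ) ≤ al f x s := by
  have h1 := Eq_compl (x := x) (s := s) hf hW (fun z => z.1 x.1)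
  have h2 : Eq' f x s (fun z => if z.1 x.1 = true then (1 : ℝ) else 0) =
      al f x s / (2 * Wf f x s) := by
    unfold Eq' al
    have e : (fun z => hh f x s z * (if z.1 x.1 = true then (1 : ℝ) else 0)) =
        fun z => if z.1 x.1 = true ∧ z.2 x.2 = false then f s z else 0 := by
      funext z
      simp only [hh]
      by_cases h1 : z.1 x.1 = true <;> by_cases h2 : z.2 x.2 = false <;> simp [h1, h2]
    rw [e]
    field_simp
    ring
  rw [h2] at h1
  have h3 : 1 - ζ ≤ al f x s / (2 * Wf f x s) := by linarith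
  rw [le_div_iff₀ (by positivity)] at h3
  linarith

theorem Ef_lower (hf : ∀ s z, 0 ≤ f s z) {v v2 ζ ξ : ℝ} (hv : 0 ≤ v) (hv2 : 0 ≤ v2)
    (hζ0 : 0 ≤ ζ) (hζ : ζ < 1) (hξ0 : 0 ≤ ξ) (hW : 0 < Wf f x s)
    (h : Eq' f x s (fun z => if z.1 x.1 = false then 1 else 0) ≤ ζ)
    (hb : (1 - ξ) * al f x s ≤ om f x s) :
    -(v * (ξ + ζ)) + v * (1 - ζ) * (om f x (s + 1) / al f x s) +
      v2 * (1 - ζ) * (al f x (s - 1) / al f x s) ≤ Ef v v2 f x s := by
  have h1 := al_lower hf hW h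
  have hal : 0 < al f x s := by
    have : 0 < 2 * Wf f x s * (1 - ζ) := by
      have : 0 < 1 - ζ := by linarith
      positivity
    linarith
  have key : ∀ X : ℝ, 0 ≤ X → X * (2 * (1 - ζ) / al f x s) ≤ X / Wf f x s := by
    intro X hX
    rw [div_eq_mul_one_div X]
    refine mul_le_mul_of_nonneg_left ?_ hX
    rw [div_le_div_iff₀ hal hW]
    linarith
  have k1 := key (Wo f x s) (Wo_nonneg hf)
  have k2 := key (Wm f x s) (Wm_nonneg hf)
  have o1 := om_nonneg (x := x) (s := s + 1) hf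
  have g1 := ga_nonneg (x := x) (s := s + 2) hf
  have a1 := al_nonneg (x := x) (s := s - 1) hf
  have k1' : (1 - ζ) * (1 - ξ) + (1 - ζ) * (om f x (s + 1) / al f x s) ≤ Wo f x s / Wf f x s := by
    refine le_trans ?_ k1
    have e : Wo f x s * (2 * (1 - ζ) / al f x s) =
        (1 - ζ) * (om f x s / al f x s) + (1 - ζ) * (om f x (s + 1) / al f x s) := by
      unfold Wo; field_simp
    rw [e]
    have h5 : 1 - ξ ≤ om f x s / al f x s := by
      rw [le_div_iff₀ hal]; exact hb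
    have := mul_le_mul_of_nonneg_left h5 (by linarith : 0 ≤ 1 - ζ)
    linarith
  have k2' : (1 - ζ) * (al f x (s - 1) / al f x s) ≤ Wm f x s / Wf f x s := by
    refine le_trans ?_ k2
    have e : Wm f x s * (2 * (1 - ζ) / al f x s) =
        (1 - ζ) * (al f x (s - 1) / al f x s) + (1 - ζ) * (ga f x (s + 2) / al f x s) := by
      unfold Wm; field_simp
    rw [e]
    have : 0 ≤ (1 - ζ) * (ga f x (s + 2) / al f x s) :=
      mul_nonneg (by linarith) (div_nonneg g1 hal.le)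
    linarith
  unfold Ef
  have m1 := mul_le_mul_of_nonneg_left k1' hv
  have m2 := mul_le_mul_of_nonneg_left k2' hv2
  nlinarith [mul_nonneg hv (mul_nonneg hζ0 hξ0)]

theorem no_adjacent : ∀ B : Finset (ZMod 5), (∀ s ∈ B, s + 1 ∉ B) → B.card ≤ 2 := by
  decide

/-- conditions on the numerical parameters -/
structure Par (v v2 Dm ζ ξ c : ℝ) (T : ℕ) : Prop where
  hv : 0 ≤ v
  hv2 : 0 ≤ v2
  hD : 0 ≤ Dm
  hζ0 : 0 ≤ ζ
  hζ : ζ ≤ 1 / 2
  hξ0 : 0 < ξ
  hξ1 : ξ ≤ 1
  hc : 0 ≤ c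
  hcc : c ^ 2 ≤ v * v2 * (1 - ζ) ^ 2 * (1 - ξ)
  hT : 2 ≤ T
  hTζ : Dm + log 2 ≤ ((T : ℝ) - 1) * log 2 * ζ

section

variable {v v2 Dm ζ ξ c : ℝ} {T : ℕ} (hP : Par v v2 Dm ζ ξ c T)
  (hf : ∀ s z, 0 ≤ f s z) (hA : Compat f A)
include hP hf hA

theorem row_ζ (hW : 0 < Wf f x s) (hD : Df f x s ≤ Dm) {i : I} (hi : i ∈ H0 A T) :
    Eq' f x s (fun z => if z.1 i = false then 1 else 0) ≤ ζ := by
  have h := row_bound hf hA (by have := hP.hT; omega) hW hi
  have h1 : (0 : ℝ) < ((T : ℝ) - 1) * log 2 := by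
    have : (2 : ℝ) ≤ T := by exact_mod_cast hP.hT
    have := Real.log_pos (by norm_num : (1 : ℝ) < 2)
    have : (0 : ℝ) < (T : ℝ) - 1 := by linarith
    positivity
  have h2 := hP.hTζ
  have h3 : ((T : ℝ) - 1) * log 2 * Eq' f x s (fun z => if z.1 i = false then 1 else 0) ≤
      ((T : ℝ) - 1) * log 2 * ζ := by linarith
  exact le_of_mul_le_mul_left h3 h1

theorem col_ζ (hW : 0 < Wf f x s) (hD : Df f x s ≤ Dm) {j : I} (hj : j ∈ H1 A T) :
    Eq' f x s (fun z => if z.2 j = false then 1 else 0) ≤ ζ := by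
  have h := col_bound hf hA (by have := hP.hT; omega) hW hj
  have h1 : (0 : ℝ) < ((T : ℝ) - 1) * log 2 := by
    have : (2 : ℝ) ≤ T := by exact_mod_cast hP.hT
    have := Real.log_pos (by norm_num : (1 : ℝ) < 2)
    have : (0 : ℝ) < (T : ℝ) - 1 := by linarith
    positivity
  have h2 := hP.hTζ
  have h3 : ((T : ℝ) - 1) * log 2 * Eq' f x s (fun z => if z.2 j = false then 1 else 0) ≤
      ((T : ℝ) - 1) * log 2 * ζ := by linarith
  exact le_of_mul_le_mul_left h3 h1

/-- the sum over `s` for an element of a heavy row -/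
theorem sum_s (i : I) (j : I) (hi : i ∈ H0 A T) (B : Finset (ZMod 5))
    (hB : ∀ s ∈ B, 0 < Wf f (i, j) s ∧ Df f (i, j) s ≤ Dm ∧
      (1 - ξ) * al f (i, j) s ≤ om f (i, j) s) :
    ∑ s ∈ B, exp (- Ef v v2 f (i, j) s) ≤
      2 * exp (v * (ξ + ζ)) + 5 * exp (v * (ξ + ζ) - c) := by
  classical
  have hζ1 : ζ < 1 := by have := hP.hζ; linarith
  have hlow : ∀ s ∈ B, -(v * (ξ + ζ)) + v * (1 - ζ) * (om f (i, j) (s + 1) / al f (i, j) s) +
      v2 * (1 - ζ) * (al f (i, j) (s - 1) / al f (i, j) s) ≤ Ef v v2 f (i, j) s := by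
    intro s hs
    obtain ⟨h1, h2, h3⟩ := hB s hs
    exact Ef_lower hf hP.hv hP.hv2 hP.hζ0 hζ1 hP.hξ0.le h1 (row_ζ hP hf hA h1 h2 hi) h3
  have hal : ∀ s ∈ B, 0 < al f (i, j) s := by
    intro s hs
    obtain ⟨h1, h2, h3⟩ := hB s hs
    have h4 := al_lower hf h1 (row_ζ hP hf hA h1 h2 hi)
    have : 0 < 2 * Wf f (i, j) s * (1 - ζ) := by
      have : 0 < 1 - ζ := by linarith
      positivity
    linarith
  have hadj : ∀ s ∈ B, s + 1 ∈ B → ¬ (Ef v v2 f (i, j) s < c - v * (ξ + ζ) ∧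
      Ef v v2 f (i, j) (s + 1) < c - v * (ξ + ζ)) := by
    rintro s hs hs1 ⟨h1, h2⟩
    have l1 := hlow s hs
    have l2 := hlow (s + 1) hs1
    rw [add_sub_cancel_right] at l2
    have a1 := hal s hs
    have a2 := hal (s + 1) hs1
    have o1 := om_nonneg (x := (i, j)) (s := s + 1 + 1) hf
    have a0 := al_nonneg (x := (i, j)) (s := s - 1) hf
    set ρ := al f (i, j) (s + 1) / al f (i, j) s with hρ
    have hρ0 : 0 < ρ := div_pos a2 a1
    have e1 : (1 - ξ) * ρ ≤ om f (i, j) (s + 1) / al f (i, j) s := by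
      rw [hρ, ← mul_div_assoc]
      exact div_le_div_of_nonneg_right (hB (s + 1) hs1).2.2 a1.le
    have e2 : al f (i, j) s / al f (i, j) (s + 1) = 1 / ρ := by
      rw [hρ, one_div_div]
    rw [e2] at l2
    have hz : 0 ≤ 1 - ζ := by linarith
    have p1 : v * (1 - ζ) * ((1 - ξ) * ρ) < c := by
      have q1 := mul_le_mul_of_nonneg_left e1 (mul_nonneg hP.hv hz)
      have q2 : 0 ≤ v2 * (1 - ζ) * (al f (i, j) (s - 1) / al f (i, j) s) :=
        mul_nonneg (mul_nonneg hP.hv2 hz) (div_nonneg a0 a1.le)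
      linarith
    have p2 : v2 * (1 - ζ) * (1 / ρ) < c := by
      have q2 : 0 ≤ v * (1 - ζ) * (om f (i, j) (s + 1 + 1) / al f (i, j) (s + 1)) :=
        mul_nonneg (mul_nonneg hP.hv hz) (div_nonneg o1 a2.le)
      linarith
    have p3 : 0 ≤ v2 * (1 - ζ) * (1 / ρ) := mul_nonneg (mul_nonneg hP.hv2 hz) (by positivity)
    have p4 : 0 ≤ v * (1 - ζ) * ((1 - ξ) * ρ) :=
      mul_nonneg (mul_nonneg hP.hv hz) (mul_nonneg (by have := hP.hξ1; linarith) hρ0.le)
    have p5 : (v * (1 - ζ) * ((1 - ξ) * ρ)) * (v2 * (1 - ζ) * (1 / ρ)) < c * c :=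
      mul_lt_mul'' p1 p2 p4 p3
    have p6 : (v * (1 - ζ) * ((1 - ξ) * ρ)) * (v2 * (1 - ζ) * (1 / ρ)) =
        v * v2 * (1 - ζ) ^ 2 * (1 - ξ) := by
      field_simp
    rw [p6] at p5
    have := hP.hcc
    nlinarith
  set B' := B.filter (fun s => Ef v v2 f (i, j) s < c - v * (ξ + ζ)) with hB'
  have hcard : B'.card ≤ 2 := by
    refine no_adjacent B' fun s hs hs1 => ?_
    rw [hB', Finset.mem_filter] at hs hs1
    exact hadj s hs.1 hs1.1 ⟨hs.2, hs1.2⟩
  have hδ : ∀ s ∈ B, -(v * (ξ + ζ)) ≤ Ef v v2 f (i, j) s := by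
    intro s hs
    have l1 := hlow s hs
    have hz : 0 ≤ 1 - ζ := by linarith
    have a1 := hal s hs
    have o1 := om_nonneg (x := (i, j)) (s := s + 1) hf
    have a0 := al_nonneg (x := (i, j)) (s := s - 1) hf
    have q1 : 0 ≤ v * (1 - ζ) * (om f (i, j) (s + 1) / al f (i, j) s) :=
      mul_nonneg (mul_nonneg hP.hv hz) (div_nonneg o1 a1.le)
    have q2 : 0 ≤ v2 * (1 - ζ) * (al f (i, j) (s - 1) / al f (i, j) s) :=
      mul_nonneg (mul_nonneg hP.hv2 hz) (div_nonneg a0 a1.le)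
    linarith
  rw [← Finset.sum_filter_add_sum_filter_not B (fun s => Ef v v2 f (i, j) s < c - v * (ξ + ζ))]
  refine add_le_add ?_ ?_
  · calc ∑ s ∈ B', exp (- Ef v v2 f (i, j) s) ≤ ∑ s ∈ B', exp (v * (ξ + ζ)) := by
          refine Finset.sum_le_sum fun s hs => ?_
          rw [hB', Finset.mem_filter] at hs
          have := hδ s hs.1
          exact Real.exp_le_exp.2 (by linarith)
      _ = (B'.card : ℝ) * exp (v * (ξ + ζ)) := by rw [Finset.sum_const, nsmul_eq_mul]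
      _ ≤ 2 * exp (v * (ξ + ζ)) := by
          refine mul_le_mul_of_nonneg_right ?_ (exp_pos _).le
          exact_mod_cast hcard
  · set B2 := B.filter (fun s => ¬ Ef v v2 f (i, j) s < c - v * (ξ + ζ)) with hB2
    calc ∑ s ∈ B2, exp (- Ef v v2 f (i, j) s) ≤ ∑ s ∈ B2, exp (v * (ξ + ζ) - c) := by
          refine Finset.sum_le_sum fun s hs => ?_
          rw [hB2, Finset.mem_filter] at hs
          have := hs.2
          push Not at this
          exact Real.exp_le_exp.2 (by linarith)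
      _ = (B2.card : ℝ) * exp (v * (ξ + ζ) - c) := by rw [Finset.sum_const, nsmul_eq_mul]
      _ ≤ 5 * exp (v * (ξ + ζ) - c) := by
          refine mul_le_mul_of_nonneg_right ?_ (exp_pos _).le
          have h5 : B2.card ≤ 5 := by
            calc B2.card ≤ (Finset.univ : Finset (ZMod 5)).card := Finset.card_le_univ _
              _ = 5 := by simp
          exact_mod_cast h5

/-- the divergence at an element of a heavy row -/
theorem Df_row (i : I) (j : I) (hj : j ∉ H1 A T)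
    (hW : 0 < Wf f (i, j) s) (hD : Df f (i, j) s ≤ Dm) :
    (((H0 A T).card + (H1 A T).card : ℕ) : ℝ) * (log 2 - (v * ζ + exp (-v))) ≤ Df f (i, j) s := by
  have h := Df_heavy (x := (i, j)) (s := s) (A := A) (T := T) (ζ := ζ) hf hW hP.hv
    (fun i' hi' => row_ζ hP hf hA hW hD hi') (fun j' hj' => col_ζ hP hf hA hW hD hj')
    _ (U_expN_row T v (i, j) hj)
  rw [Real.log_pow] at h
  have h2 := log_half_le (v := v)
  have h3 : (0 : ℝ) ≤ (((H0 A T).card + (H1 A T).card : ℕ) : ℝ) := Nat.cast_nonneg _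
  nlinarith [mul_le_mul_of_nonneg_left h2 h3]

/-- the number of heavy rows and columns is bounded as soon as one divergence is -/
theorem heavy_card (hW : 0 < Wf f x s) (hD : Df f x s ≤ Dm) :
    (((H0 A T).card + (H1 A T).card : ℕ) : ℝ) * (log 2 - (v * ζ + exp (-v))) - log 2 ≤ Dm := by
  have h := Df_heavy (x := x) (s := s) (A := A) (T := T) (ζ := ζ) hf hW hP.hv
    (fun i' hi' => row_ζ hP hf hA hW hD hi') (fun j' hj' => col_ζ hP hf hA hW hD hj')
    _ (U_expN_gen T v x)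
  rw [Real.log_mul (by norm_num) (by positivity), Real.log_pow] at h
  have h2 := log_half_le (v := v)
  have h3 : (0 : ℝ) ≤ (((H0 A T).card + (H1 A T).card : ℕ) : ℝ) := Nat.cast_nonneg _
  nlinarith [mul_le_mul_of_nonneg_left h2 h3]

open Classical in
theorem type3 :
    ∑ i ∈ H0 A T, ∑ j : I, ∑ s : ZMod 5, (if (i, j) ∈ A ∧ j ∉ H1 A T then Sg v v2 Dm f (i, j) s else 0) ≤
      (H0 A T).card * Fintype.card I *
        (exp (-((((H0 A T).card + (H1 A T).card : ℕ) : ℝ) * (log 2 - (v * ζ + exp (-v))))) *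
          (2 * exp (v * (ξ + ζ)) + 5 * exp (v * (ξ + ζ) - c))) +
      (H0 A T).card * (5 * (32 * (Dm + log 3) / ξ ^ 2 * exp v)) := by
  set h : ℝ := (((H0 A T).card + (H1 A T).card : ℕ) : ℝ) with hh_def
  set M := 2 * exp (v * (ξ + ζ)) + 5 * exp (v * (ξ + ζ) - c) with hM
  set D0 := h * (log 2 - (v * ζ + exp (-v))) with hD0
  -- the biased pairs
  let J : I → ZMod 5 → Finset I := fun i s => Finset.univ.filter fun j =>
    ((i, j) ∈ A ∧ j ∉ H1 A T) ∧ (0 < Wf f (i, j) s ∧ Df f (i, j) s ≤ Dm) ∧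
      om f (i, j) s < (1 - ξ) * al f (i, j) s
  have hJ : ∀ i ∈ H0 A T, ∀ s, ((J i s).card : ℝ) ≤ 32 * (Dm + log 3) / ξ ^ 2 := by
    intro i hi s
    have hb := bias (s := s) hf i (J i s) hP.hD hP.hξ0 hP.hξ1 ?_
    · have hξ := hP.hξ0
      rw [le_div_iff₀ (by positivity)]
      linarith
    · intro j hj
      simp only [J, Finset.mem_filter, Finset.mem_univ, true_and] at hj
      obtain ⟨-, ⟨h1, h2⟩, h3⟩ := hj
      exact ⟨h1, h2, (row_ζ hP hf hA h1 h2 hi).trans hP.hζ, h3⟩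
  have hterm : ∀ i ∈ H0 A T, ∀ j : I, ∀ s : ZMod 5,
      (if (i, j) ∈ A ∧ j ∉ H1 A T then Sg v v2 Dm f (i, j) s else 0) ≤
      (if (0 < Wf f (i, j) s ∧ Df f (i, j) s ≤ Dm ∧
        (1 - ξ) * al f (i, j) s ≤ om f (i, j) s) then exp (-D0) * exp (- Ef v v2 f (i, j) s) else 0) +
      (if j ∈ J i s then exp v else 0) := by
    intro i hi j s
    have hn1 : 0 ≤ (if (0 < Wf f (i, j) s ∧ Df f (i, j) s ≤ Dm ∧
        (1 - ξ) * al f (i, j) s ≤ om f (i, j) s) then exp (-D0) * exp (- Ef v v2 f (i, j) s)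
        else 0) := by
      split_ifs
      · positivity
      · exact le_rfl
    have hn2 : 0 ≤ (if j ∈ J i s then exp v else 0) := by
      split_ifs
      · exact (exp_pos _).le
      · exact le_rfl
    by_cases h1 : (i, j) ∈ A ∧ j ∉ H1 A T
    · rw [if_pos h1]
      unfold Sg
      by_cases h2 : 0 < Wf f (i, j) s ∧ Df f (i, j) s ≤ Dm
      · rw [if_pos h2]
        unfold Sf
        rw [if_neg h2.1.ne']
        by_cases h3 : (1 - ξ) * al f (i, j) s ≤ om f (i, j) s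
        · rw [if_pos ⟨h2.1, h2.2, h3⟩, ← Real.exp_add]
          have h4 := Df_row hP hf hA i j h1.2 h2.1 h2.2
          have h5 : exp (- Df f (i, j) s - Ef v v2 f (i, j) s) ≤
              exp (-D0 + - Ef v v2 f (i, j) s) := Real.exp_le_exp.2 (by rw [hD0, hh_def]; linarith)
          linarith
        · have hjJ : j ∈ J i s := by
            simp only [J, Finset.mem_filter, Finset.mem_univ, true_and]
            exact ⟨h1, h2, not_le.1 h3⟩
          rw [if_pos hjJ]
          have h4 := Df_nonneg (x := (i, j)) (s := s) hf h2.1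
          have h5 := Ef_ge (x := (i, j)) (s := s) hf hP.hv hP.hv2 h2.1
          have h6 : exp (- Df f (i, j) s - Ef v v2 f (i, j) s) ≤ exp v :=
            Real.exp_le_exp.2 (by linarith)
          linarith
      · rw [if_neg h2]
        linarith
    · rw [if_neg h1]
      linarith
  have hM0 : 0 ≤ M := by positivity
  calc ∑ i ∈ H0 A T, ∑ j : I, ∑ s : ZMod 5,
        (if (i, j) ∈ A ∧ j ∉ H1 A T then Sg v v2 Dm f (i, j) s else 0)
      ≤ ∑ i ∈ H0 A T, ∑ j : I, ∑ s : ZMod 5,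
        ((if (0 < Wf f (i, j) s ∧ Df f (i, j) s ≤ Dm ∧
          (1 - ξ) * al f (i, j) s ≤ om f (i, j) s) then exp (-D0) * exp (- Ef v v2 f (i, j) s)
          else 0) + (if j ∈ J i s then exp v else 0)) :=
        Finset.sum_le_sum fun i hi => Finset.sum_le_sum fun j _ => Finset.sum_le_sum fun s _ =>
          hterm i hi j s
    _ = ∑ i ∈ H0 A T, ∑ j : I, (∑ s : ZMod 5,
          (if (0 < Wf f (i, j) s ∧ Df f (i, j) s ≤ Dm ∧
          (1 - ξ) * al f (i, j) s ≤ om f (i, j) s) then exp (-D0) * exp (- Ef v v2 f (i, j) s)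
          else 0)) + ∑ i ∈ H0 A T, ∑ s : ZMod 5, ∑ j : I, (if j ∈ J i s then exp v else 0) := by
        rw [← Finset.sum_add_distrib]
        refine Finset.sum_congr rfl fun i _ => ?_
        rw [Finset.sum_comm (f := fun (s : ZMod 5) (j : I) => if j ∈ J i s then exp v else 0),
          ← Finset.sum_add_distrib]
        refine Finset.sum_congr rfl fun j _ => ?_
        rw [Finset.sum_add_distrib]
    _ ≤ ∑ i ∈ H0 A T, ∑ j : I, (exp (-D0) * M) +
        ∑ i ∈ H0 A T, ∑ s : ZMod 5, (32 * (Dm + log 3) / ξ ^ 2 * exp v) := by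
        refine add_le_add (Finset.sum_le_sum fun i hi => Finset.sum_le_sum fun j _ => ?_)
          (Finset.sum_le_sum fun i hi => Finset.sum_le_sum fun s _ => ?_)
        · rw [← Finset.sum_filter, ← Finset.mul_sum]
          refine mul_le_mul_of_nonneg_left ?_ (exp_pos _).le
          refine sum_s hP hf hA i j hi _ fun s hs => ?_
          rw [Finset.mem_filter] at hs
          exact hs.2
        · rw [← Finset.sum_filter, Finset.sum_const, nsmul_eq_mul]
          refine mul_le_mul_of_nonneg_right ?_ (exp_pos _).le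
          rw [Finset.filter_mem_eq_inter, Finset.univ_inter]
          exact hJ i hi s
    _ = _ := by
        simp only [Finset.sum_const, nsmul_eq_mul, Finset.card_univ, ZMod.card]
        ring

end

end Pool.Agent.Helper72K9.EIC
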