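import Pool.Agent.Helper72K9.EIC.Core5

/-!
# The light part, the symmetry between the two tables, and the total bound
-/

set_option autoImplicit false
set_option linter.unusedSectionVars false
set_option linter.unusedSimpArgs false

namespace Pool.Agent.Helper72K9.EIC

open Finset Real

variable {I : Type} [Fintype I] [DecidableEq I]
variable {f : ZMod 5 → Tab I → ℝ} {A : Finset (I × I)} {x : I × I} {s : ZMod 5}

/-- elements of light rows and columns -/
def Lt (A : Finset (I × I)) (T : ℕ) : Finset (I × I) :=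
  A.filter fun x => x.1 ∉ H0 A T ∧ x.2 ∉ H1 A T

theorem ite_nonneg' {p : Prop} [Decidable p] {a b : ℝ} (ha : 0 ≤ a) (hb : 0 ≤ b) :
    0 ≤ (if p then a else b) := by
  split_ifs
  · exact ha
  · exact hb

theorem light_matching (A : Finset (I × I)) (T : ℕ) :
    ∃ (R : Finset I) (c : I → I), Set.InjOn c R ∧ (∀ i ∈ R, (i, c i) ∈ A) ∧
      (Lt A T).card ≤ T * T * R.card := by
  classical
  set L := Lt A T with hL
  set C := L.image Prod.snd with hC
  have hr : ∀ j ∈ C, ∃ i, (i, j) ∈ L := by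
    intro j hj
    rw [hC, Finset.mem_image] at hj
    obtain ⟨y, hy, rfl⟩ := hj
    exact ⟨y.1, hy⟩
  choose! r hr using hr
  set R := C.image r with hR
  have hc : ∀ i ∈ R, ∃ j ∈ C, r j = i := by
    intro i hi
    rw [hR, Finset.mem_image] at hi
    exact hi
  choose! c hcC hcr using hc
  refine ⟨R, c, ?_, ?_, ?_⟩
  · intro i hi i' hi' h
    rw [← hcr i hi, ← hcr i' hi', h]
  · intro i hi
    have h1 := hr (c i) (hcC i hi)
    rw [hcr i hi] at h1
    rw [hL, Lt, Finset.mem_filter] at h1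
    exact h1.1
  · have h1 : L.card ≤ T * C.card := by
      refine Finset.card_le_mul_card_image L T fun j hj => ?_
      obtain ⟨y, hy, hyj⟩ := Finset.mem_image.1 hj
      have hy2 : y.2 ∉ H1 A T := by
        rw [hL, Lt, Finset.mem_filter] at hy
        exact hy.2.2
      rw [hyj] at hy2
      have h3 : (col A j).card < T := by
        simpa [H1] using hy2
      have h4 : (L.filter fun x => x.2 = j).card ≤ (col A j).card := by
        refine Finset.card_le_card_of_injOn Prod.fst ?_ ?_
        · intro x hx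
          rw [Finset.coe_filter, Set.mem_ofPred_eq, hL, Lt, Finset.mem_filter] at hx
          simp only [col, Finset.coe_filter, Finset.mem_univ, true_and, Set.mem_ofPred_eq]
          have : (x.1, j) = x := by rw [← hx.2]
          rw [this]; exact hx.1.1
        · intro x hx x' hx' h
          rw [Finset.coe_filter, Set.mem_ofPred_eq] at hx hx'
          exact Prod.ext h (hx.2.trans hx'.2.symm)
      omega
    have h2 : C.card ≤ T * R.card := by
      refine Finset.card_le_mul_card_image C T fun i hi => ?_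
      obtain ⟨j, hj, hji⟩ := Finset.mem_image.1 hi
      have hy2 : i ∉ H0 A T := by
        have h3 := hr j hj
        rw [hL, Lt, Finset.mem_filter] at h3
        rw [← hji]; exact h3.2.1
      have h3 : (row A i).card < T := by
        simpa [H0] using hy2
      have h4 : (C.filter fun j => r j = i).card ≤ (row A i).card := by
        refine Finset.card_le_card ?_
        intro j' hj'
        rw [Finset.mem_filter] at hj'
        have h5 := hr j' hj'.1
        rw [hL, Lt, Finset.mem_filter] at h5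
        simp only [row, Finset.mem_filter, Finset.mem_univ, true_and]
        rw [← hj'.2]; exact h5.1
      omega
    calc L.card ≤ T * C.card := h1
      _ ≤ T * (T * R.card) := Nat.mul_le_mul_left _ h2
      _ = T * T * R.card := by ring

theorem light_card (hf : ∀ s z, 0 ≤ f s z) (hA : Compat f A) (T : ℕ) {Dm : ℝ}
    (hW : 0 < Wf f x s) (hD : Df f x s ≤ Dm) :
    ((Lt A T).card : ℝ) * log (4 / 3) ≤ T * T * (Dm + log 2) := by
  classical
  obtain ⟨R, c, hc, hRA, hcard⟩ := light_matching A T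
  have h := DVx hf hW (fun _ => 0) (2 * (3 / 4) ^ R.card) ?_
  · have e0 : Eq' f x s (fun _ => (0 : ℝ)) = 0 := by
      unfold Eq'
      simp [U]
    rw [e0, Real.log_mul (by norm_num) (by positivity), Real.log_pow] at h
    have e1 : log (3 / 4 : ℝ) = - log (4 / 3) := by
      rw [← Real.log_inv]; norm_num
    rw [e1] at h
    have h1 : (R.card : ℝ) * log (4 / 3) ≤ Dm + log 2 := by linarith
    have h2 : ((Lt A T).card : ℝ) ≤ T * T * R.card := by exact_mod_cast hcard
    have h3 : 0 ≤ log (4 / 3 : ℝ) := Real.log_nonneg (by norm_num)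
    calc ((Lt A T).card : ℝ) * log (4 / 3) ≤ (T * T * R.card) * log (4 / 3) :=
          mul_le_mul_of_nonneg_right h2 h3
      _ = T * T * (R.card * log (4 / 3)) := by ring
      _ ≤ T * T * (Dm + log 2) := mul_le_mul_of_nonneg_left h1 (by positivity)
  · refine mul_le_mul_of_nonneg_left ?_ (by norm_num)
    refine le_trans (U_mono fun z => ?_) (U_matching R c hc)
    by_cases h0 : hh f x s z = 0
    · simp only [h0, ne_eq, not_true_eq_false, if_false]
      split_ifs <;> norm_num
    · rw [if_pos h0, Real.exp_zero]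
      obtain ⟨s', hs'⟩ := hh_supp h0
      rw [if_pos]
      intro i hi
      exact hA (i, c i) (hRA i hi) s' z hs'

/-! ### the symmetry -/

/-- exchange the two tables -/
def swz : Tab I ≃ Tab I := Equiv.prodComm (I → Bool) (I → Bool)

/-- the transformed function -/
def fsw (f : ZMod 5 → Tab I → ℝ) : ZMod 5 → Tab I → ℝ := fun t z => f (1 - t) (swz z)

theorem hh_swap (x : I × I) (s : ZMod 5) (z : Tab I) :
    hh (fsw f) x.swap (-s) (swz z) = hh f x s z := by
  have e1 : (swz z).1 = z.2 := rfl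
  have e2 : (swz z).2 = z.1 := rfl
  have e3 : swz (swz z) = z := rfl
  unfold hh fsw
  rw [e1, e2, e3, Prod.fst_swap, Prod.snd_swap]
  have e4 : (1 : ZMod 5) - -s = s + 1 := by ring
  have e5 : (1 : ZMod 5) - (-s + 1) = s := by ring
  rw [e4, e5]
  by_cases h1 : z.1 x.1 = true <;> by_cases h2 : z.2 x.2 = true <;> simp [h1, h2]

theorem U_swap (g : Tab I → ℝ) : U (fun z => g (swz z)) = U g := U_equiv swz g

theorem Wf_swap (x : I × I) (s : ZMod 5) : Wf (fsw f) x.swap (-s) = Wf f x s := by
  unfold Wf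
  rw [← U_swap (hh (fsw f) x.swap (-s))]
  simp only [hh_swap]

theorem Df_swap (x : I × I) (s : ZMod 5) : Df (fsw f) x.swap (-s) = Df f x s := by
  unfold Df
  rw [Wf_swap, ← U_swap (fun z => hh (fsw f) x.swap (-s) z * log (hh (fsw f) x.swap (-s) z))]
  simp only [hh_swap]

theorem al_swap (x : I × I) (t : ZMod 5) : al (fsw f) x.swap t = ga f x (1 - t) := by
  unfold al ga
  rw [← U_swap]
  congr 2
  funext z
  have e1 : (swz z).1 = z.2 := rfl
  have e2 : (swz z).2 = z.1 := rfl
  have e3 : swz (swz z) = z := rfl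
  unfold fsw
  rw [e1, e2, e3, Prod.fst_swap, Prod.snd_swap]
  by_cases h1 : z.1 x.1 = true <;> by_cases h2 : z.2 x.2 = true <;> simp [h1, h2]

theorem ga_swap (x : I × I) (t : ZMod 5) : ga (fsw f) x.swap t = al f x (1 - t) := by
  unfold al ga
  rw [← U_swap]
  congr 2
  funext z
  have e1 : (swz z).1 = z.2 := rfl
  have e2 : (swz z).2 = z.1 := rfl
  have e3 : swz (swz z) = z := rfl
  unfold fsw
  rw [e1, e2, e3, Prod.fst_swap, Prod.snd_swap]
  by_cases h1 : z.1 x.1 = true <;> by_cases h2 : z.2 x.2 = true <;> simp [h1, h2]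

theorem om_swap (x : I × I) (t : ZMod 5) : om (fsw f) x.swap t = om f x (1 - t) := by
  unfold om
  rw [← U_swap]
  congr 2
  funext z
  have e1 : (swz z).1 = z.2 := rfl
  have e2 : (swz z).2 = z.1 := rfl
  have e3 : swz (swz z) = z := rfl
  unfold fsw
  rw [e1, e2, e3, Prod.fst_swap, Prod.snd_swap]
  by_cases h1 : z.1 x.1 = true <;> by_cases h2 : z.2 x.2 = true <;> simp [h1, h2]

theorem Wo_swap (x : I × I) (s : ZMod 5) : Wo (fsw f) x.swap (-s) = Wo f x s := by
  unfold Wo
  rw [om_swap, om_swap]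
  have e4 : (1 : ZMod 5) - -s = s + 1 := by ring
  have e5 : (1 : ZMod 5) - (-s + 1) = s := by ring
  rw [e4, e5, add_comm]

theorem Wm_swap (x : I × I) (s : ZMod 5) : Wm (fsw f) x.swap (-s) = Wm f x s := by
  unfold Wm
  rw [al_swap, ga_swap]
  have e4 : (1 : ZMod 5) - (-s - 1) = s + 2 := by ring
  have e5 : (1 : ZMod 5) - (-s + 2) = s - 1 := by ring
  rw [e4, e5, add_comm]

theorem Sg_swap (v v2 Dm : ℝ) (x : I × I) (s : ZMod 5) :
    Sg v v2 Dm (fsw f) x.swap (-s) = Sg v v2 Dm f x s := by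
  unfold Sg Sf Ef
  rw [Wf_swap, Df_swap, Wo_swap, Wm_swap]

/-- the transposed set -/
def Asw (A : Finset (I × I)) : Finset (I × I) := A.map (Equiv.prodComm I I).toEmbedding

theorem mem_Asw {A : Finset (I × I)} {i j : I} : (i, j) ∈ Asw A ↔ (j, i) ∈ A := by
  unfold Asw
  rw [Finset.mem_map_equiv]
  rfl

theorem row_Asw (i : I) : row (Asw A) i = col A i := by
  ext j
  simp [row, col, mem_Asw]

theorem col_Asw (i : I) : col (Asw A) i = row A i := by
  ext j
  simp [row, col, mem_Asw]

theorem H0_Asw (T : ℕ) : H0 (Asw A) T = H1 A T := by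
  ext j
  simp [H0, H1, row_Asw]

theorem H1_Asw (T : ℕ) : H1 (Asw A) T = H0 A T := by
  ext j
  simp [H0, H1, col_Asw]

theorem compat_swap (hA : Compat f A) : Compat (fsw f) (Asw A) := by
  rintro ⟨i, j⟩ hx s z hz
  rw [mem_Asw] at hx
  have h := hA (j, i) hx (1 - s) (swz z) hz
  exact h.symm

section

variable {v v2 Dm ζ ξ c : ℝ} {T : ℕ} (hP : Par v v2 Dm ζ ξ c T)
  (hf : ∀ s z, 0 ≤ f s z) (hA : Compat f A)
include hP hf hA

open Classical in
theorem type4 :
    ∑ j ∈ H1 A T, ∑ i : I, ∑ s : ZMod 5, (if (i, j) ∈ A ∧ i ∉ H0 A T then Sg v v2 Dm f (i, j) s else 0) ≤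
      (H1 A T).card * Fintype.card I *
        (exp (-((((H0 A T).card + (H1 A T).card : ℕ) : ℝ) * (log 2 - (v * ζ + exp (-v))))) *
          (2 * exp (v * (ξ + ζ)) + 5 * exp (v * (ξ + ζ) - c))) +
      (H1 A T).card * (5 * (32 * (Dm + log 3) / ξ ^ 2 * exp v)) := by
  have h := type3 (f := fsw f) (A := Asw A) hP (fun s z => hf _ _) (compat_swap hA)
  rw [H0_Asw, H1_Asw, add_comm (H1 A T).card] at h
  refine le_trans (le_of_eq ?_) h
  refine Finset.sum_congr rfl fun j _ => Finset.sum_congr rfl fun i _ => ?_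
  rw [← Equiv.sum_comp (Equiv.neg (ZMod 5))]
  refine Finset.sum_congr rfl fun s _ => ?_
  refine if_congr (and_congr mem_Asw.symm Iff.rfl) ?_ rfl
  have h1 := Sg_swap (f := f) v v2 Dm (i, j) (-s)
  rw [neg_neg] at h1
  exact h1.symm

theorem Sg_le : Sg v v2 Dm f x s ≤ exp v := by
  unfold Sg
  split_ifs with h
  · unfold Sf
    rw [if_neg h.1.ne']
    have h4 := Df_nonneg (x := x) (s := s) hf h.1
    have h5 := Ef_ge (x := x) (s := s) hf hP.hv hP.hv2 h.1
    exact Real.exp_le_exp.2 (by linarith)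
  · exact (exp_pos _).le

theorem Sg_nonneg : 0 ≤ Sg v v2 Dm f x s := by
  unfold Sg
  split_ifs with h
  · unfold Sf
    split_ifs
    · exact le_rfl
    · exact (exp_pos _).le
  · exact le_rfl

theorem Sf_le : Sf v v2 f x s ≤ Sg v v2 Dm f x s + exp (v - Dm) := by
  classical
  have h0 := Sg_nonneg (x := x) (s := s) hP hf hA
  have e0 := exp_pos (v - Dm)
  by_cases hW : Wf f x s = 0
  · unfold Sf
    rw [if_pos hW]
    linarith
  · have hW' : 0 < Wf f x s := lt_of_le_of_ne (Wf_nonneg hf) (Ne.symm hW)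
    by_cases hD : Df f x s ≤ Dm
    · have : Sg v v2 Dm f x s = Sf v v2 f x s := by
        unfold Sg
        rw [if_pos ⟨hW', hD⟩]
      rw [this]
      linarith
    · have h5 := Ef_ge (x := x) (s := s) hf hP.hv hP.hv2 hW'
      have h6 : Sf v v2 f x s ≤ exp (v - Dm) := by
        unfold Sf
        rw [if_neg hW]
        exact Real.exp_le_exp.2 (by linarith [not_le.1 hD])
      linarith

/-- the sum of the good terms -/
theorem Sg_sum (hgood : ∃ x s, 0 < Wf f x s ∧ Df f x s ≤ Dm) :
    ∑ x ∈ A, ∑ s : ZMod 5, Sg v v2 Dm f x s ≤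
      ((((H0 A T).card + (H1 A T).card : ℕ) : ℝ)) * Fintype.card I *
        (exp (-((((H0 A T).card + (H1 A T).card : ℕ) : ℝ) * (log 2 - (v * ζ + exp (-v))))) *
          (2 * exp (v * (ξ + ζ)) + 5 * exp (v * (ξ + ζ) - c))) +
      ((((H0 A T).card + (H1 A T).card : ℕ) : ℝ)) * (5 * (32 * (Dm + log 3) / ξ ^ 2 * exp v)) +
      5 * (((H0 A T).card : ℝ) * (H1 A T).card) * exp v +
      5 * (T * T * (Dm + log 2) / log (4 / 3)) * exp v := by
  classical
  obtain ⟨x0, s0, hW0, hD0⟩ := hgood
  have h3 := type3 hP hf hA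
  have h4 := type4 hP hf hA
  have hL := light_card hf hA T hW0 hD0
  have hlog : 0 < log (4 / 3 : ℝ) := Real.log_pos (by norm_num)
  rw [← le_div_iff₀ hlog] at hL
  -- split the sum
  have hsplit : ∀ x ∈ A, ∑ s : ZMod 5, Sg v v2 Dm f x s ≤
      (if x.1 ∈ H0 A T then (∑ s : ZMod 5, if (x.1, x.2) ∈ A ∧ x.2 ∉ H1 A T then
        Sg v v2 Dm f (x.1, x.2) s else 0) else 0) +
      (if x.2 ∈ H1 A T then (∑ s : ZMod 5, if (x.1, x.2) ∈ A ∧ x.1 ∉ H0 A T then
        Sg v v2 Dm f (x.1, x.2) s else 0) else 0) +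
      (if x.1 ∈ H0 A T ∧ x.2 ∈ H1 A T then 5 * exp v else 0) +
      (if x.1 ∉ H0 A T ∧ x.2 ∉ H1 A T then 5 * exp v else 0) := by
    intro x hx
    have h5 : ∑ s : ZMod 5, Sg v v2 Dm f x s ≤ 5 * exp v := by
      calc ∑ s : ZMod 5, Sg v v2 Dm f x s ≤ ∑ s : ZMod 5, exp v :=
            Finset.sum_le_sum fun s _ => Sg_le hP hf hA
        _ = 5 * exp v := by
            rw [Finset.sum_const, nsmul_eq_mul, Finset.card_univ, ZMod.card]
            norm_num
    by_cases h0 : x.1 ∈ H0 A T <;> by_cases h1 : x.2 ∈ H1 A T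
    · simp only [h0, h1, not_true_eq_false, and_false, if_true, if_false, and_true, and_self,
        Finset.sum_const_zero, Prod.mk.eta, hx]
      linarith
    · simp only [h0, h1, not_true_eq_false, not_false_eq_true, and_false, if_true, if_false,
        and_true, and_self, false_and, Finset.sum_const_zero, Prod.mk.eta, hx]
      linarith
    · simp only [h0, h1, not_true_eq_false, not_false_eq_true, and_false, if_true, if_false,
        and_true, and_self, false_and, Finset.sum_const_zero, Prod.mk.eta, hx]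
      linarith
    · simp only [h0, h1, not_true_eq_false, not_false_eq_true, and_false, if_true, if_false,
        and_true, and_self, false_and, Finset.sum_const_zero, Prod.mk.eta, hx]
      linarith
  have hsum := Finset.sum_le_sum hsplit
  rw [Finset.sum_add_distrib, Finset.sum_add_distrib, Finset.sum_add_distrib] at hsum
  have s1 : ∑ x ∈ A, (if x.1 ∈ H0 A T then (∑ s : ZMod 5, if (x.1, x.2) ∈ A ∧ x.2 ∉ H1 A T then
        Sg v v2 Dm f (x.1, x.2) s else 0) else 0) ≤
      ∑ i ∈ H0 A T, ∑ j : I, ∑ s : ZMod 5, (if (i, j) ∈ A ∧ j ∉ H1 A T then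
        Sg v v2 Dm f (i, j) s else 0) := by
    calc _ ≤ ∑ x : I × I, (if x.1 ∈ H0 A T then (∑ s : ZMod 5,
          if (x.1, x.2) ∈ A ∧ x.2 ∉ H1 A T then Sg v v2 Dm f (x.1, x.2) s else 0) else 0) := by
          refine Finset.sum_le_sum_of_subset_of_nonneg (Finset.subset_univ _) fun x _ _ => ?_
          exact ite_nonneg' (Finset.sum_nonneg fun s _ => ite_nonneg' (Sg_nonneg hP hf hA) le_rfl)
            le_rfl
      _ = _ := by
          rw [Fintype.sum_prod_type]
          simp only
          rw [← Finset.sum_subset (Finset.subset_univ (H0 A T))]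
          · refine Finset.sum_congr rfl fun i hi => Finset.sum_congr rfl fun j _ => ?_
            rw [if_pos hi]
          · intro i _ hi
            simp [hi]
  have s2 : ∑ x ∈ A, (if x.2 ∈ H1 A T then (∑ s : ZMod 5, if (x.1, x.2) ∈ A ∧ x.1 ∉ H0 A T then
        Sg v v2 Dm f (x.1, x.2) s else 0) else 0) ≤
      ∑ j ∈ H1 A T, ∑ i : I, ∑ s : ZMod 5, (if (i, j) ∈ A ∧ i ∉ H0 A T then
        Sg v v2 Dm f (i, j) s else 0) := by
    calc _ ≤ ∑ x : I × I, (if x.2 ∈ H1 A T then (∑ s : ZMod 5,
          if (x.1, x.2) ∈ A ∧ x.1 ∉ H0 A T then Sg v v2 Dm f (x.1, x.2) s else 0) else 0) := by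
          refine Finset.sum_le_sum_of_subset_of_nonneg (Finset.subset_univ _) fun x _ _ => ?_
          exact ite_nonneg' (Finset.sum_nonneg fun s _ => ite_nonneg' (Sg_nonneg hP hf hA) le_rfl)
            le_rfl
      _ = _ := by
          rw [Fintype.sum_prod_type_right]
          simp only
          rw [← Finset.sum_subset (Finset.subset_univ (H1 A T))]
          · refine Finset.sum_congr rfl fun i hi => Finset.sum_congr rfl fun j _ => ?_
            rw [if_pos hi]
          · intro i _ hi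
            simp [hi]
  have s3 : ∑ x ∈ A, (if x.1 ∈ H0 A T ∧ x.2 ∈ H1 A T then 5 * exp v else 0) ≤
      5 * (((H0 A T).card : ℝ) * (H1 A T).card) * exp v := by
    rw [← Finset.sum_filter, Finset.sum_const, nsmul_eq_mul]
    have hc : ((A.filter fun x => x.1 ∈ H0 A T ∧ x.2 ∈ H1 A T).card : ℝ) ≤
        ((H0 A T).card : ℝ) * (H1 A T).card := by
      have : (A.filter fun x => x.1 ∈ H0 A T ∧ x.2 ∈ H1 A T) ⊆ H0 A T ×ˢ H1 A T := by
        intro x hx
        rw [Finset.mem_filter] at hx
        rw [Finset.mem_product]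
        exact hx.2
      have h6 := Finset.card_le_card this
      rw [Finset.card_product] at h6
      exact_mod_cast h6
    have h7 := mul_le_mul_of_nonneg_right hc (by positivity : (0 : ℝ) ≤ 5 * exp v)
    linarith
  have s4 : ∑ x ∈ A, (if x.1 ∉ H0 A T ∧ x.2 ∉ H1 A T then 5 * exp v else 0) ≤
      5 * (T * T * (Dm + log 2) / log (4 / 3)) * exp v := by
    rw [← Finset.sum_filter, Finset.sum_const, nsmul_eq_mul]
    have e : (A.filter fun x => x.1 ∉ H0 A T ∧ x.2 ∉ H1 A T) = Lt A T := rfl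
    rw [e]
    have h7 := mul_le_mul_of_nonneg_right hL (by positivity : (0 : ℝ) ≤ 5 * exp v)
    linarith
  have h5 : ∀ i j, (if (i, j) ∈ A ∧ j ∉ H1 A T then (1 : ℝ) else 0) =
    (if (i, j) ∈ A ∧ j ∉ H1 A T then (1 : ℝ) else 0) := fun _ _ => rfl
  push_cast at h3 h4 ⊢
  linarith

end

end Pool.Agent.Helper72K9.EIC
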