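import Pool.Agent.Helper72K9.EIC.Core6

/-!
# Explicit parameters
-/

set_option autoImplicit false
set_option linter.unusedSectionVars false
set_option linter.unusedSimpArgs false

namespace Pool.Agent.Helper72K9.EIC

open Finset Real

variable {I : Type} [Fintype I] [DecidableEq I]
variable {f : ZMod 5 → Tab I → ℝ} {A : Finset (I × I)} {x : I × I} {s : ZMod 5}

theorem two_le_exp_one : (2 : ℝ) ≤ exp 1 := by
  have := Real.exp_one_gt_d9; linarith

theorem exp_one_le_four : exp 1 ≤ (4 : ℝ) := by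
  have := Real.exp_one_lt_d9; linarith

theorem two_pow_le_exp (n : ℕ) : (2 : ℝ) ^ n ≤ exp n := by
  have h : exp (n : ℝ) = exp 1 ^ n := by rw [← Real.exp_nat_mul, mul_one]
  rw [h]
  exact pow_le_pow_left₀ (by norm_num) two_le_exp_one n

theorem exp_le_four_pow (n : ℕ) : exp (n : ℝ) ≤ (2 : ℝ) ^ (2 * n) := by
  have h : exp (n : ℝ) = exp 1 ^ n := by rw [← Real.exp_nat_mul, mul_one]
  rw [h, pow_mul]
  exact pow_le_pow_left₀ (exp_pos _).le (by have := exp_one_le_four; norm_num; linarith) n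

theorem exp_neg_le (n : ℕ) : exp (-(n : ℝ)) ≤ ((2 : ℝ) ^ n)⁻¹ := by
  rw [Real.exp_neg]
  exact inv_anti₀ (by positivity) (two_pow_le_exp n)

theorem log_two_ge : (1 / 2 : ℝ) ≤ log 2 := by
  have := Real.log_two_gt_d9; linarith

theorem log_two_le : log 2 ≤ (1 : ℝ) := by
  have := Real.log_two_lt_d9; linarith

theorem log_three_le : log 3 ≤ (2 : ℝ) := by
  have h := Real.log_le_sub_one_of_pos (by norm_num : (0 : ℝ) < 3)
  linarith

theorem log_four_third_ge : (1 / 4 : ℝ) ≤ log (4 / 3) := by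
  have h := Real.one_sub_inv_le_log_of_pos (by norm_num : (0 : ℝ) < 4 / 3)
  norm_num at h
  norm_num
  linarith

theorem par : Par 1024 (1 / 16) 16384 (1 / 2 ^ 40) (1 / 2 ^ 18) 7 (2 ^ 1024) where
  hv := by norm_num
  hv2 := by norm_num
  hD := by norm_num
  hζ0 := by norm_num
  hζ := by norm_num
  hξ0 := by norm_num
  hξ1 := by norm_num
  hc := by norm_num
  hcc := by norm_num
  hT := by
    calc 2 = 2 ^ 1 := by norm_num
      _ ≤ 2 ^ 1024 := Nat.pow_le_pow_right (by norm_num) (by norm_num)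
  hTζ := by
    have h1 := log_two_ge
    have h2 := log_two_le
    have h3 : (2 : ℝ) ^ 60 + 1 ≤ ((2 ^ 1024 : ℕ) : ℝ) := by
      push_cast
      calc (2 : ℝ) ^ 60 + 1 ≤ 2 ^ 60 + 2 ^ 60 := by norm_num
        _ = 2 ^ 61 := by norm_num
        _ ≤ 2 ^ 1024 := pow_le_pow_right₀ (by norm_num) (by norm_num)
    have h4 : (2 : ℝ) ^ 60 * (1 / 2) * (1 / 2 ^ 40) ≤
        (((2 ^ 1024 : ℕ) : ℝ) - 1) * log 2 * (1 / 2 ^ 40) := by
      refine mul_le_mul_of_nonneg_right ?_ (by positivity)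
      exact mul_le_mul (by linarith) h1 (by norm_num) (by linarith [pow_pos (by norm_num : (0:ℝ) < 2) 60])
    have h5 : (16385 : ℝ) ≤ (2 : ℝ) ^ 60 * (1 / 2) * (1 / 2 ^ 40) := by norm_num
    linarith

theorem nat_mul_half_pow (n : ℕ) : (n : ℝ) * ((1 : ℝ) / 2) ^ n ≤ 1 / 2 := by
  induction n with
  | zero => norm_num
  | succ n ih =>
    rcases Nat.eq_zero_or_pos n with h0 | h0
    · subst h0; norm_num
    · have h1 : (1 : ℝ) ≤ n := by exact_mod_cast h0
      have h2 : (0 : ℝ) ≤ (1 / 2) ^ n := by positivity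
      push_cast
      rw [pow_succ]
      nlinarith

theorem main_bound_aux (K Q E : ℝ) (T : ℕ) (hcard : (Fintype.card I : ℝ) = K)
    (hexp1 : exp 1024 ≤ Q) (hQ60 : 2 ^ 60 ≤ Q) (hTQ : (T : ℝ) * T = Q) (hKQ : Q * Q * 2 ^ 30 ≤ K)
    (hE0 : 0 < E) (hexp2 : exp (1024 - 16384) ≤ E⁻¹) (hKE : K * 2 ^ 13 ≤ E)
    (hexp3 : exp (-1024) ≤ 1 / 2 ^ 30)
    (hP : Par 1024 (1 / 16) 16384 (1 / 2 ^ 40) (1 / 2 ^ 18) 7 T)
    (hf : ∀ s z, 0 ≤ f s z) (hA : Compat f A) :
    ∑ x ∈ A, ∑ s : ZMod 5, Sf 1024 (1 / 16) f x s ≤ K * exp (1 / 32) := by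
  classical
  have hQ0 : 0 < Q := lt_of_lt_of_le (by positivity) hQ60
  have hK0 : 0 < K := lt_of_lt_of_le (by positivity) hKQ
  -- the bad terms
  have hbad : ∑ x ∈ A, ∑ s : ZMod 5, Sf 1024 (1 / 16) f x s ≤
      ∑ x ∈ A, ∑ s : ZMod 5, Sg 1024 (1 / 16) 16384 f x s + K / 2 ^ 10 := by
    have h1 : ∑ x ∈ A, ∑ s : ZMod 5, Sf 1024 (1 / 16) f x s ≤
        ∑ x ∈ A, ∑ s : ZMod 5, (Sg 1024 (1 / 16) 16384 f x s + E⁻¹) := by
      refine Finset.sum_le_sum fun x _ => Finset.sum_le_sum fun s _ => ?_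
      have h2 := Sf_le (x := x) (s := s) hP hf hA
      linarith
    refine h1.trans ?_
    simp only [Finset.sum_add_distrib, Finset.sum_const, Finset.card_univ, ZMod.card, nsmul_eq_mul]
    have h3 : (A.card : ℝ) ≤ K * K := by
      have : A.card ≤ Fintype.card I * Fintype.card I := by
        rw [← Fintype.card_prod]; exact Finset.card_le_univ A
      rw [← hcard]; exact_mod_cast this
    have h4 : K * K * (((5 : ℕ) : ℝ) * E⁻¹) ≤ K / 2 ^ 10 := by
      rw [div_eq_mul_inv, mul_assoc K K]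
      refine mul_le_mul_of_nonneg_left ?_ hK0.le
      have h6 : K * (((5 : ℕ) : ℝ) * E⁻¹) = (K * 5) / E := by
        push_cast; ring
      rw [h6, div_le_iff₀ hE0]
      norm_num at hKE ⊢
      linarith
    have h7 : (A.card : ℝ) * (((5 : ℕ) : ℝ) * E⁻¹) ≤
        K * K * (((5 : ℕ) : ℝ) * E⁻¹) := mul_le_mul_of_nonneg_right h3 (by positivity)
    linarith
  have hfin : exp (1 / 40 : ℝ) + 1 / 160 ≤ exp (1 / 32) := by
    have e1 : exp (1 / 32 : ℝ) = exp (1 / 40) * exp (1 / 160) := by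
      rw [← Real.exp_add]; norm_num
    have e2 := Real.add_one_le_exp (1 / 160 : ℝ)
    have e3 := Real.add_one_le_exp (1 / 40 : ℝ)
    rw [e1]
    nlinarith
  by_cases hgood : ∃ x s, 0 < Wf f x s ∧ Df f x s ≤ 16384
  swap
  · have h0 : ∀ x s, Sg 1024 (1 / 16) 16384 f x s = 0 := by
      intro x s
      unfold Sg
      rw [if_neg]
      exact fun h => hgood ⟨x, s, h⟩
    simp only [h0, Finset.sum_const_zero, zero_add] at hbad
    refine hbad.trans ?_
    have e3 := Real.add_one_le_exp (1 / 32 : ℝ)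
    have e4 : K / 2 ^ 10 ≤ K := div_le_self hK0.le (by norm_num)
    nlinarith
  have hS := Sg_sum hP hf hA hgood
  obtain ⟨x0, s0, hW0, hD0⟩ := hgood
  have hh0 := heavy_card (x := x0) (s := s0) hP hf hA hW0 hD0
  set h0 := (H0 A T).card with hh0def
  set h1 := (H1 A T).card with hh1def
  set δ' : ℝ := 1024 * (1 / 2 ^ 40) + exp (-1024) with hδ'
  have hδ1 : δ' ≤ 1 / 2 ^ 29 := by
    rw [hδ']
    norm_num at hexp3 ⊢
    linarith
  have hδ0 : 0 ≤ δ' := by positivity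
  have hh : ((h0 + h1 : ℕ) : ℝ) ≤ 2 ^ 15 := by
    have e1 := Real.log_two_gt_d9
    have e2 := log_two_le
    have e3 : (0 : ℝ) ≤ ((h0 + h1 : ℕ) : ℝ) := Nat.cast_nonneg _
    have e5 : ((h0 + h1 : ℕ) : ℝ) * (0.6) ≤ ((h0 + h1 : ℕ) : ℝ) * (log 2 - δ') := by
      refine mul_le_mul_of_nonneg_left ?_ e3
      norm_num at hδ1
      norm_num
      linarith
    norm_num at e5 ⊢
    push_cast at hh0
    linarith
  have hh0' : (h0 : ℝ) ≤ 2 ^ 15 := by
    push_cast at hh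
    have : (0 : ℝ) ≤ h1 := Nat.cast_nonneg _
    linarith
  have hh1' : (h1 : ℝ) ≤ 2 ^ 15 := by
    push_cast at hh
    have : (0 : ℝ) ≤ h0 := Nat.cast_nonneg _
    linarith
  -- main part
  have hA1 : ((h0 + h1 : ℕ) : ℝ) * (Fintype.card I) *
        (exp (-(((h0 + h1 : ℕ) : ℝ) * (log 2 - δ'))) *
          (2 * exp (1024 * (1 / 2 ^ 18 + 1 / 2 ^ 40)) +
            5 * exp (1024 * (1 / 2 ^ 18 + 1 / 2 ^ 40) - 7))) ≤ K * exp (1 / 40) := by
    rw [hcard]
    generalize h0 + h1 = n at hh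
    have e1 : exp (-((n : ℝ) * (log 2 - δ'))) = (1 / 2) ^ n * exp (n * δ') := by
      rw [show -((n : ℝ) * (log 2 - δ')) = n * (- log 2) + n * δ' by ring, Real.exp_add,
        Real.exp_nat_mul, Real.exp_neg, Real.exp_log (by norm_num)]
      norm_num
    have e2 : 2 * exp (1024 * (1 / 2 ^ 18 + 1 / 2 ^ 40)) +
            5 * exp (1024 * (1 / 2 ^ 18 + 1 / 2 ^ 40) - 7) ≤ 2 * exp (3 / 128 + 1 / 2 ^ 12) := by
      have a1 : exp (1024 * (1 / 2 ^ 18 + 1 / 2 ^ 40) - 7 : ℝ) ≤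
          exp (1024 * (1 / 2 ^ 18 + 1 / 2 ^ 40)) * (1 / 128) := by
        rw [sub_eq_add_neg, Real.exp_add]
        refine mul_le_mul_of_nonneg_left ?_ (exp_pos _).le
        have := exp_neg_le 7
        norm_num at this ⊢
        exact this
      have a2 : exp (1024 * (1 / 2 ^ 18 + 1 / 2 ^ 40) : ℝ) * (1 + 5 / 256) ≤
          exp (3 / 128 + 1 / 2 ^ 12) := by
        have a3 := Real.add_one_le_exp (5 / 256 : ℝ)
        calc exp (1024 * (1 / 2 ^ 18 + 1 / 2 ^ 40) : ℝ) * (1 + 5 / 256) ≤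
              exp (1024 * (1 / 2 ^ 18 + 1 / 2 ^ 40)) * exp (5 / 256) :=
              mul_le_mul_of_nonneg_left (by linarith) (exp_pos _).le
          _ = exp (1024 * (1 / 2 ^ 18 + 1 / 2 ^ 40) + 5 / 256) := by rw [Real.exp_add]
          _ ≤ exp (3 / 128 + 1 / 2 ^ 12) := Real.exp_le_exp.2 (by norm_num)
      linarith
    have e3 : exp ((n : ℝ) * δ') ≤ exp (1 / 2 ^ 14) := by
      refine Real.exp_le_exp.2 ?_
      calc (n : ℝ) * δ' ≤ 2 ^ 15 * (1 / 2 ^ 29) := mul_le_mul hh hδ1 hδ0 (by positivity)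
        _ = 1 / 2 ^ 14 := by norm_num
    have e4 := nat_mul_half_pow n
    calc (n : ℝ) * K * (exp (-((n : ℝ) * (log 2 - δ'))) *
          (2 * exp (1024 * (1 / 2 ^ 18 + 1 / 2 ^ 40)) +
            5 * exp (1024 * (1 / 2 ^ 18 + 1 / 2 ^ 40) - 7)))
        = K * (n * (1 / 2) ^ n) * (exp (n * δ') *
          (2 * exp (1024 * (1 / 2 ^ 18 + 1 / 2 ^ 40)) +
            5 * exp (1024 * (1 / 2 ^ 18 + 1 / 2 ^ 40) - 7))) := by rw [e1]; ring
      _ ≤ K * (1 / 2) * (exp (1 / 2 ^ 14) * (2 * exp (3 / 128 + 1 / 2 ^ 12))) := by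
          refine mul_le_mul (mul_le_mul_of_nonneg_left e4 hK0.le)
            (mul_le_mul e3 e2 (by positivity) (exp_pos _).le) (by positivity) (by positivity)
      _ = K * exp (1 / 2 ^ 14 + (3 / 128 + 1 / 2 ^ 12)) := by
          rw [Real.exp_add (1 / 2 ^ 14)]; ring
      _ ≤ K * exp (1 / 40) := by
          refine mul_le_mul_of_nonneg_left (Real.exp_le_exp.2 (by norm_num)) hK0.le
  have hQK : Q * 2 ^ 90 ≤ K := by
    refine le_trans ?_ hKQ
    calc Q * 2 ^ 90 = Q * 2 ^ 60 * 2 ^ 30 := by ring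
      _ ≤ Q * Q * 2 ^ 30 := by
          refine mul_le_mul_of_nonneg_right ?_ (by positivity)
          exact mul_le_mul_of_nonneg_left hQ60 hQ0.le
  have hB1 : ((h0 + h1 : ℕ) : ℝ) *
      (5 * (32 * (16384 + log 3) / (1 / 2 ^ 18) ^ 2 * exp 1024)) ≤ K / 2 ^ 10 := by
    have e1 : 32 * (16384 + log 3) / (1 / 2 ^ 18) ^ 2 ≤ (2 : ℝ) ^ 56 := by
      have := log_three_le
      rw [div_le_iff₀ (by positivity)]
      norm_num
      linarith
    have e10 : 0 ≤ 32 * (16384 + log 3) / (1 / 2 ^ 18 : ℝ) ^ 2 := by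
      have := Real.log_nonneg (by norm_num : (1 : ℝ) ≤ 3)
      positivity
    calc ((h0 + h1 : ℕ) : ℝ) * (5 * (32 * (16384 + log 3) / (1 / 2 ^ 18) ^ 2 * exp 1024)) ≤
          2 ^ 15 * (2 ^ 3 * (2 ^ 56 * Q)) := by
          refine mul_le_mul hh ?_ (by positivity) (by positivity)
          refine mul_le_mul (by norm_num) ?_ (by positivity) (by positivity)
          exact mul_le_mul e1 hexp1 (exp_pos _).le (by positivity)
      _ = Q * 2 ^ 74 := by ring
      _ ≤ K / 2 ^ 10 := by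
          rw [le_div_iff₀ (by positivity)]
          refine le_trans ?_ hQK
          norm_num
          linarith
  have hC1 : 5 * ((h0 : ℝ) * h1) * exp 1024 ≤ K / 2 ^ 10 := by
    calc 5 * ((h0 : ℝ) * h1) * exp 1024 ≤ 2 ^ 3 * (2 ^ 15 * 2 ^ 15) * Q := by
          refine mul_le_mul ?_ hexp1 (exp_pos _).le (by positivity)
          refine mul_le_mul (by norm_num) ?_ (by positivity) (by positivity)
          exact mul_le_mul hh0' hh1' (Nat.cast_nonneg _) (by positivity)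
      _ = Q * 2 ^ 33 := by ring
      _ ≤ K / 2 ^ 10 := by
          rw [le_div_iff₀ (by positivity)]
          refine le_trans ?_ hQK
          norm_num
          linarith
  have hD1 : 5 * ((T : ℝ) * T * (16384 + log 2) / log (4 / 3)) *
      exp 1024 ≤ K / 2 ^ 10 := by
    have e1 := log_two_le
    have e2 := log_four_third_ge
    have e3 := log_two_ge
    rw [hTQ]
    have e4 : (Q * (16384 + log 2) / log (4 / 3)) ≤ (Q * 2 ^ 15) * 2 ^ 2 := by
      rw [div_le_iff₀ (by linarith)]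
      calc Q * (16384 + log 2) ≤ Q * 2 ^ 15 := by
            refine mul_le_mul_of_nonneg_left ?_ hQ0.le
            norm_num
            linarith
        _ = Q * 2 ^ 15 * 2 ^ 2 * (1 / 4) := by ring
        _ ≤ Q * 2 ^ 15 * 2 ^ 2 * log (4 / 3) := by
            refine mul_le_mul_of_nonneg_left e2 (by positivity)
    have e5 : 0 ≤ (Q * (16384 + log 2) / log (4 / 3)) :=
      div_nonneg (mul_nonneg hQ0.le (by linarith)) (by linarith)
    calc 5 * (Q * (16384 + log 2) / log (4 / 3)) *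
          exp 1024 ≤ 2 ^ 3 * ((Q * 2 ^ 15) * 2 ^ 2) * Q := by
          refine mul_le_mul ?_ hexp1 (exp_pos _).le (by positivity)
          exact mul_le_mul (by norm_num) e4 e5 (by positivity)
      _ = Q * Q * 2 ^ 20 := by ring
      _ ≤ K / 2 ^ 10 := by
          rw [le_div_iff₀ (by positivity)]
          refine le_trans ?_ hKQ
          have : 0 < Q * Q := by positivity
          norm_num
          linarith
  have hKfin : K * exp (1 / 40) + K / 160 ≤ K * exp (1 / 32) := by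
    have := mul_le_mul_of_nonneg_left hfin hK0.le
    linarith
  have hsm : 4 * (K / 2 ^ 10) ≤ K / 160 := by
    norm_num
    linarith
  have hS' : ∑ x ∈ A, ∑ s : ZMod 5, Sg 1024 (1 / 16) 16384 f x s ≤
      K * exp (1 / 40) + K / 2 ^ 10 + K / 2 ^ 10 + K / 2 ^ 10 :=
    hS.trans (add_le_add (add_le_add (add_le_add hA1 hB1) hC1) hD1)
  linarith

theorem main_bound (hK : Fintype.card I = 2 ^ 8192) (hf : ∀ s z, 0 ≤ f s z) (hA : Compat f A) :
    ∑ x ∈ A, ∑ s : ZMod 5, Sf 1024 (1 / 16) f x s ≤ (Fintype.card I : ℝ) * exp (1 / 32) := by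
  have hcard : ((Fintype.card I : ℕ) : ℝ) = (2 : ℝ) ^ 8192 := by rw [hK]; exact Nat.cast_pow 2 8192
  refine main_bound_aux (Fintype.card I : ℝ) ((2 : ℝ) ^ 2048) ((2 : ℝ) ^ 15360) (2 ^ 1024) rfl
    ?_ ?_ ?_ ?_ ?_ ?_ ?_ ?_ par hf hA
  · have h := exp_le_four_pow 1024
    have e : ((1024 : ℕ) : ℝ) = 1024 := Nat.cast_ofNat
    rw [e] at h
    exact h
  · exact pow_le_pow_right₀ one_le_two (by norm_num)
  · have e : ((2 ^ 1024 : ℕ) : ℝ) = (2 : ℝ) ^ 1024 := Nat.cast_pow 2 1024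
    rw [e, ← pow_add]
  · rw [hcard, ← pow_add, ← pow_add]
    exact pow_le_pow_right₀ one_le_two (by norm_num)
  · exact pow_pos two_pos _
  · have h := exp_neg_le 15360
    have e : (1024 - 16384 : ℝ) = -((15360 : ℕ) : ℝ) := by
      have : ((15360 : ℕ) : ℝ) = 15360 := Nat.cast_ofNat
      rw [this]; norm_num
    rw [e]; exact h
  · rw [hcard, ← pow_add]
    exact pow_le_pow_right₀ one_le_two (by norm_num)
  · have h := exp_neg_le 1024
    have e : ((1024 : ℕ) : ℝ) = 1024 := Nat.cast_ofNat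
    rw [e] at h
    refine h.trans ?_
    rw [one_div]
    exact inv_anti₀ (pow_pos two_pos _) (pow_le_pow_right₀ one_le_two (by norm_num))

end Pool.Agent.Helper72K9.EIC
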