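import Mathlib

/-!
# Two-party protocols, external information and expected communication
-/

set_option autoImplicit false

namespace Pool.Agent.Helper72K9.EIC

open MeasureTheory
open scoped ENNReal

/-- A two-party interactive protocol with inputs `x : X` of Alice and `y : Y` of Bob and answers in
`Z`. The randomness consists of a public part `r : ΩP` and of private parts `a : ΩA`, `b : ΩB` (three
independent probability spaces, all three may be trivial). A history is the list of the bits sent so
far. The public randomness and the history decide whether the conversation stops and who sends the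
next bit. The number of bits need not be bounded. After the conversation has stopped, either Alice or
Bob gives the answer, from all that she or he has seen (if the answer is to be a function of the
transcript alone, take `answerA` and `answerB` to depend on the transcript alone). -/
structure Protocol (X Y Z : Type) where
  /-- public randomness -/
  ΩP : Type
  /-- private randomness of Alice -/
  ΩA : Type
  /-- private randomness of Bob -/
  ΩB : Type
  [mP : MeasurableSpace ΩP]
  [mA : MeasurableSpace ΩA]
  [mB : MeasurableSpace ΩB]
  /-- law of the public randomness -/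
  P : Measure ΩP
  /-- law of the private randomness of Alice -/
  PA : Measure ΩA
  /-- law of the private randomness of Bob -/
  PB : Measure ΩB
  [probP : IsProbabilityMeasure P]
  [probA : IsProbabilityMeasure PA]
  [probB : IsProbabilityMeasure PB]
  /-- the conversation stops -/
  stop : ΩP → List Bool → Bool
  /-- the next bit is sent by Alice -/
  aliceSpeaks : ΩP → List Bool → Bool
  /-- the next bit if it is sent by Alice -/
  bitA : ΩP → List Bool → X → ΩA → Bool
  /-- the next bit if it is sent by Bob -/
  bitB : ΩP → List Bool → Y → ΩB → Bool
  /-- the answer is given by Alice -/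
  aliceAnswers : ΩP → List Bool → Bool
  /-- the answer if it is given by Alice -/
  answerA : ΩP → List Bool → X → ΩA → Z
  /-- the answer if it is given by Bob -/
  answerB : ΩP → List Bool → Y → ΩB → Z
  measurable_stop : ∀ h, Measurable fun r => stop r h
  measurable_aliceSpeaks : ∀ h, Measurable fun r => aliceSpeaks r h
  measurable_bitA : ∀ h x, Measurable fun w : ΩP × ΩA => bitA w.1 h x w.2
  measurable_bitB : ∀ h y, Measurable fun w : ΩP × ΩB => bitB w.1 h y w.2

attribute [instance] Protocol.mP Protocol.mA Protocol.mB Protocol.probP Protocol.probA
  Protocol.probB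

namespace Protocol

variable {X Y Z : Type}

/-- the bit sent after the history `h` -/
def next (π : Protocol X Y Z) (r : π.ΩP) (x : X) (a : π.ΩA) (y : Y) (b : π.ΩB) (h : List Bool) :
    Bool :=
  if π.aliceSpeaks r h = true then π.bitA r h x a else π.bitB r h y b

/-- `m` is the complete transcript of the conversation -/
def IsTranscript (π : Protocol X Y Z) (r : π.ΩP) (x : X) (a : π.ΩA) (y : Y) (b : π.ΩB)
    (m : List Bool) : Prop :=
  (∀ (i : ℕ) (hi : i < m.length),
    π.stop r (m.take i) = false ∧ m[i] = π.next r x a y b (m.take i)) ∧ π.stop r m = true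

/-- the answer after the transcript `m` -/
def answer (π : Protocol X Y Z) (r : π.ΩP) (x : X) (a : π.ΩA) (y : Y) (b : π.ΩB)
    (m : List Bool) : Z :=
  if π.aliceAnswers r m = true then π.answerA r m x a else π.answerB r m y b

/-- For every input and every outcome of the randomness the protocol stops with the answer
`F x y`. -/
def ZeroError (π : Protocol X Y Z) (F : X → Y → Z) : Prop :=
  ∀ r x a y b, ∃ m, π.IsTranscript r x a y b m ∧ π.answer r x a y b m = F x y

/-- the probability of the transcript `m` on the inputs `x` and `y`, given the outcome `r` of the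
public randomness -/
noncomputable def prob (π : Protocol X Y Z) (r : π.ΩP) (x : X) (y : Y) (m : List Bool) : ℝ :=
  ((π.PA.prod π.PB) {w : π.ΩA × π.ΩB | π.IsTranscript r x w.1 y w.2 m}).toReal

/-- the mutual information, in bits, between the pair of inputs drawn from `μ` and the transcript,
given the outcome `r` of the public randomness -/
noncomputable def infoAt [Fintype X] [Fintype Y] (π : Protocol X Y Z) (μ : X × Y → ℝ)
    (r : π.ΩP) : ℝ≥0∞ :=
  ∑' m : List Bool, ENNReal.ofReal (∑ p : X × Y, μ p * (π.prob r p.1 p.2 m *
    Real.logb 2 (π.prob r p.1 p.2 m / ∑ q : X × Y, μ q * π.prob r q.1 q.2 m)))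

/-- The external information `I(Π; XY)`, in bits, where `Π` consists of the public randomness and of
the transcript. (The public randomness is independent of the inputs, so that
`I(Π; XY) = I(transcript; XY | public randomness)`.) -/
noncomputable def extInfo [Fintype X] [Fintype Y] (π : Protocol X Y Z) (μ : X × Y → ℝ) : ℝ≥0∞ :=
  ∫⁻ r, π.infoAt μ r ∂π.P

/-- the expected number of bits sent, the inputs being drawn from `μ` -/
noncomputable def cost [Fintype X] [Fintype Y] (π : Protocol X Y Z) (μ : X × Y → ℝ) : ℝ≥0∞ :=
  ∫⁻ r, ∑' m : List Bool,
    ENNReal.ofReal (∑ p : X × Y, μ p * π.prob r p.1 p.2 m) * (m.length : ℝ≥0∞) ∂π.P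

/-- The most restricted kind of protocol: it uses no randomness, its number of bits is bounded, and
its answer is a function of the transcript. -/
def Elementary (π : Protocol X Y Z) : Prop :=
  ∃ (stop' speaks' : List Bool → Bool) (bitA' : List Bool → X → Bool)
    (bitB' : List Bool → Y → Bool) (answer' : List Bool → Z) (D : ℕ), ∀ r h,
    π.stop r h = stop' h ∧ π.aliceSpeaks r h = speaks' h ∧
    (∀ x a, π.bitA r h x a = bitA' h x ∧ π.answerA r h x a = answer' h) ∧
    (∀ y b, π.bitB r h y b = bitB' h y ∧ π.answerB r h y b = answer' h) ∧
    (D ≤ h.length → stop' h = true)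

end Protocol

/-- the zero-error external information complexity `IC^ext(F, 0, μ)` -/
noncomputable def ICext {X Y Z : Type} [Fintype X] [Fintype Y] (F : X → Y → Z)
    (μ : X × Y → ℝ) : ℝ≥0∞ :=
  ⨅ (π : Protocol X Y Z) (_ : π.ZeroError F), π.extInfo μ

/-- the expected zero-error communication complexity of `F` under `μ` -/
noncomputable def CCbar {X Y Z : Type} [Fintype X] [Fintype Y] (F : X → Y → Z)
    (μ : X × Y → ℝ) : ℝ≥0∞ :=
  ⨅ (π : Protocol X Y Z) (_ : π.ZeroError F), π.cost μ

/-- `F` on `n` independent coordinates -/
def powF {X Y Z : Type} (F : X → Y → Z) (n : ℕ) : (Fin n → X) → (Fin n → Y) → (Fin n → Z) :=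
  fun x y i => F (x i) (y i)

/-- the product distribution of `n` independent pairs of inputs -/
noncomputable def powμ {X Y : Type} (μ : X × Y → ℝ) (n : ℕ) : (Fin n → X) × (Fin n → Y) → ℝ :=
  fun p => ∏ i, μ (p.1 i, p.2 i)

end Pool.Agent.Helper72K9.EIC
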