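import Pool.Agent.Helper72K9.EIC.Core7

/-!
# The inequality for one transcript and the bound for a family of transcripts
-/

set_option autoImplicit false
set_option linter.unusedSectionVars false
set_option linter.unusedSimpArgs false

namespace Pool.Agent.Helper72K9.EIC

open Finset Real

variable {I : Type} [Fintype I] [DecidableEq I]

/-- inputs of Alice -/
abbrev AX (I : Type) := (I × I) × ZMod 5

/-- inputs of Bob -/
abbrev BY (I : Type) := Tab I × ZMod 5

/-- the function -/
def Fz (x : AX I) (y : BY I) : Bool := y.1.1 x.1.1 || y.1.2 x.1.2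

/-- number of inputs of Alice -/
noncomputable def NN (I : Type) [Fintype I] : ℝ := 5 * ((Fintype.card I : ℝ) * Fintype.card I)

/-- The general shape of the three reference measures: with weight one half, the tables are in the
class `C0` and `s'` is given by `σ0 s`; with weight one half they are in the class `C1` and `s'` is
given by `σ1 s`. -/
noncomputable def mz (C0 C1 : Bool → Bool → Bool) (σ0 σ1 : ZMod 5 → ZMod 5) (p : AX I × BY I) : ℝ :=
  ((if p.2.2 = σ0 p.1.2 ∧ C0 (p.2.1.1 p.1.1.1) (p.2.1.2 p.1.1.2) = true then 1 else 0) +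
   (if p.2.2 = σ1 p.1.2 ∧ C1 (p.2.1.1 p.1.1.1) (p.2.1.2 p.1.1.2) = true then 1 else 0)) *
    (2 * P0 I / NN I)

theorem sum_mz (C0 C1 : Bool → Bool → Bool) (σ0 σ1 : ZMod 5 → ZMod 5) (G : AX I × BY I → ℝ) :
    ∑ p, mz C0 C1 σ0 σ1 p * G p = (∑ x : AX I,
      2 * (U (fun z => if C0 (z.1 x.1.1) (z.2 x.1.2) = true then G (x, (z, σ0 x.2)) else 0) +
        U (fun z => if C1 (z.1 x.1.1) (z.2 x.1.2) = true then G (x, (z, σ1 x.2)) else 0))) / NN I := by
  rw [Fintype.sum_prod_type, Finset.sum_div]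
  refine Finset.sum_congr rfl fun x _ => ?_
  rw [Fintype.sum_prod_type]
  unfold U
  rw [← add_mul, ← Finset.sum_add_distrib, mul_comm (2 : ℝ), mul_assoc, Finset.sum_mul,
    Finset.sum_div]
  refine Finset.sum_congr rfl fun z _ => ?_
  unfold mz
  simp only
  have key : ∀ (C : Bool → Bool → Bool) (σ : ZMod 5 → ZMod 5),
      ∑ y : ZMod 5, (if y = σ x.2 ∧ C (z.1 x.1.1) (z.2 x.1.2) = true then (1 : ℝ) else 0) *
        (2 * P0 I / NN I) * G (x, (z, y)) =
      (if C (z.1 x.1.1) (z.2 x.1.2) = true then G (x, (z, σ x.2)) else 0) *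
        (2 * P0 I / NN I) := by
    intro C σ
    rw [Finset.sum_eq_single (σ x.2)]
    · by_cases h : C (z.1 x.1.1) (z.2 x.1.2) = true
      · simp only [h, and_self, if_true]; ring
      · simp [h]
    · intro y _ hy
      simp [hy]
    · intro h
      exact absurd (Finset.mem_univ _) h
  calc _ = ∑ y : ZMod 5, ((if y = σ0 x.2 ∧ C0 (z.1 x.1.1) (z.2 x.1.2) = true then (1 : ℝ) else 0) *
        (2 * P0 I / NN I) * G (x, (z, y)) +
        (if y = σ1 x.2 ∧ C1 (z.1 x.1.1) (z.2 x.1.2) = true then (1 : ℝ) else 0) *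
        (2 * P0 I / NN I) * G (x, (z, y))) := by
        refine Finset.sum_congr rfl fun y _ => ?_
        ring
    _ = _ := by
        rw [Finset.sum_add_distrib, key, key]
        ring

/-- the class where exactly the first entry is valid -/
def cl0 (b b' : Bool) : Bool := b && !b'

/-- the class where exactly the second entry is valid -/
def cl1 (b b' : Bool) : Bool := !b && b'

/-- the class where both entries are valid -/
def cl2 (b b' : Bool) : Bool := b && b'

/-- the input distribution -/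
noncomputable def μz : AX I × BY I → ℝ := mz cl0 cl1 (fun s => s) (fun s => s + 1)

noncomputable def μo : AX I × BY I → ℝ := mz cl2 cl2 (fun s => s) (fun s => s + 1)

noncomputable def μm : AX I × BY I → ℝ := mz cl0 cl1 (fun s => s - 1) (fun s => s + 2)

theorem U_quarter (i j : I) (C : Bool → Bool → Bool)
    (hC : (if C true true then (1 : ℝ) else 0) + (if C true false then 1 else 0) +
      (if C false true then 1 else 0) + (if C false false then 1 else 0) = 1) :
    U (fun z : Tab I => if C (z.1 i) (z.2 j) = true then (1 : ℝ) else 0) = 1 / 4 := by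
  have h1 : ∀ b b' : Bool, U (fun z : Tab I => if z.1 i = b ∧ z.2 j = b' then (1 : ℝ) else 0) =
      1 / 4 := by
    intro b b'
    have h := U_prod_sub (I := I) {i} {j} (fun c => if c = b then 1 else 0)
      (fun c => if c = b' then 1 else 0)
    simp only [Finset.prod_singleton, Finset.card_singleton, pow_one] at h
    have e : (fun z : Tab I => if z.1 i = b ∧ z.2 j = b' then (1 : ℝ) else 0) =
        fun z => (if z.1 i = b then (1 : ℝ) else 0) * (if z.2 j = b' then 1 else 0) := by
      funext z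
      by_cases h1 : z.1 i = b <;> by_cases h2 : z.2 j = b' <;> simp [h1, h2]
    rw [e, h]
    cases b <;> cases b' <;> norm_num
  have h2 : (fun z : Tab I => if C (z.1 i) (z.2 j) = true then (1 : ℝ) else 0) =
      fun z => ((if C true true then (1 : ℝ) else 0) * (if z.1 i = true ∧ z.2 j = true then (1 : ℝ) else 0) +
        (if C true false then (1 : ℝ) else 0) * (if z.1 i = true ∧ z.2 j = false then (1 : ℝ) else 0)) +
        ((if C false true then (1 : ℝ) else 0) * (if z.1 i = false ∧ z.2 j = true then (1 : ℝ) else 0) +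
        (if C false false then (1 : ℝ) else 0) * (if z.1 i = false ∧ z.2 j = false then (1 : ℝ) else 0)) := by
    funext z
    cases z.1 i <;> cases z.2 j <;> simp
  rw [h2, U_add, U_add, U_add, U_smul, U_smul, U_smul, U_smul, h1, h1, h1, h1]
  linarith

theorem NN_pos (h : 0 < Fintype.card I) : 0 < NN I := by
  unfold NN
  have : (0 : ℝ) < Fintype.card I := by exact_mod_cast h
  positivity

theorem mz_nonneg (C0 C1 : Bool → Bool → Bool) (σ0 σ1 : ZMod 5 → ZMod 5) (p : AX I × BY I) :
    0 ≤ mz C0 C1 σ0 σ1 p := by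
  unfold mz
  have h1 := P0_pos (I := I)
  have h2 : 0 ≤ NN I := by unfold NN; positivity
  have h3 : ∀ (q : Prop) [Decidable q], (0 : ℝ) ≤ (if q then 1 else 0) := by
    intro q _; split_ifs <;> norm_num
  exact mul_nonneg (add_nonneg (h3 _) (h3 _)) (div_nonneg (by positivity) h2)

theorem mz_sum (hI : 0 < Fintype.card I) (C0 C1 : Bool → Bool → Bool) (σ0 σ1 : ZMod 5 → ZMod 5)
    (h0 : (if C0 true true then (1 : ℝ) else 0) + (if C0 true false then 1 else 0) +
      (if C0 false true then 1 else 0) + (if C0 false false then 1 else 0) = 1)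
    (h1 : (if C1 true true then (1 : ℝ) else 0) + (if C1 true false then 1 else 0) +
      (if C1 false true then 1 else 0) + (if C1 false false then 1 else 0) = 1) :
    ∑ p : AX I × BY I, mz C0 C1 σ0 σ1 p = 1 := by
  have h := sum_mz (I := I) C0 C1 σ0 σ1 (fun _ => 1)
  simp only [mul_one] at h
  rw [h]
  have h2 : ∀ x : AX I,
      2 * (U (fun z : Tab I => if C0 (z.1 x.1.1) (z.2 x.1.2) = true then (1 : ℝ) else 0) +
        U (fun z => if C1 (z.1 x.1.1) (z.2 x.1.2) = true then 1 else 0)) = 1 := by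
    intro x
    rw [U_quarter _ _ C0 h0, U_quarter _ _ C1 h1]
    norm_num
  rw [Finset.sum_congr rfl fun x _ => h2 x]
  simp only [Finset.sum_const, Finset.card_univ, Fintype.card_prod, ZMod.card, nsmul_eq_mul, mul_one]
  rw [div_eq_one_iff_eq (NN_pos hI).ne']
  unfold NN
  push_cast
  ring

/-- the density of Bob's inputs as a function of `s'` and the tables -/
def fb (b : BY I → ℝ) : ZMod 5 → Tab I → ℝ := fun s z => b (z, s)

theorem sum_μz (a : AX I → ℝ) (b : BY I → ℝ) (Λ : ℝ → ℝ) (hΛ : Λ 0 = 0) :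
    ∑ p : AX I × BY I, μz p * Λ (a p.1 * b p.2) =
      (∑ x : AX I, 2 * U (fun z => Λ (a x * hh (fb b) x.1 x.2 z))) / NN I := by
  unfold μz
  rw [sum_mz (I := I) cl0 cl1 (fun s => s) (fun s => s + 1) (fun p => Λ (a p.1 * b p.2))]
  congr 1
  refine Finset.sum_congr rfl fun x _ => ?_
  rw [← U_add]
  congr 2
  funext z
  unfold hh fb cl0 cl1
  cases h1 : z.1 x.1.1 <;> cases h2 : z.2 x.1.2 <;> simp [h1, h2, hΛ]

theorem sum_μz_lam (a : AX I → ℝ) (b : BY I → ℝ) :
    ∑ p : AX I × BY I, μz p * (a p.1 * b p.2) =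
      (∑ x : AX I, a x * Wf (fb b) x.1 x.2) / NN I := by
  have h := sum_μz a b (fun t => t) rfl
  rw [h]
  congr 1
  refine Finset.sum_congr rfl fun x _ => ?_
  rw [U_smul]
  unfold Wf
  ring

theorem sum_μo_lam (a : AX I → ℝ) (b : BY I → ℝ) :
    ∑ p : AX I × BY I, μo p * (a p.1 * b p.2) =
      (∑ x : AX I, a x * Wo (fb b) x.1 x.2) / NN I := by
  unfold μo
  rw [sum_mz (I := I) cl2 cl2 (fun s => s) (fun s => s + 1) (fun p => a p.1 * b p.2)]
  congr 1
  refine Finset.sum_congr rfl fun x _ => ?_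
  unfold Wo om
  have e : ∀ t : ZMod 5, U (fun z => if cl2 (z.1 x.1.1) (z.2 x.1.2) = true then a x * b (z, t) else 0) =
      a x * U (fun z => if z.1 x.1.1 = true ∧ z.2 x.1.2 = true then fb b t z else 0) := by
    intro t
    rw [← U_smul]
    congr 1
    funext z
    unfold fb cl2
    cases h1 : z.1 x.1.1 <;> cases h2 : z.2 x.1.2 <;> simp [h1, h2]
  rw [e, e]
  ring

theorem sum_μm_lam (a : AX I → ℝ) (b : BY I → ℝ) :
    ∑ p : AX I × BY I, μm p * (a p.1 * b p.2) =
      (∑ x : AX I, a x * Wm (fb b) x.1 x.2) / NN I := by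
  unfold μm
  rw [sum_mz (I := I) cl0 cl1 (fun s => s - 1) (fun s => s + 2) (fun p => a p.1 * b p.2)]
  congr 1
  refine Finset.sum_congr rfl fun x _ => ?_
  unfold Wm al ga
  have e0 : ∀ t : ZMod 5, U (fun z => if cl0 (z.1 x.1.1) (z.2 x.1.2) = true then a x * b (z, t) else 0) =
      a x * U (fun z => if z.1 x.1.1 = true ∧ z.2 x.1.2 = false then fb b t z else 0) := by
    intro t
    rw [← U_smul]
    congr 1
    funext z
    unfold fb cl0
    cases h1 : z.1 x.1.1 <;> cases h2 : z.2 x.1.2 <;> simp [h1, h2]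
  have e1 : ∀ t : ZMod 5, U (fun z => if cl1 (z.1 x.1.1) (z.2 x.1.2) = true then a x * b (z, t) else 0) =
      a x * U (fun z => if z.1 x.1.1 = false ∧ z.2 x.1.2 = true then fb b t z else 0) := by
    intro t
    rw [← U_smul]
    congr 1
    funext z
    unfold fb cl1
    cases h1 : z.1 x.1.1 <;> cases h2 : z.2 x.1.2 <;> simp [h1, h2]
  rw [e0, e1]
  ring

/-- the term of one input of Alice -/
theorem term_eq (b : BY I → ℝ) (hb : ∀ y, 0 ≤ b y) (x : AX I) (α P : ℝ) (hα : 0 ≤ α) (hP : 0 < P) :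
    2 * U (fun z => (α * hh (fb b) x.1 x.2 z) * log ((α * hh (fb b) x.1 x.2 z) / P)) =
      α * Wf (fb b) x.1 x.2 * (Df (fb b) x.1 x.2 + log (α * Wf (fb b) x.1 x.2 / P)) := by
  have hf : ∀ s z, 0 ≤ fb b s z := fun s z => hb _
  rcases hα.eq_or_lt with h0 | h0
  · rw [← h0]; simp [U]
  have h1 : (fun z => (α * hh (fb b) x.1 x.2 z) * log ((α * hh (fb b) x.1 x.2 z) / P)) =
      fun z => α * (hh (fb b) x.1 x.2 z * log (hh (fb b) x.1 x.2 z)) +
        (α * (log α - log P)) * hh (fb b) x.1 x.2 z := by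
    funext z
    by_cases h : hh (fb b) x.1 x.2 z = 0
    · simp [h]
    · rw [Real.log_div (mul_ne_zero h0.ne' h) hP.ne', Real.log_mul h0.ne' h]
      ring
  rw [h1, U_add, U_smul, U_smul]
  by_cases hW : Wf (fb b) x.1 x.2 = 0
  · have hU : U (hh (fb b) x.1 x.2) = 0 := by
      unfold Wf at hW; linarith
    have hz : ∀ z, hh (fb b) x.1 x.2 z = 0 := by
      unfold U at hU
      have h2 : ∑ z, hh (fb b) x.1 x.2 z = 0 := by
        rcases mul_eq_zero.1 hU with h | h
        · exact h
        · exact absurd h P0_pos.ne'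
      have h3 := (Finset.sum_eq_zero_iff_of_nonneg (fun z _ => hh_nonneg hf z)).1 h2
      exact fun z => h3 z (Finset.mem_univ z)
    rw [hW, hU]
    simp [hz, U]
  · have hW' : 0 < Wf (fb b) x.1 x.2 := lt_of_le_of_ne (Wf_nonneg hf) (Ne.symm hW)
    have e : 2 * U (fun z => hh (fb b) x.1 x.2 z * log (hh (fb b) x.1 x.2 z)) =
        Wf (fb b) x.1 x.2 * (Df (fb b) x.1 x.2 + log (Wf (fb b) x.1 x.2)) := by
      unfold Df
      field_simp
      ring
    have e2 : 2 * U (fun z => hh (fb b) x.1 x.2 z) = Wf (fb b) x.1 x.2 := rfl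
    rw [Real.log_div (mul_ne_zero h0.ne' hW) hP.ne', Real.log_mul h0.ne' hW]
    linear_combination α * e + α * (log α - log P) * e2

/-- the inequality for one transcript -/
theorem transcript_bound (hK : Fintype.card I = 2 ^ 8192) (a : AX I → ℝ) (b : BY I → ℝ)
    (ha : ∀ x, 0 ≤ a x) (hb : ∀ y, 0 ≤ b y)
    (hc : ∀ x y, a x ≠ 0 → b y ≠ 0 → Fz x y = true) :
    (log 5 + log (Fintype.card I) - 1 / 32 + 1024) * (∑ p : AX I × BY I, μz p * (a p.1 * b p.2)) -
      1024 * (∑ p : AX I × BY I, μo p * (a p.1 * b p.2)) -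
      1 / 16 * (∑ p : AX I × BY I, μm p * (a p.1 * b p.2)) ≤
    ∑ p : AX I × BY I, μz p * ((a p.1 * b p.2) *
      log ((a p.1 * b p.2) / ∑ q : AX I × BY I, μz q * (a q.1 * b q.2))) := by
  classical
  have hI : 0 < Fintype.card I := by rw [hK]; exact Nat.pow_pos (by norm_num)
  have hN := NN_pos hI
  have hf : ∀ s z, 0 ≤ fb b s z := fun s z => hb _
  set P := ∑ q : AX I × BY I, μz q * (a q.1 * b q.2) with hPdef
  have hPeq := sum_μz_lam a b
  rw [← hPdef] at hPeq
  have hPo := sum_μo_lam a b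
  have hPm := sum_μm_lam a b
  have hP0 : 0 ≤ P := Finset.sum_nonneg fun p _ =>
    mul_nonneg (mz_nonneg _ _ _ _ _) (mul_nonneg (ha _) (hb _))
  have hPo0 : 0 ≤ ∑ p : AX I × BY I, μo p * (a p.1 * b p.2) := Finset.sum_nonneg fun p _ =>
    mul_nonneg (mz_nonneg _ _ _ _ _) (mul_nonneg (ha _) (hb _))
  have hPm0 : 0 ≤ ∑ p : AX I × BY I, μm p * (a p.1 * b p.2) := Finset.sum_nonneg fun p _ =>
    mul_nonneg (mz_nonneg _ _ _ _ _) (mul_nonneg (ha _) (hb _))
  rcases hP0.eq_or_lt with hPz | hPpos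
  · rw [← hPz]
    simp only [div_zero, Real.log_zero, mul_zero, Finset.sum_const_zero, zero_sub]
    linarith
  -- the left hand side
  have hLHS := sum_μz a b (fun t => t * log (t / P)) (by simp)
  rw [hLHS]
  have hterm : ∀ x : AX I, 2 * U (fun z => (a x * hh (fb b) x.1 x.2 z) *
      log ((a x * hh (fb b) x.1 x.2 z) / P)) =
      a x * Wf (fb b) x.1 x.2 * (Df (fb b) x.1 x.2 + log (a x * Wf (fb b) x.1 x.2 / P)) :=
    fun x => term_eq b hb x (a x) P (ha x) hPpos
  rw [Finset.sum_congr rfl fun x _ => hterm x]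
  set q : AX I → ℝ := fun x => a x * Wf (fb b) x.1 x.2 / (NN I * P) with hq
  have hq0 : ∀ x, 0 ≤ q x := fun x =>
    div_nonneg (mul_nonneg (ha x) (Wf_nonneg hf)) (by positivity)
  have hq1 : ∑ x, q x = 1 := by
    rw [hq]
    simp only
    rw [← Finset.sum_div, ← div_div, ← hPeq, div_self hPpos.ne']
  have hqW : ∀ x, q x ≠ 0 → a x ≠ 0 ∧ Wf (fb b) x.1 x.2 ≠ 0 := by
    intro x hx
    refine ⟨fun h => hx ?_, fun h => hx ?_⟩ <;> simp [hq, h]
  set A : Finset (I × I) := Finset.univ.filter (fun x => ∃ s, a (x, s) ≠ 0) with hA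
  have hcompat : Compat (fb b) A := by
    intro x hx s z hz
    rw [hA, Finset.mem_filter] at hx
    obtain ⟨-, s', hs'⟩ := hx
    have h := hc (x, s') (z, s) hs' hz
    unfold Fz at h
    rw [Bool.or_eq_true] at h
    exact h
  have hmain := main_bound hK hf hcompat
  have hG := gibbs (Finset.univ : Finset (AX I)) q
    (fun x => Df (fb b) x.1 x.2 + Ef 1024 (1 / 16) (fb b) x.1 x.2) (fun x _ => hq0 x) hq1
    ((Fintype.card I : ℝ) * exp (1 / 32)) ?_
  swap
  · refine le_trans ?_ hmain
    have h1 : ∀ x ∈ (Finset.univ : Finset (AX I)).filter (fun x => q x ≠ 0),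
        exp (-(Df (fb b) x.1 x.2 + Ef 1024 (1 / 16) (fb b) x.1 x.2)) =
        Sf 1024 (1 / 16) (fb b) x.1 x.2 := by
      intro x hx
      rw [Finset.mem_filter] at hx
      unfold Sf
      rw [if_neg (hqW x hx.2).2]
      congr 1
      ring
    rw [Finset.sum_congr rfl h1, ← Finset.sum_product']
    refine Finset.sum_le_sum_of_subset_of_nonneg ?_ ?_
    · intro x hx
      rw [Finset.mem_filter] at hx
      rw [Finset.mem_product, hA, Finset.mem_filter]
      exact ⟨⟨Finset.mem_univ _, x.2, (hqW x hx.2).1⟩, Finset.mem_univ _⟩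
    · intro x _ _
      unfold Sf
      split_ifs
      · exact le_rfl
      · exact (exp_pos _).le
  have hKpos : (0 : ℝ) < Fintype.card I := by exact_mod_cast hI
  rw [Real.log_mul hKpos.ne' (exp_pos _).ne', Real.log_exp] at hG
  -- the linear part
  have hlin : ∑ x, q x * Ef 1024 (1 / 16) (fb b) x.1 x.2 ≤
      (1024 * ((∑ p : AX I × BY I, μo p * (a p.1 * b p.2)) - P) +
        1 / 16 * (∑ p : AX I × BY I, μm p * (a p.1 * b p.2))) / P := by
    rw [hPo, hPm]
    have e1 : (1024 * ((∑ x : AX I, a x * Wo (fb b) x.1 x.2) / NN I - P) +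
        1 / 16 * ((∑ x : AX I, a x * Wm (fb b) x.1 x.2) / NN I)) / P =
        ∑ x : AX I, a x * (1024 * (Wo (fb b) x.1 x.2 - Wf (fb b) x.1 x.2) +
          1 / 16 * Wm (fb b) x.1 x.2) / (NN I * P) := by
      have e2 : P = (∑ x : AX I, a x * Wf (fb b) x.1 x.2) / NN I := hPeq
      have e3 : (1024 * ((∑ x : AX I, a x * Wo (fb b) x.1 x.2) / NN I - P) +
        1 / 16 * ((∑ x : AX I, a x * Wm (fb b) x.1 x.2) / NN I)) =
        (∑ x : AX I, a x * (1024 * (Wo (fb b) x.1 x.2 - Wf (fb b) x.1 x.2) +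
          1 / 16 * Wm (fb b) x.1 x.2)) / NN I := by
        rw [e2, ← sub_div, ← mul_div_assoc, ← mul_div_assoc, ← add_div, ← Finset.sum_sub_distrib,
          Finset.mul_sum, Finset.mul_sum, ← Finset.sum_add_distrib]
        congr 1
        refine Finset.sum_congr rfl fun x _ => ?_
        ring
      rw [e3, div_div, Finset.sum_div]
    rw [e1]
    refine Finset.sum_le_sum fun x _ => ?_
    by_cases hW : Wf (fb b) x.1 x.2 = 0
    · have h1 : q x = 0 := by simp [hq, hW]
      rw [h1, zero_mul, hW]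
      have h2 := Wo_nonneg (x := x.1) (s := x.2) hf
      have h3 := Wm_nonneg (x := x.1) (s := x.2) hf
      refine div_nonneg (mul_nonneg (ha x) ?_) (by positivity)
      linarith
    · apply le_of_eq
      simp only [hq, Ef]
      field_simp
  -- conclusion
  have hL : (∑ x : AX I, a x * Wf (fb b) x.1 x.2 *
      (Df (fb b) x.1 x.2 + log (a x * Wf (fb b) x.1 x.2 / P))) / NN I =
      P * (log (NN I) + ∑ x, q x * (log (q x) + Df (fb b) x.1 x.2)) := by
    have e4 : ∀ x : AX I, a x * Wf (fb b) x.1 x.2 *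
      (Df (fb b) x.1 x.2 + log (a x * Wf (fb b) x.1 x.2 / P)) =
      NN I * P * (q x * log (NN I) + q x * (log (q x) + Df (fb b) x.1 x.2)) := by
      intro x
      by_cases hqx : q x = 0
      · have h0 : a x * Wf (fb b) x.1 x.2 = 0 := by
          simp only [hq, div_eq_zero_iff] at hqx
          rcases hqx with h | h
          · exact h
          · exact absurd h (by positivity)
        rw [hqx, h0]; simp
      · have e5 : a x * Wf (fb b) x.1 x.2 / P = NN I * q x := by
          simp only [hq]; field_simp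
        have e6 : a x * Wf (fb b) x.1 x.2 = NN I * P * q x := by
          simp only [hq]; field_simp
        rw [e5, Real.log_mul hN.ne' hqx, e6]
        ring
    rw [Finset.sum_congr rfl fun x _ => e4 x, ← Finset.mul_sum, Finset.sum_add_distrib,
      ← Finset.sum_mul, hq1]
    field_simp
  rw [hL]
  have hNlog : log (NN I) = log 5 + (log (Fintype.card I) + log (Fintype.card I)) := by
    unfold NN
    rw [Real.log_mul (by norm_num) (mul_pos hKpos hKpos).ne', Real.log_mul hKpos.ne' hKpos.ne']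
  have hG2 : ∑ x, q x * (log (q x) + (Df (fb b) x.1 x.2 + Ef 1024 (1 / 16) (fb b) x.1 x.2)) =
      ∑ x, q x * (log (q x) + Df (fb b) x.1 x.2) + ∑ x, q x * Ef 1024 (1 / 16) (fb b) x.1 x.2 := by
    rw [← Finset.sum_add_distrib]
    refine Finset.sum_congr rfl fun x _ => ?_
    ring
  rw [hG2] at hG
  have hfinal : -(log (Fintype.card I) + 1 / 32) -
      (1024 * ((∑ p : AX I × BY I, μo p * (a p.1 * b p.2)) - P) +
        1 / 16 * (∑ p : AX I × BY I, μm p * (a p.1 * b p.2))) / P ≤
      ∑ x, q x * (log (q x) + Df (fb b) x.1 x.2) := by linarith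
  have hm := mul_le_mul_of_nonneg_left hfinal hP0
  have e7 : P * ((1024 * ((∑ p : AX I × BY I, μo p * (a p.1 * b p.2)) - P) +
        1 / 16 * (∑ p : AX I × BY I, μm p * (a p.1 * b p.2))) / P) =
      1024 * ((∑ p : AX I × BY I, μo p * (a p.1 * b p.2)) - P) +
        1 / 16 * (∑ p : AX I × BY I, μm p * (a p.1 * b p.2)) := by
    field_simp
  rw [hNlog]
  rw [mul_sub, e7] at hm
  linarith

end Pool.Agent.Helper72K9.EIC
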