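import Pool.Agent.Helper72K9.EIC.Dual

/-!
# The bound for a family of transcripts
-/

set_option autoImplicit false
set_option linter.unusedSectionVars false
set_option linter.unusedSimpArgs false

namespace Pool.Agent.Helper72K9.EIC

open Finset Real

variable {I : Type} [Fintype I] [DecidableEq I]

theorem mz_supp {C0 C1 : Bool → Bool → Bool} {σ0 σ1 : ZMod 5 → ZMod 5}
    (h0 : ∀ b b', C0 b b' = true → (b || b') = true)
    (h1 : ∀ b b', C1 b b' = true → (b || b') = true) {p : AX I × BY I}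
    (h : mz C0 C1 σ0 σ1 p ≠ 0) : Fz p.1 p.2 = true := by
  unfold mz at h
  unfold Fz
  by_cases c0 : p.2.2 = σ0 p.1.2 ∧ C0 (p.2.1.1 p.1.1.1) (p.2.1.2 p.1.1.2) = true
  · exact h0 _ _ c0.2
  · by_cases c1 : p.2.2 = σ1 p.1.2 ∧ C1 (p.2.1.1 p.1.1.1) (p.2.1.2 p.1.1.2) = true
    · exact h1 _ _ c1.2
    · simp [c0, c1] at h

theorem cl0_supp : ∀ b b', cl0 b b' = true → (b || b') = true := by decide

theorem cl1_supp : ∀ b b', cl1 b b' = true → (b || b') = true := by decide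

theorem cl2_supp : ∀ b b', cl2 b b' = true → (b || b') = true := by decide

theorem μz_supp {p : AX I × BY I} (h : μz p ≠ 0) : Fz p.1 p.2 = true :=
  mz_supp cl0_supp cl1_supp h

theorem μo_supp {p : AX I × BY I} (h : μo p ≠ 0) : Fz p.1 p.2 = true :=
  mz_supp cl2_supp cl2_supp h

theorem μm_supp {p : AX I × BY I} (h : μm p ≠ 0) : Fz p.1 p.2 = true :=
  mz_supp cl0_supp cl1_supp h

theorem μz_sum (hI : 0 < Fintype.card I) : ∑ p : AX I × BY I, μz p = 1 :=
  mz_sum hI _ _ _ _ (by simp [cl0]) (by simp [cl1])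

theorem μo_sum (hI : 0 < Fintype.card I) : ∑ p : AX I × BY I, μo p = 1 :=
  mz_sum hI _ _ _ _ (by simp [cl2]) (by simp [cl2])

theorem μm_sum (hI : 0 < Fintype.card I) : ∑ p : AX I × BY I, μm p = 1 :=
  mz_sum hI _ _ _ _ (by simp [cl0]) (by simp [cl1])

theorem hasSum_mu {T : Type} (lam : T → AX I → BY I → ℝ) (μ : AX I × BY I → ℝ)
    (h1 : ∑ p, μ p = 1) (hsum : ∀ x y, HasSum (fun m => lam m x y) 1) :
    HasSum (fun m => ∑ p : AX I × BY I, μ p * lam m p.1 p.2) 1 := by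
  have h : HasSum (fun m => ∑ p : AX I × BY I, μ p * lam m p.1 p.2)
      (∑ p : AX I × BY I, μ p * 1) :=
    hasSum_sum fun p _ => (hsum p.1 p.2).mul_left (μ p)
  simpa [h1] using h

theorem ofReal_sum_le {T : Type} (s : Finset T) (g : T → ℝ) :
    ENNReal.ofReal (∑ m ∈ s, g m) ≤ ∑ m ∈ s, ENNReal.ofReal (g m) := by
  classical
  induction s using Finset.induction_on with
  | empty => simp
  | insert a s ha ih =>
    rw [Finset.sum_insert ha, Finset.sum_insert ha]
    exact ENNReal.ofReal_add_le.trans (add_le_add le_rfl ih)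

theorem sum_eq_of_supp (μ : AX I × BY I → ℝ) (hμ : ∀ p, μ p ≠ 0 → Fz p.1 p.2 = true)
    (lam : AX I → BY I → ℝ) (a : AX I → ℝ) (b : BY I → ℝ)
    (hab : ∀ x y, Fz x y = true → lam x y = a x * b y) (Λ : ℝ → ℝ) :
    ∑ p : AX I × BY I, μ p * Λ (lam p.1 p.2) = ∑ p : AX I × BY I, μ p * Λ (a p.1 * b p.2) := by
  refine Finset.sum_congr rfl fun p _ => ?_
  by_cases h : μ p = 0
  · simp [h]
  · rw [hab p.1 p.2 (hμ p h)]

theorem family_bound (hK : Fintype.card I = 2 ^ 8192) {T : Type} (lam : T → AX I → BY I → ℝ)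
    (hprod : ∀ m, ∃ (a : AX I → ℝ) (b : BY I → ℝ), (∀ x, 0 ≤ a x) ∧ (∀ y, 0 ≤ b y) ∧
      (∀ x y, a x ≠ 0 → b y ≠ 0 → Fz x y = true) ∧
      ∀ x y, Fz x y = true → lam m x y = a x * b y)
    (hsum : ∀ x y, HasSum (fun m => lam m x y) 1) :
    ENNReal.ofReal ((log 5 + log (Fintype.card I) - 1 / 32 - 1 / 16) / log 2) ≤
      ∑' m, ENNReal.ofReal (∑ p : AX I × BY I, μz p * (lam m p.1 p.2 *
        Real.logb 2 (lam m p.1 p.2 / ∑ q : AX I × BY I, μz q * lam m q.1 q.2))) := by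
  have hI : 0 < Fintype.card I := by rw [hK]; exact Nat.pow_pos (by norm_num)
  have hlog2 : 0 < log 2 := Real.log_pos (by norm_num)
  set u := log 5 + log (Fintype.card I) - 1 / 32 + 1024 with hu
  have hz := hasSum_mu lam μz (μz_sum hI) hsum
  have ho := hasSum_mu lam μo (μo_sum hI) hsum
  have hm := hasSum_mu lam μm (μm_sum hI) hsum
  have hR : HasSum (fun m => (u * (∑ p : AX I × BY I, μz p * lam m p.1 p.2) -
      1024 * (∑ p : AX I × BY I, μo p * lam m p.1 p.2) -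
      1 / 16 * (∑ p : AX I × BY I, μm p * lam m p.1 p.2)) / log 2)
      ((log 5 + log (Fintype.card I) - 1 / 32 - 1 / 16) / log 2) := by
    have h := (((hz.mul_left u).sub (ho.mul_left 1024)).sub (hm.mul_left (1 / 16))).div_const (log 2)
    have e : (log 5 + log (Fintype.card I) - 1 / 32 - 1 / 16) / log 2 =
        (u * 1 - 1024 * 1 - 1 / 16 * 1) / log 2 := by rw [hu]; ring
    rw [e]
    exact h
  have hle : ∀ m, (u * (∑ p : AX I × BY I, μz p * lam m p.1 p.2) -
      1024 * (∑ p : AX I × BY I, μo p * lam m p.1 p.2) -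
      1 / 16 * (∑ p : AX I × BY I, μm p * lam m p.1 p.2)) / log 2 ≤
      ∑ p : AX I × BY I, μz p * (lam m p.1 p.2 *
        Real.logb 2 (lam m p.1 p.2 / ∑ q : AX I × BY I, μz q * lam m q.1 q.2)) := by
    intro m
    obtain ⟨a, b, ha, hb, hc, hab⟩ := hprod m
    have e1 := sum_eq_of_supp μz (fun p => μz_supp) (lam m) a b hab (fun t => t)
    have e2 := sum_eq_of_supp μo (fun p => μo_supp) (lam m) a b hab (fun t => t)
    have e3 := sum_eq_of_supp μm (fun p => μm_supp) (lam m) a b hab (fun t => t)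
    rw [e1, e2, e3]
    set P := ∑ p : AX I × BY I, μz p * (a p.1 * b p.2) with hP
    have e4 := sum_eq_of_supp μz (fun p => μz_supp) (lam m) a b hab
      (fun t => t * Real.logb 2 (t / P))
    rw [e4]
    have h := transcript_bound hK a b ha hb hc
    rw [← hP, ← hu] at h
    rw [div_le_iff₀ hlog2]
    refine h.trans (le_of_eq ?_)
    rw [Finset.sum_mul]
    refine Finset.sum_congr rfl fun p _ => ?_
    unfold Real.logb
    field_simp
  refine le_of_tendsto' ((ENNReal.continuous_ofReal.tendsto _).comp hR) fun s => ?_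
  calc ENNReal.ofReal (∑ m ∈ s, (u * (∑ p : AX I × BY I, μz p * lam m p.1 p.2) -
      1024 * (∑ p : AX I × BY I, μo p * lam m p.1 p.2) -
      1 / 16 * (∑ p : AX I × BY I, μm p * lam m p.1 p.2)) / log 2)
      ≤ ∑ m ∈ s, ENNReal.ofReal ((u * (∑ p : AX I × BY I, μz p * lam m p.1 p.2) -
      1024 * (∑ p : AX I × BY I, μo p * lam m p.1 p.2) -
      1 / 16 * (∑ p : AX I × BY I, μm p * lam m p.1 p.2)) / log 2) := ofReal_sum_le _ _
    _ ≤ ∑ m ∈ s, ENNReal.ofReal (∑ p : AX I × BY I, μz p * (lam m p.1 p.2 *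
        Real.logb 2 (lam m p.1 p.2 / ∑ q : AX I × BY I, μz q * lam m q.1 q.2))) :=
        Finset.sum_le_sum fun m _ => ENNReal.ofReal_le_ofReal (hle m)
    _ ≤ _ := ENNReal.sum_le_tsum s

end Pool.Agent.Helper72K9.EIC
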