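import Pool.Agent.Helper72K9.EIC.Defs
import Pool.Agent.Helper72K9.EIC.Fam

/-!
# Facts on protocols
-/

set_option autoImplicit false
set_option linter.unusedSectionVars false
set_option linter.unusedSimpArgs false

namespace Pool.Agent.Helper72K9.EIC

open MeasureTheory
open scoped ENNReal

namespace Protocol

variable {X Y Z : Type} (π : Protocol X Y Z)

theorem transcript_unique {r : π.ΩP} {x : X} {a : π.ΩA} {y : Y} {b : π.ΩB} {m m' : List Bool}
    (h : π.IsTranscript r x a y b m) (h' : π.IsTranscript r x a y b m') : m = m' := by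
  have key : ∀ i, i ≤ m.length → i ≤ m'.length → m.take i = m'.take i := by
    intro i
    induction i with
    | zero => intro _ _; simp
    | succ i ih =>
      intro h1 h2
      have h3 := ih (by omega) (by omega)
      rw [List.take_succ_eq_append_getElem (by omega), List.take_succ_eq_append_getElem (by omega),
        h3, (h.1 i (by omega)).2, (h'.1 i (by omega)).2, h3]
  rcases lt_trichotomy m.length m'.length with hlt | heq | hgt
  · exfalso
    have h1 := key m.length le_rfl hlt.le
    rw [List.take_length] at h1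
    have h2 := (h'.1 m.length hlt).1
    rw [← h1, h.2] at h2
    exact absurd h2 (by decide)
  · have h1 := key m.length le_rfl heq.le
    rw [List.take_length, heq, List.take_length] at h1
    exact h1
  · exfalso
    have h1 := key m'.length hgt.le le_rfl
    rw [List.take_length] at h1
    have h2 := (h.1 m'.length hgt).1
    rw [h1, h'.2] at h2
    exact absurd h2 (by decide)

/-- the condition on the public randomness -/
def Gd (r : π.ΩP) (m : List Bool) : Prop :=
  (∀ i, i < m.length → π.stop r (m.take i) = false) ∧ π.stop r m = true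

/-- the private coins of Alice consistent with `m` -/
def setA (r : π.ΩP) (x : X) (m : List Bool) : Set π.ΩA :=
  {a | ∀ (i : ℕ) (hi : i < m.length), π.aliceSpeaks r (m.take i) = true →
    m[i] = π.bitA r (m.take i) x a}

/-- the private coins of Bob consistent with `m` -/
def setB (r : π.ΩP) (y : Y) (m : List Bool) : Set π.ΩB :=
  {b | ∀ (i : ℕ) (hi : i < m.length), π.aliceSpeaks r (m.take i) = false →
    m[i] = π.bitB r (m.take i) y b}

theorem isTranscript_iff (r : π.ΩP) (x : X) (a : π.ΩA) (y : Y) (b : π.ΩB) (m : List Bool) :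
    π.IsTranscript r x a y b m ↔ π.Gd r m ∧ a ∈ π.setA r x m ∧ b ∈ π.setB r y m := by
  unfold IsTranscript Gd setA setB next
  constructor
  · rintro ⟨h1, h2⟩
    refine ⟨⟨fun i hi => (h1 i hi).1, h2⟩, ?_, ?_⟩
    · intro i hi hs
      have := (h1 i hi).2
      rw [if_pos hs] at this
      exact this
    · intro i hi hs
      have := (h1 i hi).2
      rw [if_neg (by rw [hs]; decide)] at this
      exact this
  · rintro ⟨⟨h1, h2⟩, h3, h4⟩
    refine ⟨fun i hi => ⟨h1 i hi, ?_⟩, h2⟩
    cases hs : π.aliceSpeaks r (m.take i)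
    · rw [if_neg (by decide)]
      exact h4 i hi hs
    · rw [if_pos rfl]
      exact h3 i hi hs

open Classical in
/-- the factor of Alice -/
noncomputable def fA (r : π.ΩP) (m : List Bool) (x : X) : ℝ :=
  if π.Gd r m then (π.PA (π.setA r x m)).toReal else 0

/-- the factor of Bob -/
noncomputable def fB (r : π.ΩP) (m : List Bool) (y : Y) : ℝ := (π.PB (π.setB r y m)).toReal

theorem fA_nonneg (r : π.ΩP) (m : List Bool) (x : X) : 0 ≤ π.fA r m x := by
  unfold fA
  split_ifs
  · exact ENNReal.toReal_nonneg
  · exact le_rfl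

theorem fB_nonneg (r : π.ΩP) (m : List Bool) (y : Y) : 0 ≤ π.fB r m y := ENNReal.toReal_nonneg

theorem prob_eq (r : π.ΩP) (x : X) (y : Y) (m : List Bool) :
    π.prob r x y m = π.fA r m x * π.fB r m y := by
  classical
  unfold prob fA fB
  by_cases hG : π.Gd r m
  · have h : {w : π.ΩA × π.ΩB | π.IsTranscript r x w.1 y w.2 m} =
        π.setA r x m ×ˢ π.setB r y m := by
      ext w
      rw [Set.mem_ofPred_eq, isTranscript_iff, Set.mem_prod]
      exact ⟨fun h => h.2, fun h => ⟨hG, h⟩⟩
    rw [h, Measure.prod_prod, if_pos hG, ENNReal.toReal_mul]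
  · have h : {w : π.ΩA × π.ΩB | π.IsTranscript r x w.1 y w.2 m} = ∅ := by
      ext w
      rw [Set.mem_ofPred_eq, isTranscript_iff]
      simp [hG]
    rw [h, if_neg hG]
    simp

theorem measurableSet_setA (r : π.ΩP) (x : X) (m : List Bool) : MeasurableSet (π.setA r x m) := by
  have h : π.setA r x m = ⋂ (i : ℕ), ⋂ (hi : i < m.length),
      ⋂ (_ : π.aliceSpeaks r (m.take i) = true), {a | m[i] = π.bitA r (m.take i) x a} := by
    ext a
    simp only [setA, Set.mem_ofPred_eq, Set.mem_iInter]
  rw [h]
  refine MeasurableSet.iInter fun i => MeasurableSet.iInter fun hi => MeasurableSet.iInter fun _ => ?_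
  have h1 : Measurable fun a => π.bitA r (m.take i) x a :=
    (π.measurable_bitA (m.take i) x).comp measurable_prodMk_left
  have h2 : {a | m[i] = π.bitA r (m.take i) x a} = (fun a => π.bitA r (m.take i) x a) ⁻¹' {m[i]} := by
    ext a
    simp [eq_comm]
  rw [h2]
  exact h1 (measurableSet_singleton _)

theorem measurableSet_setB (r : π.ΩP) (y : Y) (m : List Bool) : MeasurableSet (π.setB r y m) := by
  have h : π.setB r y m = ⋂ (i : ℕ), ⋂ (hi : i < m.length),
      ⋂ (_ : π.aliceSpeaks r (m.take i) = false), {b | m[i] = π.bitB r (m.take i) y b} := by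
    ext a
    simp only [setB, Set.mem_ofPred_eq, Set.mem_iInter]
  rw [h]
  refine MeasurableSet.iInter fun i => MeasurableSet.iInter fun hi => MeasurableSet.iInter fun _ => ?_
  have h1 : Measurable fun b => π.bitB r (m.take i) y b :=
    (π.measurable_bitB (m.take i) y).comp measurable_prodMk_left
  have h2 : {b | m[i] = π.bitB r (m.take i) y b} = (fun b => π.bitB r (m.take i) y b) ⁻¹' {m[i]} := by
    ext a
    simp [eq_comm]
  rw [h2]
  exact h1 (measurableSet_singleton _)

theorem measurableSet_transcript (r : π.ΩP) (x : X) (y : Y) (m : List Bool) :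
    MeasurableSet {w : π.ΩA × π.ΩB | π.IsTranscript r x w.1 y w.2 m} := by
  by_cases hG : π.Gd r m
  · have h : {w : π.ΩA × π.ΩB | π.IsTranscript r x w.1 y w.2 m} =
        π.setA r x m ×ˢ π.setB r y m := by
      ext w
      rw [Set.mem_ofPred_eq, isTranscript_iff, Set.mem_prod]
      exact ⟨fun h => h.2, fun h => ⟨hG, h⟩⟩
    rw [h]
    exact (π.measurableSet_setA r x m).prod (π.measurableSet_setB r y m)
  · have h : {w : π.ΩA × π.ΩB | π.IsTranscript r x w.1 y w.2 m} = ∅ := by
      ext w
      rw [Set.mem_ofPred_eq, isTranscript_iff]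
      simp [hG]
    rw [h]
    exact MeasurableSet.empty

theorem prob_hasSum {F : X → Y → Z} (hF : π.ZeroError F) (r : π.ΩP) (x : X) (y : Y) :
    HasSum (fun m => π.prob r x y m) 1 := by
  have hU : (⋃ m : List Bool, {w : π.ΩA × π.ΩB | π.IsTranscript r x w.1 y w.2 m}) = Set.univ := by
    rw [Set.eq_univ_iff_forall]
    intro w
    obtain ⟨m, hm, -⟩ := hF r x w.1 y w.2
    exact Set.mem_iUnion.2 ⟨m, hm⟩
  have hd : Pairwise (Function.onFun Disjoint
      (fun m : List Bool => {w : π.ΩA × π.ΩB | π.IsTranscript r x w.1 y w.2 m})) := by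
    intro m m' hne
    rw [Function.onFun, Set.disjoint_left]
    intro w hw hw'
    exact hne (π.transcript_unique hw hw')
  have h1 := measure_iUnion (μ := π.PA.prod π.PB) hd (π.measurableSet_transcript r x y)
  rw [hU, measure_univ] at h1
  have h2 : ∑' m : List Bool, (π.PA.prod π.PB) {w : π.ΩA × π.ΩB | π.IsTranscript r x w.1 y w.2 m} ≠ ⊤ := by
    rw [← h1]; exact ENNReal.one_ne_top
  have h3 := ENNReal.hasSum_toReal h2
  rw [← ENNReal.tsum_toReal_eq, ← h1] at h3
  · simpa [prob] using h3
  · exact fun m => measure_ne_top _ _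

theorem prob_factor {F : X → Y → Bool} {π : Protocol X Y Bool} (hF : π.ZeroError F) (r : π.ΩP)
    (m : List Bool) :
    ∃ (a : X → ℝ) (b : Y → ℝ), (∀ x, 0 ≤ a x) ∧ (∀ y, 0 ≤ b y) ∧
      (∀ x y, a x ≠ 0 → b y ≠ 0 → F x y = true) ∧
      ∀ x y, F x y = true → π.prob r x y m = a x * b y := by
  classical
  -- the answer in terms of the coins
  have hA : ∀ x, π.fA r m x ≠ 0 → π.Gd r m ∧ (π.setA r x m).Nonempty := by
    intro x hx
    unfold fA at hx
    by_cases hG : π.Gd r m
    · refine ⟨hG, ?_⟩
      rw [if_pos hG] at hx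
      rw [Set.nonempty_iff_ne_empty]
      intro h0
      rw [h0] at hx
      simp at hx
    · rw [if_neg hG] at hx
      exact absurd rfl hx
  have hB : ∀ y, π.fB r m y ≠ 0 → (π.setB r y m).Nonempty := by
    intro y hy
    rw [Set.nonempty_iff_ne_empty]
    intro h0
    unfold fB at hy
    rw [h0] at hy
    simp at hy
  have hans : ∀ x y a b, π.Gd r m → a ∈ π.setA r x m → b ∈ π.setB r y m →
      π.answer r x a y b m = F x y := by
    intro x y a b hG ha hb
    have h1 := (π.isTranscript_iff r x a y b m).2 ⟨hG, ha, hb⟩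
    obtain ⟨m', h2, h3⟩ := hF r x a y b
    rw [π.transcript_unique h1 h2]
    exact h3
  cases hs : π.aliceAnswers r m
  · -- Bob answers
    refine ⟨π.fA r m, fun y => if ∀ x, π.fA r m x ≠ 0 → F x y = true then π.fB r m y else 0,
      π.fA_nonneg r m, ?_, ?_, ?_⟩
    · intro y
      dsimp only
      split_ifs
      · exact π.fB_nonneg r m y
      · exact le_rfl
    · intro x y hx hy
      by_cases h : ∀ x, π.fA r m x ≠ 0 → F x y = true
      · exact h x hx
      · exact absurd (if_neg h) hy
    · intro x y hxy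
      rw [prob_eq]
      by_cases hx : π.fA r m x = 0
      · simp [hx]
      by_cases hy : π.fB r m y = 0
      · simp [hy]
      obtain ⟨hG, a, ha⟩ := hA x hx
      obtain ⟨b, hb⟩ := hB y hy
      have h1 := hans x y a b hG ha hb
      dsimp only
      rw [if_pos]
      intro x' hx'
      obtain ⟨-, a', ha'⟩ := hA x' hx'
      have h2 := hans x' y a' b hG ha' hb
      unfold answer at h1 h2
      rw [hs] at h1 h2
      simp only [Bool.false_eq_true, if_false] at h1 h2
      rw [← h2, h1, hxy]
  · -- Alice answers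
    refine ⟨fun x => if ∀ y, π.fB r m y ≠ 0 → F x y = true then π.fA r m x else 0, π.fB r m,
      ?_, π.fB_nonneg r m, ?_, ?_⟩
    · intro y
      dsimp only
      split_ifs
      · exact π.fA_nonneg r m y
      · exact le_rfl
    · intro x y hx hy
      by_cases h : ∀ y, π.fB r m y ≠ 0 → F x y = true
      · exact h y hy
      · exact absurd (if_neg h) hx
    · intro x y hxy
      rw [prob_eq]
      by_cases hx : π.fA r m x = 0
      · simp [hx]
      by_cases hy : π.fB r m y = 0
      · simp [hy]
      obtain ⟨hG, a, ha⟩ := hA x hx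
      obtain ⟨b, hb⟩ := hB y hy
      have h1 := hans x y a b hG ha hb
      dsimp only
      rw [if_pos]
      intro y' hy'
      obtain ⟨b', hb'⟩ := hB y' hy'
      have h2 := hans x y' a b' hG ha hb'
      unfold answer at h1 h2
      rw [hs] at h1 h2
      simp only [if_true] at h1 h2
      rw [← h2, h1, hxy]

/-- a protocol on other inputs, through maps -/
def comap {X' Y' : Type} (g : X' → X) (h : Y' → Y) : Protocol X' Y' Z where
  ΩP := π.ΩP
  ΩA := π.ΩA
  ΩB := π.ΩB
  P := π.P
  PA := π.PA
  PB := π.PB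
  stop := π.stop
  aliceSpeaks := π.aliceSpeaks
  bitA r t x a := π.bitA r t (g x) a
  bitB r t y b := π.bitB r t (h y) b
  aliceAnswers := π.aliceAnswers
  answerA r t x a := π.answerA r t (g x) a
  answerB r t y b := π.answerB r t (h y) b
  measurable_stop := π.measurable_stop
  measurable_aliceSpeaks := π.measurable_aliceSpeaks
  measurable_bitA t x := π.measurable_bitA t (g x)
  measurable_bitB t y := π.measurable_bitB t (h y)

theorem comap_prob {X' Y' : Type} (g : X' → X) (h : Y' → Y) (r : π.ΩP) (x : X') (y : Y')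
    (m : List Bool) : (π.comap g h).prob r x y m = π.prob r (g x) (h y) m := rfl

theorem comap_zeroError {X' Y' : Type} {π : Protocol X Y Z} (g : X' → X) (h : Y' → Y)
    {F : X → Y → Z} (hF : π.ZeroError F) :
    (π.comap g h).ZeroError (fun x y => F (g x) (h y)) :=
  fun r x a y b => hF r (g x) a (h y) b

theorem comap_elementary {X' Y' : Type} {π : Protocol X Y Z} (g : X' → X) (h : Y' → Y)
    (hπ : π.Elementary) : (π.comap g h).Elementary := by
  obtain ⟨s, t, u, v, w, D, H⟩ := hπ
  refine ⟨s, t, fun l x => u l (g x), fun l y => v l (h y), w, D, fun r l => ?_⟩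
  obtain ⟨h1, h2, h3, h4, h5⟩ := H r l
  exact ⟨h1, h2, fun x a => h3 (g x) a, fun y b => h4 (h y) b, h5⟩

end Protocol

end Pool.Agent.Helper72K9.EIC
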