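import Pool.Agent.Helper72K9.EIC.Upper

/-!
# Assembly
-/

set_option autoImplicit false
set_option linter.unusedSectionVars false
set_option linter.unusedSimpArgs false

namespace Pool.Agent.Helper72K9.EIC

open MeasureTheory Filter Topology
open scoped ENNReal NNReal

theorem clog_le (h : ℕ) : (Nat.clog 2 (5 ^ h) : ℝ) ≤ h * (Real.log 5 / Real.log 2) + 1 := by
  have hlog2 : 0 < Real.log 2 := Real.log_pos (by norm_num)
  have hlog5 : 0 < Real.log 5 := Real.log_pos (by norm_num)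
  rcases Nat.eq_zero_or_pos h with h0 | h0
  · subst h0
    simp
  have h1 : 1 < 5 ^ h := Nat.one_lt_pow h0.ne' (by norm_num)
  have h2 := Nat.pow_pred_clog_lt_self (b := 2) (by norm_num) h1
  have h3 : ((2 : ℝ)) ^ ((Nat.clog 2 (5 ^ h)).pred) ≤ (5 : ℝ) ^ h := by exact_mod_cast h2.le
  have h4 := Real.log_le_log (by positivity) h3
  rw [Real.log_pow, Real.log_pow] at h4
  have h5 : 0 < Nat.clog 2 (5 ^ h) := Nat.clog_pos (by norm_num) h1
  have h6 : (((Nat.clog 2 (5 ^ h)).pred : ℕ) : ℝ) = (Nat.clog 2 (5 ^ h) : ℝ) - 1 := by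
    rw [Nat.pred_eq_sub_one, Nat.cast_sub h5]
    simp
  rw [h6] at h4
  have h7 : ((Nat.clog 2 (5 ^ h) : ℝ) - 1) ≤ h * (Real.log 5 / Real.log 2) := by
    rw [← mul_div_assoc, le_div_iff₀ hlog2]
    exact h4
  linarith

theorem powμ_nonneg {X Y : Type} (μ : X × Y → ℝ) (hμ : ∀ p, 0 ≤ μ p) (n : ℕ)
    (p : (Fin n → X) × (Fin n → Y)) : 0 ≤ powμ μ n p :=
  Finset.prod_nonneg fun _ _ => hμ _

theorem powμ_sum {X Y : Type} [Fintype X] [Fintype Y] [DecidableEq X] [DecidableEq Y]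
    (μ : X × Y → ℝ) (hμ : ∑ p, μ p = 1) (n : ℕ) :
    ∑ p : (Fin n → X) × (Fin n → Y), powμ μ n p = 1 := by
  have h := Finset.prod_univ_sum (fun _ : Fin n => (Finset.univ : Finset (X × Y)))
    (fun _ p => μ p)
  rw [Fintype.piFinset_univ, hμ, Finset.prod_const_one] at h
  rw [← Equiv.sum_comp (Equiv.arrowProdEquivProdArrow (Fin n) (fun _ => X) (fun _ => Y))]
  rw [h]
  rfl

theorem powμ_supp {X Y : Type} (μ : X × Y → ℝ) (n : ℕ) {p : (Fin n → X) × (Fin n → Y)}
    (h : powμ μ n p ≠ 0) (i : Fin n) : μ (p.1 i, p.2 i) ≠ 0 := by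
  unfold powμ at h
  rw [Finset.prod_ne_zero_iff] at h
  exact h i (Finset.mem_univ i)

theorem not_tendsto_of_gap (c₁ c₂ C : ℝ≥0) (h12 : c₁ < c₂) (g : ℕ → ℝ≥0∞) (l : ℝ≥0∞)
    (hl : (c₂ : ℝ≥0∞) ≤ l) (hg : ∀ n : ℕ, g n ≤ c₁ * n + C) :
    ¬ Tendsto (fun n : ℕ => g n / n) atTop (𝓝 l) := by
  intro ht
  have h1 : ∀ᶠ n : ℕ in atTop, g n / n ≤ (c₁ : ℝ≥0∞) + C / n := by
    filter_upwards [eventually_ge_atTop 1] with n hn
    have hn0 : (n : ℝ≥0∞) ≠ 0 := by
      simp only [ne_eq, Nat.cast_eq_zero]; omega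
    have hnt : (n : ℝ≥0∞) ≠ ⊤ := ENNReal.natCast_ne_top n
    calc g n / n ≤ (c₁ * n + C) / n := ENNReal.div_le_div_right (hg n) _
      _ = c₁ + C / n := by
          rw [ENNReal.add_div, ENNReal.mul_div_cancel_right hn0 hnt]
  have h2 : Tendsto (fun n : ℕ => (c₁ : ℝ≥0∞) + C / n) atTop (𝓝 ((c₁ : ℝ≥0∞) + 0)) := by
    refine Tendsto.const_add _ ?_
    have h3 : Tendsto (fun n : ℕ => ((n : ℝ≥0∞))⁻¹) atTop (𝓝 0) := ENNReal.tendsto_inv_nat_nhds_zero
    have h4 := ENNReal.Tendsto.const_mul (a := (C : ℝ≥0∞)) h3 (Or.inr ENNReal.coe_ne_top)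
    simpa [div_eq_mul_inv] using h4
  rw [add_zero] at h2
  have h5 := le_of_tendsto_of_tendsto ht h2 h1
  have h6 : (c₂ : ℝ≥0∞) ≤ c₁ := hl.trans h5
  exact absurd (ENNReal.coe_le_coe.1 h6) (not_le.2 h12)

theorem main : ∃ (m : ℕ) (F : (Fin m → Bool) → (Fin m → Bool) → Bool)
    (μ : (Fin m → Bool) × (Fin m → Bool) → ℝ) (c₁ c₂ C : ℝ≥0),
    1 ≤ m ∧ (∀ p, 0 ≤ μ p) ∧ ∑ p, μ p = 1 ∧ c₁ < c₂ ∧
    (∀ π : Protocol (Fin m → Bool) (Fin m → Bool) Bool, π.ZeroError F →
      (c₂ : ℝ≥0∞) ≤ π.extInfo μ) ∧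
    (∀ n : ℕ, ∃ π : Protocol (Fin n → Fin m → Bool) (Fin n → Fin m → Bool) (Fin n → Bool),
      π.Elementary ∧ π.ZeroError (powF F n) ∧ π.cost (powμ μ n) ≤ c₁ * n + C) := by
  classical
  -- the index type
  obtain ⟨I, hI1, hI2, hK⟩ : ∃ (I : Type) (_ : Fintype I) (_ : DecidableEq I),
      Fintype.card I = 2 ^ 8192 := by
    refine ⟨Fin 8192 → Bool, inferInstance, inferInstance, ?_⟩
    rw [Fintype.card_fun, Fintype.card_bool, Fintype.card_fin]
  have hI : 0 < Fintype.card I := by rw [hK]; exact Nat.pow_pos (by norm_num)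
  have hIne : Nonempty I := Fintype.card_pos_iff.1 hI
  have hKr : Real.log (Fintype.card I : ℝ) = 8192 * Real.log 2 := by
    rw [hK, Nat.cast_pow, Real.log_pow]
    norm_num
  set m := Fintype.card (AX I) + Fintype.card (BY I) + 1 with hm
  obtain ⟨e, d, hd⟩ := exists_code (AX I) m (by
    refine le_trans ?_ Nat.lt_two_pow_self.le
    omega)
  obtain ⟨e', d', hd'⟩ := exists_code (BY I) m (by
    refine le_trans ?_ Nat.lt_two_pow_self.le
    omega)
  have hlog2 : 0 < Real.log 2 := Real.log_pos (by norm_num)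
  have hlog5 : 0 < Real.log 5 := Real.log_pos (by norm_num)
  have hlog54 : 1 / 5 ≤ Real.log 5 - 2 * Real.log 2 := by
    have h1 := Real.one_sub_inv_le_log_of_pos (by norm_num : (0 : ℝ) < 5 / 4)
    have h2 : Real.log (5 / 4) = Real.log 5 - 2 * Real.log 2 := by
      rw [Real.log_div (by norm_num) (by norm_num), show (4 : ℝ) = 2 ^ 2 by norm_num,
        Real.log_pow]
      norm_num
    rw [h2] at h1
    norm_num at h1 ⊢
    linarith
  have hc1 : 0 ≤ Real.log 5 / Real.log 2 / 2 + 8193 := by positivity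
  have hc2 : Real.log 5 / Real.log 2 / 2 + 8193 <
      (Real.log 5 + Real.log (Fintype.card I) - 1 / 32 - 1 / 16) / Real.log 2 := by
    rw [hKr, lt_div_iff₀ hlog2]
    have e1 : (Real.log 5 / Real.log 2 / 2 + 8193) * Real.log 2 =
        Real.log 5 / 2 + 8193 * Real.log 2 := by
      field_simp
    rw [e1]
    linarith
  refine ⟨m, fun u w => Fz (d u) (d' w), push e e' μz,
    (Real.log 5 / Real.log 2 / 2 + 8193).toNNReal,
    ((Real.log 5 + Real.log (Fintype.card I) - 1 / 32 - 1 / 16) / Real.log 2).toNNReal,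
    (Real.log 5 / Real.log 2 + 2).toNNReal, ?_, ?_, ?_, ?_, ?_, ?_⟩
  · omega
  · exact push_nonneg e e' μz (mz_nonneg _ _ _ _)
  · exact push_sum e e' μz (μz_sum hI)
  · exact (Real.toNNReal_lt_toNNReal_iff (hc1.trans_lt hc2)).2 hc2
  · intro π hπ
    exact extInfo_lower hK e e' d d' hd hd' π hπ
  · intro n
    obtain ⟨t, ht1, ht2⟩ := exists_tree n hK
    have hL : ∀ p : (Fin n → Fin m → Bool) × (Fin n → Fin m → Bool),
        powμ (push e e' μz) n p ≠ 0 →
        (t.run (fun i => d (p.1 i)) (fun i => d' (p.2 i))).length ≤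
          Nat.clog 2 (5 ^ (n / 2 + 1)) + 8193 * n + 1 := by
      intro p hp
      refine ht2 _ _ fun i => ?_
      obtain ⟨q, hq1, hq2⟩ := push_supp e e' μz (powμ_supp _ n hp i)
      have h1 : d (p.1 i) = q.1 := by
        have := congrArg Prod.fst hq2
        dsimp only at this
        rw [← this, hd]
      have h2 : d' (p.2 i) = q.2 := by
        have := congrArg Prod.snd hq2
        dsimp only at this
        rw [← this, hd']
      rw [h1, h2]
      exact hq1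
    refine ⟨(t.toProtocol (fun _ => true)).comap (fun u i => d (u i)) (fun w i => d' (w i)),
      Protocol.comap_elementary _ _ (Tree.elementary _ t),
      Protocol.comap_zeroError _ _ (Tree.zeroError _ t _ ht1), ?_⟩
    refine (Tree.cost_le _ (fun u w => t.run (fun i => d (u i)) (fun i => d' (w i)))
      (fun r x y l => Tree.prob_eq (fun _ => true) t r _ _ l) _ (powμ_nonneg _ (push_nonneg e e' μz (mz_nonneg _ _ _ _)) n)
      (powμ_sum _ (push_sum e e' μz (μz_sum hI)) n) _ hL).trans ?_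
    have hr : ((Nat.clog 2 (5 ^ (n / 2 + 1)) + 8193 * n + 1 : ℕ) : ℝ) ≤
        (Real.log 5 / Real.log 2 / 2 + 8193) * n + (Real.log 5 / Real.log 2 + 2) := by
      have h1 := clog_le (n / 2 + 1)
      have h2 : ((n / 2 + 1 : ℕ) : ℝ) ≤ (n : ℝ) / 2 + 1 := by
        push_cast
        have := Nat.cast_div_le (α := ℝ) (m := n) (n := 2)
        push_cast at this
        linarith
      have h3 : ((n / 2 + 1 : ℕ) : ℝ) * (Real.log 5 / Real.log 2) ≤
          ((n : ℝ) / 2 + 1) * (Real.log 5 / Real.log 2) :=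
        mul_le_mul_of_nonneg_right h2 (by positivity)
      rw [Nat.cast_add, Nat.cast_add, Nat.cast_mul]
      have h4 : ((8193 : ℕ) : ℝ) = 8193 := Nat.cast_ofNat
      rw [h4, Nat.cast_one]
      linarith
    have h5 : ((Nat.clog 2 (5 ^ (n / 2 + 1)) + 8193 * n + 1 : ℕ) : ℝ≥0) ≤
        (Real.log 5 / Real.log 2 / 2 + 8193).toNNReal * n +
          (Real.log 5 / Real.log 2 + 2).toNNReal := by
      rw [← NNReal.coe_le_coe, NNReal.coe_add, NNReal.coe_mul, NNReal.coe_natCast,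
        NNReal.coe_natCast, Real.coe_toNNReal _ hc1, Real.coe_toNNReal _ (by positivity)]
      exact hr
    have h6 := ENNReal.coe_le_coe.2 h5
    rw [ENNReal.coe_add, ENNReal.coe_mul, ENNReal.coe_natCast, ENNReal.coe_natCast] at h6
    exact h6

end Pool.Agent.Helper72K9.EIC
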