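import Pool.Agent.Helper72K9.EIC.Tree

/-!
# The external information complexity is finite
-/

set_option autoImplicit false
set_option linter.unusedSectionVars false
set_option linter.unusedSimpArgs false

namespace Pool.Agent.Helper72K9.EIC

open MeasureTheory
open scoped ENNReal

theorem tree_extInfo_ne_top {X Y Z : Type} [Fintype X] [Fintype Y] (z0 : Z) (t : Tree X Y Z)
    (μ : X × Y → ℝ) : (t.toProtocol z0).extInfo μ ≠ ⊤ := by
  classical
  unfold Protocol.extInfo
  set S : Finset (List Bool) := (Finset.univ : Finset (X × Y)).image fun p => t.run p.1 p.2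
    with hS
  have hpt : ∀ r, (t.toProtocol z0).infoAt μ r =
      ∑ m ∈ S, ENNReal.ofReal (∑ p : X × Y, μ p * ((if m = t.run p.1 p.2 then 1 else 0) *
        Real.logb 2 ((if m = t.run p.1 p.2 then 1 else 0) /
          ∑ q : X × Y, μ q * (if m = t.run q.1 q.2 then 1 else 0)))) := by
    intro r
    have hp : ∀ x y m, (t.toProtocol z0).prob r x y m = if m = t.run x y then 1 else 0 :=
      fun x y m => Tree.prob_eq z0 t r x y m
    unfold Protocol.infoAt
    rw [tsum_eq_sum (s := S)]
    · refine Finset.sum_congr rfl fun m _ => ?_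
      simp only [hp]
    · intro m hm
      have h0 : ∀ p : X × Y, m ≠ t.run p.1 p.2 := by
        intro p hp
        exact hm (Finset.mem_image.2 ⟨p, Finset.mem_univ _, hp.symm⟩)
      simp only [hp, h0, if_false, zero_mul, mul_zero, Finset.sum_const_zero,
        ENNReal.ofReal_zero]
  rw [lintegral_congr hpt, lintegral_const, measure_univ, mul_one]
  exact ENNReal.sum_ne_top.2 fun m _ => ENNReal.ofReal_ne_top

theorem ICext_ne_top {m : ℕ} {Z : Type} [Inhabited Z] (F : (Fin m → Bool) → (Fin m → Bool) → Z)
    (μ : (Fin m → Bool) × (Fin m → Bool) → ℝ) : ICext F μ ≠ ⊤ := by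
  set t : Tree (Fin m → Bool) (Fin m → Bool) Z :=
    Tree.sendA m (fun x => x) fun w => Tree.sendB m (fun y => y) fun w' => Tree.out (F w w') with ht
  have h1 : (t.toProtocol default).ZeroError F := by
    refine Tree.zeroError _ t F fun x y => ?_
    rw [ht, Tree.sendA_eval, Tree.sendB_eval]
    rfl
  have h2 := tree_extInfo_ne_top default t μ
  unfold ICext
  exact ne_top_of_le_ne_top h2 (iInf₂_le (t.toProtocol default) h1)

end Pool.Agent.Helper72K9.EIC
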