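import Mathlib

/-!
# Gibbs' inequality and products of functions of independent bits
-/

set_option autoImplicit false

namespace Pool.Agent.Helper72K9.EIC

open Finset Real

/-- Gibbs' inequality: `∑ q (log q + ψ) ≥ - log ∑ exp (-ψ)` for a probability vector `q`; the sum on
the right only runs over the support of `q`, and may be replaced by any upper bound `B`. -/
theorem gibbs {ι : Type*} (s : Finset ι) (q ψ : ι → ℝ) (hq : ∀ i ∈ s, 0 ≤ q i)
    (h1 : ∑ i ∈ s, q i = 1) (B : ℝ)
    (hB : ∑ i ∈ s.filter (fun i => q i ≠ 0), exp (-ψ i) ≤ B) :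
    - log B ≤ ∑ i ∈ s, q i * (log (q i) + ψ i) := by
  classical
  set t := s.filter (fun i => q i ≠ 0) with ht
  have hsum : ∀ g : ι → ℝ, ∑ i ∈ s, q i * g i = ∑ i ∈ t, q i * g i := by
    intro g
    rw [ht, Finset.sum_filter]
    refine Finset.sum_congr rfl fun i _ => ?_
    by_cases h : q i = 0 <;> simp [h]
  have h1' : ∑ i ∈ t, q i = 1 := by
    have := hsum fun _ => 1
    simp only [mul_one] at this
    rw [← this, h1]
  have htne : t.Nonempty := by
    rw [Finset.nonempty_iff_ne_empty]
    intro h0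
    rw [h0] at h1'
    simp at h1'
  have hpos : ∀ i ∈ t, 0 < q i := by
    intro i hi
    rw [ht, Finset.mem_filter] at hi
    exact lt_of_le_of_ne (hq i hi.1) (Ne.symm hi.2)
  set Z := ∑ i ∈ t, exp (-ψ i) with hZ
  have hZ0 : 0 < Z := Finset.sum_pos (fun i _ => exp_pos _) htne
  have hB0 : 0 < B := hZ0.trans_le hB
  have hlog : log Z ≤ log B := Real.log_le_log hZ0 hB
  rw [hsum]
  have key : ∀ i ∈ t, q i * (- log Z) + (q i - exp (-ψ i) / Z) ≤ q i * (log (q i) + ψ i) := by
    intro i hi
    have hqi := hpos i hi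
    have h2 := Real.log_le_sub_one_of_pos (x := exp (-ψ i) / (q i * Z)) (by positivity)
    rw [Real.log_div (exp_pos _).ne' (by positivity), Real.log_exp,
      Real.log_mul hqi.ne' hZ0.ne'] at h2
    have h3 : q i * (-ψ i - (log (q i) + log Z)) ≤ q i * (exp (-ψ i) / (q i * Z) - 1) :=
      mul_le_mul_of_nonneg_left h2 hqi.le
    have h4 : q i * (exp (-ψ i) / (q i * Z) - 1) = exp (-ψ i) / Z - q i := by
      field_simp
    rw [h4] at h3
    linarith
  have h5 := Finset.sum_le_sum key
  rw [Finset.sum_add_distrib, Finset.sum_sub_distrib, ← Finset.sum_mul, h1', ← Finset.sum_div,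
    ← hZ, div_self hZ0.ne'] at h5
  linarith

/-- Donsker-Varadhan form for an unnormalised density `f` with respect to weights `p`. -/
theorem dv {ι : Type*} (s : Finset ι) (p f φ : ι → ℝ) (hp : ∀ i ∈ s, 0 ≤ p i)
    (hf : ∀ i ∈ s, 0 ≤ f i) (W : ℝ) (hW : ∑ i ∈ s, p i * f i = W) (hW0 : 0 < W) (B : ℝ)
    (hB : ∑ i ∈ s.filter (fun i => f i ≠ 0), p i * exp (φ i) ≤ B) :
    (∑ i ∈ s, p i * f i * φ i) / W - log B ≤ (∑ i ∈ s, p i * (f i * log (f i))) / W - log W := by
  classical
  have h := gibbs s (fun i => p i * f i / W) (fun i => - log (p i) - φ i)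
    (fun i hi => by have := hp i hi; have := hf i hi; positivity)
    (by rw [← Finset.sum_div, hW, div_self hW0.ne']) B ?_
  · have h2 : ∑ i ∈ s, p i * f i / W * (log (p i * f i / W) + (- log (p i) - φ i)) =
        (∑ i ∈ s, p i * (f i * log (f i))) / W - log W - (∑ i ∈ s, p i * f i * φ i) / W := by
      have h3 : log W = (∑ i ∈ s, p i * f i) / W * log W := by
        rw [hW, div_self hW0.ne', one_mul]
      rw [h3, Finset.sum_div, Finset.sum_div, Finset.sum_div, Finset.sum_mul,
        ← Finset.sum_sub_distrib, ← Finset.sum_sub_distrib]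
      refine Finset.sum_congr rfl fun i hi => ?_
      by_cases h0 : p i * f i = 0
      · rcases mul_eq_zero.1 h0 with h | h <;> simp [h]
      · have hp0 : p i ≠ 0 := fun h => h0 (by simp [h])
        have hf0 : f i ≠ 0 := fun h => h0 (by simp [h])
        rw [Real.log_div h0 hW0.ne', Real.log_mul hp0 hf0]
        field_simp
        ring
    rw [h2] at h
    linarith
  · refine le_trans ?_ hB
    have h4 : s.filter (fun i => p i * f i / W ≠ 0) ⊆ s.filter (fun i => f i ≠ 0) := by
      intro i hi
      rw [Finset.mem_filter] at hi ⊢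
      refine ⟨hi.1, fun h => hi.2 (by simp [h])⟩
    refine le_trans (le_of_eq ?_) (Finset.sum_le_sum_of_subset_of_nonneg h4 fun i hi _ => ?_)
    · refine Finset.sum_congr rfl fun i hi => ?_
      rw [Finset.mem_filter] at hi
      have hp0 : p i ≠ 0 := fun h => hi.2 (by simp [h])
      have hp1 : 0 < p i := lt_of_le_of_ne (hp i hi.1) (Ne.symm hp0)
      show exp (-(-log (p i) - φ i)) = _
      rw [show -(-log (p i) - φ i) = log (p i) + φ i by ring, Real.exp_add, Real.exp_log hp1]
    · rw [Finset.mem_filter] at hi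
      have := hp i hi.1
      positivity

section Bits

variable {I : Type} [Fintype I] [DecidableEq I]

/-- sum over all bit vectors of a product of functions of the coordinates -/
theorem sum_prod_bits (ψ : I → Bool → ℝ) :
    ∑ z : I → Bool, ∏ i, ψ i (z i) = ∏ i, (ψ i true + ψ i false) := by
  have h := Finset.prod_univ_sum (fun _ : I => (Finset.univ : Finset Bool)) ψ
  rw [Fintype.piFinset_univ] at h
  rw [← h]
  refine Finset.prod_congr rfl fun i _ => ?_
  rw [Fintype.sum_bool]

end Bits

end Pool.Agent.Helper72K9.EIC
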