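import Pool.Agent.Helper72K9.EIC.Facts

/-!
# The lower bound for the external information
-/

set_option autoImplicit false
set_option linter.unusedSectionVars false
set_option linter.unusedSimpArgs false

namespace Pool.Agent.Helper72K9.EIC

open MeasureTheory
open scoped ENNReal

/-- the image of a distribution under encodings of the inputs -/
noncomputable def push {X Y X' Y' : Type} [Fintype X] [Fintype Y] [DecidableEq X'] [DecidableEq Y']
    (e : X → X') (e' : Y → Y') (μ : X × Y → ℝ) : X' × Y' → ℝ :=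
  fun p' => ∑ p : X × Y, if (e p.1, e' p.2) = p' then μ p else 0

section

variable {X Y X' Y' : Type} [Fintype X] [Fintype Y] [Fintype X'] [Fintype Y'] [DecidableEq X']
  [DecidableEq Y'] (e : X → X') (e' : Y → Y') (μ : X × Y → ℝ)

theorem sum_push (G : X' × Y' → ℝ) :
    ∑ p', push e e' μ p' * G p' = ∑ p : X × Y, μ p * G (e p.1, e' p.2) := by
  unfold push
  simp only [Finset.sum_mul]
  rw [Finset.sum_comm]
  refine Finset.sum_congr rfl fun p _ => ?_
  rw [Finset.sum_eq_single (e p.1, e' p.2)]
  · simp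
  · intro q _ hq
    rw [if_neg (Ne.symm hq), zero_mul]
  · intro h
    exact absurd (Finset.mem_univ _) h

theorem push_nonneg (hμ : ∀ p, 0 ≤ μ p) (p' : X' × Y') : 0 ≤ push e e' μ p' := by
  unfold push
  refine Finset.sum_nonneg fun p _ => ?_
  split_ifs
  · exact hμ p
  · exact le_rfl

theorem push_sum (hμ : ∑ p, μ p = 1) : ∑ p', push e e' μ p' = 1 := by
  have h := sum_push e e' μ (fun _ => 1)
  simpa [hμ] using h

theorem push_supp {p' : X' × Y'} (h : push e e' μ p' ≠ 0) :
    ∃ p : X × Y, μ p ≠ 0 ∧ (e p.1, e' p.2) = p' := by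
  unfold push at h
  obtain ⟨p, -, hp⟩ := Finset.exists_ne_zero_of_sum_ne_zero h
  by_cases h1 : (e p.1, e' p.2) = p'
  · rw [if_pos h1] at hp
    exact ⟨p, hp, h1⟩
  · rw [if_neg h1] at hp
    exact absurd rfl hp

theorem push_infoAt {Z : Type} (π : Protocol X' Y' Z) (r : π.ΩP) :
    π.infoAt (push e e' μ) r = (π.comap e e').infoAt μ r := by
  unfold Protocol.infoAt
  refine tsum_congr fun m => ?_
  have h1 := sum_push e e' μ (fun q : X' × Y' => π.prob r q.1 q.2 m)
  rw [h1]
  have h2 := sum_push e e' μ (fun p => π.prob r p.1 p.2 m *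
    Real.logb 2 (π.prob r p.1 p.2 m / ∑ q : X × Y, μ q * π.prob r (e q.1) (e' q.2) m))
  rw [h2]
  rfl

end

variable {I : Type} [Fintype I] [DecidableEq I]

theorem infoAt_lower (hK : Fintype.card I = 2 ^ 8192) (π : Protocol (AX I) (BY I) Bool)
    (hπ : π.ZeroError Fz) (r : π.ΩP) :
    ENNReal.ofReal ((Real.log 5 + Real.log (Fintype.card I) - 1 / 32 - 1 / 16) / Real.log 2) ≤
      π.infoAt μz r :=
  family_bound hK (fun m x y => π.prob r x y m) (fun m => Protocol.prob_factor hπ r m)
    (fun x y => π.prob_hasSum hπ r x y)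

theorem extInfo_lower (hK : Fintype.card I = 2 ^ 8192) {X' Y' : Type} [Fintype X'] [Fintype Y']
    [DecidableEq X'] [DecidableEq Y'] (e : AX I → X') (e' : BY I → Y') (d : X' → AX I)
    (d' : Y' → BY I) (hd : ∀ x, d (e x) = x) (hd' : ∀ y, d' (e' y) = y)
    (π : Protocol X' Y' Bool) (hπ : π.ZeroError (fun u w => Fz (d u) (d' w))) :
    ENNReal.ofReal ((Real.log 5 + Real.log (Fintype.card I) - 1 / 32 - 1 / 16) / Real.log 2) ≤
      π.extInfo (push e e' μz) := by
  unfold Protocol.extInfo
  have h0 : (π.comap e e').ZeroError Fz := by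
    have h := Protocol.comap_zeroError e e' hπ
    simpa only [hd, hd'] using h
  calc ENNReal.ofReal ((Real.log 5 + Real.log (Fintype.card I) - 1 / 32 - 1 / 16) / Real.log 2)
      = ∫⁻ _, ENNReal.ofReal ((Real.log 5 + Real.log (Fintype.card I) - 1 / 32 - 1 / 16) /
        Real.log 2) ∂π.P := by rw [lintegral_const, measure_univ, mul_one]
    _ ≤ ∫⁻ r, π.infoAt (push e e' μz) r ∂π.P := by
        refine lintegral_mono fun r => ?_
        dsimp only
        rw [push_infoAt]
        exact infoAt_lower hK (π.comap e e') h0 r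

end Pool.Agent.Helper72K9.EIC
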