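import Pool.Agent.Helper72K9.EIC.Facts

/-!
# Deterministic protocol trees
-/

set_option autoImplicit false
set_option linter.unusedSectionVars false
set_option linter.unusedSimpArgs false

namespace Pool.Agent.Helper72K9.EIC

open MeasureTheory
open scoped ENNReal

/-- deterministic protocol trees -/
inductive Tree (X Y Z : Type) : Type
  | out (z : Z) : Tree X Y Z
  | alice (f : X → Bool) (t0 t1 : Tree X Y Z) : Tree X Y Z
  | bob (g : Y → Bool) (t0 t1 : Tree X Y Z) : Tree X Y Z

namespace Tree

variable {X Y Z : Type}

def isOut : Tree X Y Z → Bool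
  | out _ => true
  | alice _ _ _ => false
  | bob _ _ _ => false

def isAlice : Tree X Y Z → Bool
  | out _ => false
  | alice _ _ _ => true
  | bob _ _ _ => false

def bA : Tree X Y Z → X → Bool
  | out _ => fun _ => false
  | alice f _ _ => f
  | bob _ _ _ => fun _ => false

def bB : Tree X Y Z → Y → Bool
  | out _ => fun _ => false
  | alice _ _ _ => fun _ => false
  | bob g _ _ => g

def val (z0 : Z) : Tree X Y Z → Z
  | out z => z
  | alice _ _ _ => z0
  | bob _ _ _ => z0

def child : Tree X Y Z → Bool → Tree X Y Z
  | out z => fun _ => out z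
  | alice _ t0 t1 => fun b => if b then t1 else t0
  | bob _ t0 t1 => fun b => if b then t1 else t0

def walk (t : Tree X Y Z) (h : List Bool) : Tree X Y Z := h.foldl child t

def run (x : X) (y : Y) : Tree X Y Z → List Bool
  | out _ => []
  | alice f t0 t1 => f x :: (if f x then run x y t1 else run x y t0)
  | bob g t0 t1 => g y :: (if g y then run x y t1 else run x y t0)

def eval (x : X) (y : Y) : Tree X Y Z → Z
  | out z => z
  | alice f t0 t1 => if f x then eval x y t1 else eval x y t0
  | bob g t0 t1 => if g y then eval x y t1 else eval x y t0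

theorem run_alice (x : X) (y : Y) (f : X → Bool) (t0 t1 : Tree X Y Z) :
    (alice f t0 t1).run x y = f x :: (if f x = true then t1.run x y else t0.run x y) := rfl

theorem run_bob (x : X) (y : Y) (g : Y → Bool) (t0 t1 : Tree X Y Z) :
    (bob g t0 t1).run x y = g y :: (if g y = true then t1.run x y else t0.run x y) := rfl

theorem eval_alice (x : X) (y : Y) (f : X → Bool) (t0 t1 : Tree X Y Z) :
    (alice f t0 t1).eval x y = if f x = true then t1.eval x y else t0.eval x y := rfl

theorem eval_bob (x : X) (y : Y) (g : Y → Bool) (t0 t1 : Tree X Y Z) :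
    (bob g t0 t1).eval x y = if g y = true then t1.eval x y else t0.eval x y := rfl

def depth : Tree X Y Z → ℕ
  | out _ => 0
  | alice _ t0 t1 => 1 + max (depth t0) (depth t1)
  | bob _ t0 t1 => 1 + max (depth t0) (depth t1)

/-- the protocol of a tree -/
noncomputable def toProtocol (z0 : Z) (t : Tree X Y Z) : Protocol X Y Z where
  ΩP := Unit
  ΩA := Unit
  ΩB := Unit
  P := Measure.dirac ()
  PA := Measure.dirac ()
  PB := Measure.dirac ()
  stop _ h := (t.walk h).isOut
  aliceSpeaks _ h := (t.walk h).isAlice
  bitA _ h x _ := (t.walk h).bA x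
  bitB _ h y _ := (t.walk h).bB y
  aliceAnswers _ _ := true
  answerA _ h _ _ := (t.walk h).val z0
  answerB _ h _ _ := (t.walk h).val z0
  measurable_stop _ := measurable_const
  measurable_aliceSpeaks _ := measurable_const
  measurable_bitA _ _ := measurable_const
  measurable_bitB _ _ := measurable_const

theorem walk_nil (t : Tree X Y Z) : t.walk [] = t := rfl

theorem walk_cons (t : Tree X Y Z) (b : Bool) (h : List Bool) :
    t.walk (b :: h) = (t.child b).walk h := rfl

theorem walk_run (x : X) (y : Y) (t : Tree X Y Z) : t.walk (t.run x y) = out (t.eval x y) := by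
  induction t with
  | out z => rfl
  | alice f t0 t1 ih0 ih1 =>
    simp only [run, eval, walk_cons, child]
    by_cases h : f x = true
    · simp only [h, if_true, ih1]
    · simp only [h, if_false, ih0, Bool.false_eq_true]
  | bob g t0 t1 ih0 ih1 =>
    simp only [run, eval, walk_cons, child]
    by_cases h : g y = true
    · simp only [h, if_true, ih1]
    · simp only [h, if_false, ih0, Bool.false_eq_true]

theorem isTranscript_cons (z0 : Z) (t t' : Tree X Y Z) (r a b : Unit) (x : X) (y : Y) (c : Bool)
    (m : List Bool) (h0 : t.isOut = false)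
    (hc : c = if t.isAlice = true then t.bA x else t.bB y) (hchild : t.child c = t')
    (h : (t'.toProtocol z0).IsTranscript r x a y b m) :
    (t.toProtocol z0).IsTranscript r x a y b (c :: m) := by
  subst hchild
  refine ⟨?_, h.2⟩
  intro i hi
  rcases i with _ | i
  · exact ⟨h0, hc⟩
  · exact h.1 i (by simpa using hi)

theorem isTranscript_run (z0 : Z) (r a b : Unit) (x : X) (y : Y) (t : Tree X Y Z) :
    (t.toProtocol z0).IsTranscript r x a y b (t.run x y) := by
  induction t with
  | out z =>
    refine ⟨?_, rfl⟩
    intro i hi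
    exact absurd hi (by simp [run])
  | alice f t0 t1 ih0 ih1 =>
    rw [run_alice]
    by_cases h : f x = true
    · rw [if_pos h]
      exact isTranscript_cons z0 _ t1 r a b x y (f x) _ rfl rfl (if_pos h) ih1
    · rw [if_neg h]
      exact isTranscript_cons z0 _ t0 r a b x y (f x) _ rfl rfl (if_neg h) ih0
  | bob g t0 t1 ih0 ih1 =>
    rw [run_bob]
    by_cases h : g y = true
    · rw [if_pos h]
      exact isTranscript_cons z0 _ t1 r a b x y (g y) _ rfl rfl (if_pos h) ih1
    · rw [if_neg h]
      exact isTranscript_cons z0 _ t0 r a b x y (g y) _ rfl rfl (if_neg h) ih0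

theorem zeroError (z0 : Z) (t : Tree X Y Z) (F : X → Y → Z) (h : ∀ x y, t.eval x y = F x y) :
    (t.toProtocol z0).ZeroError F := by
  intro r x a y b
  refine ⟨t.run x y, isTranscript_run z0 r a b x y t, ?_⟩
  show (t.walk (t.run x y)).val z0 = F x y
  rw [walk_run, ← h]
  rfl

theorem prob_eq (z0 : Z) (t : Tree X Y Z) (r : Unit) (x : X) (y : Y) (m : List Bool) :
    (t.toProtocol z0).prob r x y m = if m = t.run x y then 1 else 0 := by
  unfold Protocol.prob
  by_cases h : m = t.run x y
  · rw [if_pos h, h]
    have : {w : (t.toProtocol z0).ΩA × (t.toProtocol z0).ΩB |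
        (t.toProtocol z0).IsTranscript r x w.1 y w.2 (t.run x y)} = Set.univ := by
      rw [Set.eq_univ_iff_forall]
      intro w
      exact isTranscript_run z0 r w.1 w.2 x y t
    rw [this, measure_univ]
    rfl
  · rw [if_neg h]
    have : {w : (t.toProtocol z0).ΩA × (t.toProtocol z0).ΩB |
        (t.toProtocol z0).IsTranscript r x w.1 y w.2 m} = ∅ := by
      rw [Set.eq_empty_iff_forall_notMem]
      intro w hw
      exact h ((t.toProtocol z0).transcript_unique hw (isTranscript_run z0 r w.1 w.2 x y t))
    rw [this]
    simp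

theorem isOut_walk_out (z : Z) (h : List Bool) : ((out z : Tree X Y Z).walk h) = out z := by
  induction h with
  | nil => rfl
  | cons b h ih => rw [walk_cons]; exact ih

theorem isOut_walk (t : Tree X Y Z) : ∀ h : List Bool, t.depth ≤ h.length → (t.walk h).isOut = true := by
  induction t with
  | out z => intro h _; rw [isOut_walk_out]; rfl
  | alice f t0 t1 ih0 ih1 =>
    intro h hh
    unfold depth at hh
    cases h with
    | nil => simp at hh
    | cons b h =>
      rw [List.length_cons] at hh
      rw [walk_cons]
      cases b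
      · exact ih0 h (by omega)
      · exact ih1 h (by omega)
  | bob f t0 t1 ih0 ih1 =>
    intro h hh
    unfold depth at hh
    cases h with
    | nil => simp at hh
    | cons b h =>
      rw [List.length_cons] at hh
      rw [walk_cons]
      cases b
      · exact ih0 h (by omega)
      · exact ih1 h (by omega)

theorem elementary (z0 : Z) (t : Tree X Y Z) : (t.toProtocol z0).Elementary :=
  ⟨fun h => (t.walk h).isOut, fun h => (t.walk h).isAlice, fun h => (t.walk h).bA,
    fun h => (t.walk h).bB, fun h => (t.walk h).val z0, t.depth, fun _ h =>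
    ⟨rfl, rfl, fun _ _ => ⟨rfl, rfl⟩, fun _ _ => ⟨rfl, rfl⟩, t.isOut_walk h⟩⟩

theorem cost_le [Fintype X] [Fintype Y] (π : Protocol X Y Z) (tr : X → Y → List Bool)
    (hprob : ∀ r x y m, π.prob r x y m = if m = tr x y then 1 else 0)
    (μ : X × Y → ℝ) (hμ : ∀ p, 0 ≤ μ p) (hμ1 : ∑ p, μ p = 1) (L : ℕ)
    (hL : ∀ p, μ p ≠ 0 → (tr p.1 p.2).length ≤ L) : π.cost μ ≤ L := by
  unfold Protocol.cost
  have hpt : ∀ r, ∑' m : List Bool, ENNReal.ofReal (∑ p : X × Y, μ p * π.prob r p.1 p.2 m) *
      (m.length : ℝ≥0∞) ≤ L := by
    intro r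
    calc ∑' m : List Bool, ENNReal.ofReal (∑ p : X × Y, μ p * π.prob r p.1 p.2 m) *
          (m.length : ℝ≥0∞)
        = ∑' m : List Bool, ∑ p : X × Y, ENNReal.ofReal (μ p) *
          ((if m = tr p.1 p.2 then 1 else 0) * (m.length : ℝ≥0∞)) := by
          refine tsum_congr fun m => ?_
          rw [ENNReal.ofReal_sum_of_nonneg, Finset.sum_mul]
          · refine Finset.sum_congr rfl fun p _ => ?_
            rw [hprob, ENNReal.ofReal_mul (hμ p), mul_assoc]
            congr 2
            split_ifs <;> simp
          · intro p _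
            rw [hprob]
            refine mul_nonneg (hμ p) ?_
            split_ifs <;> norm_num
      _ = ∑ p : X × Y, ENNReal.ofReal (μ p) * ((tr p.1 p.2).length : ℝ≥0∞) := by
          rw [Summable.tsum_finsetSum fun _ _ => ENNReal.summable]
          refine Finset.sum_congr rfl fun p _ => ?_
          rw [ENNReal.tsum_mul_left]
          congr 1
          rw [tsum_eq_single (tr p.1 p.2)]
          · simp
          · intro m hm
            simp [hm]
      _ ≤ ∑ p : X × Y, ENNReal.ofReal (μ p) * (L : ℝ≥0∞) := by
          refine Finset.sum_le_sum fun p _ => ?_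
          by_cases h : μ p = 0
          · simp [h]
          · exact mul_le_mul le_rfl (by exact_mod_cast hL p h) (by positivity) (by positivity)
      _ = L := by
          rw [← Finset.sum_mul, ← ENNReal.ofReal_sum_of_nonneg fun p _ => hμ p, hμ1]
          simp
  calc ∫⁻ r, ∑' m : List Bool, ENNReal.ofReal (∑ p : X × Y, μ p * π.prob r p.1 p.2 m) *
        (m.length : ℝ≥0∞) ∂π.P ≤ ∫⁻ _, (L : ℝ≥0∞) ∂π.P := lintegral_mono fun r => hpt r
    _ = L := by rw [lintegral_const, measure_univ, mul_one]

/-! ### sending blocks of bits -/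

def sendA : (N : ℕ) → (X → Fin N → Bool) → ((Fin N → Bool) → Tree X Y Z) → Tree X Y Z
  | 0, _, c => c Fin.elim0
  | N + 1, f, c => alice (fun x => f x 0)
      (sendA N (fun x i => f x i.succ) (fun w => c (Fin.cons false w)))
      (sendA N (fun x i => f x i.succ) (fun w => c (Fin.cons true w)))

def sendB : (N : ℕ) → (Y → Fin N → Bool) → ((Fin N → Bool) → Tree X Y Z) → Tree X Y Z
  | 0, _, c => c Fin.elim0
  | N + 1, g, c => bob (fun y => g y 0)
      (sendB N (fun y i => g y i.succ) (fun w => c (Fin.cons false w)))
      (sendB N (fun y i => g y i.succ) (fun w => c (Fin.cons true w)))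

theorem cons_eq {N : ℕ} (w : Fin (N + 1) → Bool) (b : Bool) (h : w 0 = b) :
    (Fin.cons b (fun i => w i.succ) : Fin (N + 1) → Bool) = w := by
  rw [← h]
  exact Fin.cons_self_tail w

theorem sendA_eval (x : X) (y : Y) : ∀ (N : ℕ) (f : X → Fin N → Bool)
    (c : (Fin N → Bool) → Tree X Y Z), (sendA N f c).eval x y = (c (f x)).eval x y
  | 0, f, c => by
    unfold sendA
    congr 2
    exact Subsingleton.elim _ _
  | N + 1, f, c => by
    unfold sendA
    rw [eval_alice]
    cases h : f x 0
    · rw [if_neg Bool.false_ne_true, sendA_eval x y N, cons_eq (f x) false h]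
    · rw [if_pos rfl, sendA_eval x y N, cons_eq (f x) true h]

theorem sendB_eval (x : X) (y : Y) : ∀ (N : ℕ) (g : Y → Fin N → Bool)
    (c : (Fin N → Bool) → Tree X Y Z), (sendB N g c).eval x y = (c (g y)).eval x y
  | 0, g, c => by
    unfold sendB
    congr 2
    exact Subsingleton.elim _ _
  | N + 1, g, c => by
    unfold sendB
    rw [eval_bob]
    cases h : g y 0
    · rw [if_neg Bool.false_ne_true, sendB_eval x y N, cons_eq (g y) false h]
    · rw [if_pos rfl, sendB_eval x y N, cons_eq (g y) true h]

theorem sendA_length (x : X) (y : Y) : ∀ (N : ℕ) (f : X → Fin N → Bool)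
    (c : (Fin N → Bool) → Tree X Y Z),
    ((sendA N f c).run x y).length = N + ((c (f x)).run x y).length
  | 0, f, c => by
    unfold sendA
    rw [Nat.zero_add]
    congr 3
    exact Subsingleton.elim _ _
  | N + 1, f, c => by
    unfold sendA
    rw [run_alice]
    cases h : f x 0
    · rw [if_neg Bool.false_ne_true, List.length_cons, sendA_length x y N, cons_eq (f x) false h]
      omega
    · rw [if_pos rfl, List.length_cons, sendA_length x y N, cons_eq (f x) true h]
      omega

theorem sendB_length (x : X) (y : Y) : ∀ (N : ℕ) (g : Y → Fin N → Bool)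
    (c : (Fin N → Bool) → Tree X Y Z),
    ((sendB N g c).run x y).length = N + ((c (g y)).run x y).length
  | 0, g, c => by
    unfold sendB
    rw [Nat.zero_add]
    congr 3
    exact Subsingleton.elim _ _
  | N + 1, g, c => by
    unfold sendB
    rw [run_bob]
    cases h : g y 0
    · rw [if_neg Bool.false_ne_true, List.length_cons, sendB_length x y N, cons_eq (g y) false h]
      omega
    · rw [if_pos rfl, List.length_cons, sendB_length x y N, cons_eq (g y) true h]
      omega

end Tree

end Pool.Agent.Helper72K9.EIC
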