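import Pool.Agent.Helper72K9.EIC.Tree
import Pool.Agent.Helper72K9.EIC.Lower

/-!
# The protocol for many independent coordinates
-/

set_option autoImplicit false
set_option linter.unusedSectionVars false
set_option linter.unusedSimpArgs false

namespace Pool.Agent.Helper72K9.EIC

open MeasureTheory
open scoped ENNReal

/-- an encoding by bits -/
theorem exists_code (T : Type) [Fintype T] [Nonempty T] (N : ℕ) (h : Fintype.card T ≤ 2 ^ N) :
    ∃ (e : T → Fin N → Bool) (d : (Fin N → Bool) → T), ∀ t, d (e t) = t := by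
  classical
  have h1 : Fintype.card T ≤ Fintype.card (Fin N → Bool) := by simpa using h
  obtain ⟨e⟩ := Function.Embedding.nonempty_of_card_le h1
  exact ⟨e, Function.invFun e, Function.leftInverse_invFun e.injective⟩

variable {I : Type} [Fintype I] [DecidableEq I]

section

variable (n : ℕ)

/-- the shifts of Bob, extended by zero -/
def sB (ys : Fin n → BY I) (j : ℕ) : ZMod 5 := if h : j < n then (ys ⟨j, h⟩).2 else 0

/-- the shifts of Alice, extended by zero -/
def sA (xs : Fin n → AX I) (j : ℕ) : ZMod 5 := if h : j < n then (xs ⟨j, h⟩).2 else 0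

/-- the first message -/
def msg1 (ys : Fin n → BY I) : Fin (n / 2 + 1) → ZMod 5 :=
  fun t => sB n ys (2 * t.val + 1) - 2 * sB n ys (2 * t.val)

/-- the bits decoded by Alice -/
def nbit (xs : Fin n → AX I) (w : Fin (n / 2 + 1) → ZMod 5) (i : Fin n) : Bool :=
  let t : Fin (n / 2 + 1) := ⟨i.val / 2, by have := i.isLt; omega⟩
  let D : ZMod 5 := w t - (sA n xs (2 * t.val + 1) - 2 * sA n xs (2 * t.val))
  if i.val % 2 = 0 then decide (D = 3 ∨ D = 4) else decide (D = 1 ∨ D = 4)

/-- the second message -/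
def msg2 (xs : Fin n → AX I) (w : Fin (n / 2 + 1) → ZMod 5) : Fin n → Bool × I :=
  fun i => (nbit n xs w i, if nbit n xs w i then (xs i).1.2 else (xs i).1.1)

/-- the check of Bob -/
def okB (ys : Fin n → BY I) (G : Fin n → Bool × I) : Bool :=
  decide (∀ i, (if (G i).1 then (ys i).1.2 else (ys i).1.1) (G i).2 = true)

theorem okB_msg2 (xs : Fin n → AX I) (ys : Fin n → BY I) (w : Fin (n / 2 + 1) → ZMod 5)
    (h : okB n ys (msg2 n xs w) = true) (i : Fin n) : Fz (xs i) (ys i) = true := by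
  unfold okB msg2 at h
  rw [decide_eq_true_eq] at h
  have h1 := h i
  unfold Fz
  dsimp only at h1
  cases hb : nbit n xs w i
  · rw [hb] at h1
    simp only [Bool.false_eq_true, if_false] at h1
    rw [h1]; rfl
  · rw [hb] at h1
    simp only [if_true] at h1
    rw [h1]; simp

theorem μz_supp' {p : AX I × BY I} (h : μz p ≠ 0) :
    (p.2.2 = p.1.2 ∧ p.2.1.1 p.1.1.1 = true) ∨ (p.2.2 = p.1.2 + 1 ∧ p.2.1.2 p.1.1.2 = true) := by
  unfold μz mz at h
  by_cases c0 : p.2.2 = p.1.2 ∧ cl0 (p.2.1.1 p.1.1.1) (p.2.1.2 p.1.1.2) = true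
  · left
    refine ⟨c0.1, ?_⟩
    have := c0.2
    unfold cl0 at this
    rw [Bool.and_eq_true] at this
    exact this.1
  · by_cases c1 : p.2.2 = p.1.2 + 1 ∧ cl1 (p.2.1.1 p.1.1.1) (p.2.1.2 p.1.1.2) = true
    · right
      refine ⟨c1.1, ?_⟩
      have := c1.2
      unfold cl1 at this
      rw [Bool.and_eq_true] at this
      exact this.2
    · simp [c0, c1] at h

theorem zmod_even : ∀ d e : ZMod 5, (d = 0 ∨ d = 1) → (e = 0 ∨ e = 1) →
    ((e - 2 * d = 3 ∨ e - 2 * d = 4) ↔ d = 1) := by decide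

theorem zmod_odd : ∀ d e : ZMod 5, (d = 0 ∨ d = 1) → (e = 0 ∨ e = 1) →
    ((e - 2 * d = 1 ∨ e - 2 * d = 4) ↔ e = 1) := by decide

theorem okB_supp (xs : Fin n → AX I) (ys : Fin n → BY I) (h : ∀ i, μz (xs i, ys i) ≠ 0) :
    okB n ys (msg2 n xs (msg1 n ys)) = true := by
  have hδ : ∀ j : ℕ, sB n ys j - sA n xs j = 0 ∨ sB n ys j - sA n xs j = 1 := by
    intro j
    unfold sB sA
    by_cases hj : j < n
    · rw [dif_pos hj, dif_pos hj]
      rcases μz_supp' (h ⟨j, hj⟩) with h1 | h1
      · left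
        have := h1.1
        dsimp only at this
        rw [this, sub_self]
      · right
        have := h1.1
        dsimp only at this
        rw [this]; ring
    · rw [dif_neg hj, dif_neg hj]
      left; ring
  have hn : ∀ i : Fin n, (nbit n xs (msg1 n ys) i = true ↔ (ys i).2 - (xs i).2 = 1) := by
    intro i
    unfold nbit msg1
    dsimp only
    have e1 : sB n ys (2 * (i.val / 2) + 1) - 2 * sB n ys (2 * (i.val / 2)) -
        (sA n xs (2 * (i.val / 2) + 1) - 2 * sA n xs (2 * (i.val / 2))) =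
        (sB n ys (2 * (i.val / 2) + 1) - sA n xs (2 * (i.val / 2) + 1)) -
          2 * (sB n ys (2 * (i.val / 2)) - sA n xs (2 * (i.val / 2))) := by ring
    rw [e1]
    have e2 : sB n ys i.val - sA n xs i.val = (ys i).2 - (xs i).2 := by
      unfold sB sA
      rw [dif_pos i.isLt, dif_pos i.isLt]
    by_cases hpar : i.val % 2 = 0
    · rw [if_pos hpar, decide_eq_true_eq, zmod_even _ _ (hδ _) (hδ _)]
      have e3 : 2 * (i.val / 2) = i.val := by omega
      rw [e3, e2]
    · rw [if_neg hpar, decide_eq_true_eq, zmod_odd _ _ (hδ _) (hδ _)]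
      have e3 : 2 * (i.val / 2) + 1 = i.val := by omega
      rw [e3, e2]
  unfold okB msg2
  rw [decide_eq_true_eq]
  intro i
  dsimp only
  have h2 := hn i
  rcases μz_supp' (h i) with h1 | h1
  · have h3 : nbit n xs (msg1 n ys) i = false := by
      rw [← Bool.not_eq_true, h2]
      have := h1.1
      dsimp only at this
      rw [this, sub_self]
      decide
    rw [h3]
    simpa using h1.2
  · have h3 : nbit n xs (msg1 n ys) i = true := by
      rw [h2]
      have := h1.1
      dsimp only at this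
      rw [this]; ring
    rw [h3]
    simpa using h1.2

theorem exists_tree (hK : Fintype.card I = 2 ^ 8192) :
    ∃ t : Tree (Fin n → AX I) (Fin n → BY I) (Fin n → Bool),
      (∀ xs ys, t.eval xs ys = powF Fz n xs ys) ∧
      (∀ xs ys, (∀ i, μz (xs i, ys i) ≠ 0) →
        (t.run xs ys).length ≤ Nat.clog 2 (5 ^ (n / 2 + 1)) + 8193 * n + 1) := by
  classical
  have hI : 0 < Fintype.card I := by rw [hK]; exact Nat.pow_pos (by norm_num)
  haveI : Nonempty I := Fintype.card_pos_iff.1 hI
  obtain ⟨e1, d1, h1⟩ := exists_code (Fin (n / 2 + 1) → ZMod 5) (Nat.clog 2 (5 ^ (n / 2 + 1)))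
    (by simpa using Nat.le_pow_clog (by norm_num) (5 ^ (n / 2 + 1)))
  obtain ⟨e2, d2, h2⟩ := exists_code (Fin n → Bool × I) (8193 * n) (by
    rw [Fintype.card_fun, Fintype.card_fin, Fintype.card_prod, Fintype.card_bool, hK, pow_mul]
    refine Nat.pow_le_pow_left ?_ n
    rw [← pow_succ'])
  obtain ⟨e3, d3, h3⟩ := exists_code (Fin n → AX I) (Fintype.card (Fin n → AX I))
    Nat.lt_two_pow_self.le
  obtain ⟨e4, d4, h4⟩ := exists_code (Fin n → BY I) (Fintype.card (Fin n → BY I))
    Nat.lt_two_pow_self.le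
  generalize Nat.clog 2 (5 ^ (n / 2 + 1)) = N1 at e1 d1 h1 ⊢
  generalize Fintype.card (Fin n → AX I) = N3 at e3 d3 h3
  generalize Fintype.card (Fin n → BY I) = N4 at e4 d4 h4
  let t5 : Tree (Fin n → AX I) (Fin n → BY I) (Fin n → Bool) :=
    Tree.sendA N3 e3 fun w3 => Tree.sendB N4 e4 fun w4 => Tree.out (powF Fz n (d3 w3) (d4 w4))
  let t3 : (Fin (8193 * n) → Bool) → Tree (Fin n → AX I) (Fin n → BY I) (Fin n → Bool) :=
    fun w2 => Tree.bob (fun ys => okB n ys (d2 w2)) t5 (Tree.out fun _ => true)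
  let t : Tree (Fin n → AX I) (Fin n → BY I) (Fin n → Bool) :=
    Tree.sendB N1 (fun ys => e1 (msg1 n ys)) fun w1 =>
      Tree.sendA (8193 * n) (fun xs => e2 (msg2 n xs (d1 w1))) t3
  refine ⟨t, fun xs ys => ?_, fun xs ys hsupp => ?_⟩
  · simp only [t, Tree.sendB_eval, Tree.sendA_eval, h1]
    simp only [t3, Tree.eval_bob, h2]
    by_cases hok : okB n ys (msg2 n xs (msg1 n ys)) = true
    · rw [if_pos hok]
      funext i
      exact (okB_msg2 n xs ys _ hok i).symm
    · rw [if_neg hok]
      simp only [t5, Tree.sendB_eval, Tree.sendA_eval, h3, h4, Tree.eval]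
  · simp only [t, Tree.sendB_length, Tree.sendA_length, h1]
    simp only [t3, Tree.run_bob, h2]
    rw [if_pos (okB_supp n xs ys hsupp)]
    simp only [Tree.run, List.length_cons, List.length_nil]
    omega

end

end Pool.Agent.Helper72K9.EIC
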